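import Pool.Agent.Helper97.Copolymer.Final

open MeasureTheory ProbabilityTheory Filter Topology Set

namespace Pool.Agent.Helper97.Copolymer

open Pool.Agent.Helper97

variable (ν : Measure ℝ) [IsProbabilityMeasure ν] (lam : ℝ)

section Lip

variable {K : PMF ℕ} {c : ℝ} {p n0 : ℕ} (hP : PolyLower K c p n0)
include hP

omit [IsProbabilityMeasure ν] hP in
lemma partitionFn_lip (N : ℕ) (ω : ℕ → ℝ) (h h' : ℝ) :
    partitionFn K lam h N ω ≤
      Real.exp (2 * |lam| * |h - h'| * N) * partitionFn K lam h' N ω := by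
  rw [partitionFn_eq, partitionFn_eq, ← integral_const_mul]
  refine integral_mono (integrable_exp_energy K lam h N ω)
    ((integrable_exp_energy K lam h' N ω).const_mul _) (fun s => ?_)
  simp only
  rw [← Real.exp_add]
  apply Real.exp_le_exp.2
  have e1 : energy lam h N ω s = energy lam h' N ω s +
      -2 * lam * ((∑ n ∈ Finset.range N, Delta s (n + 1)) * (h - h')) := by
    unfold energy
    rw [Finset.sum_mul, ← mul_add, ← Finset.sum_add_distrib]
    congr 1
    refine Finset.sum_congr rfl fun n _ => ?_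
    ring
  rw [e1]
  have h1 : |∑ n ∈ Finset.range N, Delta s (n + 1)| ≤ N := by
    rw [abs_of_nonneg (Finset.sum_nonneg fun n _ => Delta_nonneg s _)]
    calc ∑ n ∈ Finset.range N, Delta s (n + 1) ≤ ∑ n ∈ Finset.range N, (1 : ℝ) :=
          Finset.sum_le_sum fun n _ => Delta_le_one s _
      _ = N := by simp
  have h2 : -2 * lam * ((∑ n ∈ Finset.range N, Delta s (n + 1)) * (h - h')) ≤
      2 * |lam| * |h - h'| * N := by
    refine (le_abs_self _).trans ?_
    rw [abs_mul, abs_mul, abs_mul]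
    have : |(-2 : ℝ)| = 2 := by norm_num
    rw [this]
    calc 2 * |lam| * (|∑ n ∈ Finset.range N, Delta s (n + 1)| * |h - h'|)
        ≤ 2 * |lam| * (N * |h - h'|) := by gcongr
      _ = _ := by ring
  linarith

omit [IsProbabilityMeasure ν] hP in
lemma partitionFn_anti (hlam : 0 < lam) (N : ℕ) (ω : ℕ → ℝ) (h h' : ℝ) (hh : h ≤ h') :
    partitionFn K lam h' N ω ≤ partitionFn K lam h N ω := by
  rw [partitionFn_eq, partitionFn_eq]
  refine integral_mono (integrable_exp_energy K lam h' N ω)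
    (integrable_exp_energy K lam h N ω) (fun s => ?_)
  simp only
  apply Real.exp_le_exp.2
  unfold energy
  have : ∑ n ∈ Finset.range N, Delta s (n + 1) * (ω n + h) ≤
      ∑ n ∈ Finset.range N, Delta s (n + 1) * (ω n + h') := by
    refine Finset.sum_le_sum fun n _ => ?_
    exact mul_le_mul_of_nonneg_left (by linarith) (Delta_nonneg s _)
  nlinarith

lemma ee_lip (hK0 : K 0 = 0) (hM : ∀ t : ℝ, Integrable (fun x => Real.exp (t * x)) ν)
    (N : ℕ) (h h' : ℝ) :
    ee K ν lam h N ≤ 2 * |lam| * |h - h'| * N + ee K ν lam h' N := by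
  unfold ee
  have i1 := integrable_log_ZZ ν lam h hM hP N
  have i2 := integrable_log_ZZ ν lam h' hM hP N
  have : 2 * |lam| * |h - h'| * N + ∫ ω, Real.log (ZZ K lam h' N ω) ∂(chargeLaw ν) =
      ∫ ω, (2 * |lam| * |h - h'| * N + Real.log (ZZ K lam h' N ω)) ∂(chargeLaw ν) := by
    rw [integral_add (integrable_const _) i2]; simp
  rw [this]
  refine integral_mono i1 ((integrable_const _).add i2) (fun ω => ?_)
  simp only
  have h1 := partitionFn_lip (K := K) lam N ω h h'
  rw [partitionFn_eq_GG K lam h hK0, partitionFn_eq_GG K lam h' hK0] at h1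
  have hz1 := ZZ_pos lam h hP N ω
  have hz2 := ZZ_pos lam h' hP N ω
  have h2 : Real.log (ZZ K lam h N ω) ≤
      Real.log (Real.exp (2 * |lam| * |h - h'| * N) * ZZ K lam h' N ω) :=
    Real.log_le_log hz1 h1
  rwa [Real.log_mul (Real.exp_pos _).ne' hz2.ne', Real.log_exp] at h2

lemma ee_anti (hK0 : K 0 = 0) (hM : ∀ t : ℝ, Integrable (fun x => Real.exp (t * x)) ν)
    (hlam : 0 < lam) (N : ℕ) (h h' : ℝ) (hh : h ≤ h') :
    ee K ν lam h' N ≤ ee K ν lam h N := by
  unfold ee
  refine integral_mono (integrable_log_ZZ ν lam h' hM hP N)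
    (integrable_log_ZZ ν lam h hM hP N) (fun ω => ?_)
  have h1 := partitionFn_anti (K := K) lam hlam N ω h h' hh
  rw [partitionFn_eq_GG K lam h hK0, partitionFn_eq_GG K lam h' hK0] at h1
  exact Real.log_le_log (ZZ_pos lam h' hP N ω) h1

lemma fr_lip (hK0 : K 0 = 0) (hM : ∀ t : ℝ, Integrable (fun x => Real.exp (t * x)) ν)
    (h h' : ℝ) : fr K ν lam h hM ≤ 2 * |lam| * |h - h'| + fr K ν lam h' hM := by
  have t1 := ee_tendsto ν lam h hM hP
  have t2 := ee_tendsto ν lam h' hM hP
  refine le_of_tendsto_of_tendsto t1 (tendsto_const_nhds.add t2) ?_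
  filter_upwards [eventually_gt_atTop 0] with N hN
  have hN' : (0 : ℝ) < N := by exact_mod_cast hN
  have h1 := ee_lip ν lam hP hK0 hM N h h'
  calc (N : ℝ)⁻¹ * ee K ν lam h N
      ≤ (N : ℝ)⁻¹ * (2 * |lam| * |h - h'| * N + ee K ν lam h' N) := by gcongr
    _ = _ := by field_simp

lemma fr_anti (hK0 : K 0 = 0) (hM : ∀ t : ℝ, Integrable (fun x => Real.exp (t * x)) ν)
    (hlam : 0 < lam) (h h' : ℝ) (hh : h ≤ h') : fr K ν lam h' hM ≤ fr K ν lam h hM := by
  have t1 := ee_tendsto ν lam h' hM hP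
  have t2 := ee_tendsto ν lam h hM hP
  refine le_of_tendsto_of_tendsto' t1 t2 fun N => ?_
  have := ee_anti ν lam hP hK0 hM hlam N h h' hh
  gcongr

omit hP in
lemma fr_nonneg (hM : ∀ t : ℝ, Integrable (fun x => Real.exp (t * x)) ν) (h : ℝ) :
    0 ≤ fr K ν lam h hM :=
  ge_of_tendsto' (fr_tendsto K ν lam h hM)
    (fun N => div_nonneg (AA_nonneg K ν lam h N) (Nat.cast_nonneg N))

omit hP in
lemma integrable_exp_xs' (h : ℝ) (hM : ∀ t : ℝ, Integrable (fun x => Real.exp (t * x)) ν)
    (i : ℕ) : Integrable (fun ω => Real.exp (xs lam h i ω)) (chargeLaw ν) := by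
  have := integrable_exp_xs ν lam h hM 1 le_rfl i
  simpa using this

omit hP in
/-- delocalisation for large `h` -/
lemma integral_ZZ_le_one (h : ℝ) (hM : ∀ t : ℝ, Integrable (fun x => Real.exp (t * x)) ν)
    (hh : ∫ x, Real.exp (-2 * lam * (x + h)) ∂ν ≤ 1) (N : ℕ) :
    Integrable (ZZ K lam h N) (chargeLaw ν) ∧ ∫ ω, ZZ K lam h N ω ∂(chargeLaw ν) ≤ 1 := by
  have hpsi : ∀ i, Integrable (psi lam h i) (chargeLaw ν) ∧
      ∫ ω, psi lam h i ω ∂(chargeLaw ν) ≤ 1 := by
    intro i
    have hi := integrable_exp_xs' ν lam h hM i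
    have h1 := integral_exp_xs_le ν lam h 1 (by simpa using hh) i
    simp only [Nat.cast_one, div_one] at h1
    constructor
    · unfold psi
      exact ((integrable_const _).add hi).div_const _
    · unfold psi
      rw [integral_div, integral_add (integrable_const _) hi]
      simp
      linarith
  induction N using Nat.strong_induction_on with
  | _ N ih =>
    have e : ZZ K lam h N = fun ω => Kbar K N * psi lam h N ω +
      ∑ j ∈ Finset.range N, kk K (j + 1) * psi lam h (j + 1) ω *
        ZZ K lam h (N - (j + 1)) (shift (j + 1) ω) := by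
      funext ω; exact ZZ_eq K lam h N ω
    have hdep : ∀ j, DepLT (j + 1) (fun ω => kk K (j + 1) * psi lam h (j + 1) ω) := by
      intro j ω ω' hω
      simp only
      rw [depLT_psi lam h (j + 1) ω ω' hω]
    have hterm : ∀ j ∈ Finset.range N, Integrable (fun ω => kk K (j + 1) *
        psi lam h (j + 1) ω * ZZ K lam h (N - (j + 1)) (shift (j + 1) ω)) (chargeLaw ν) := by
      intro j hj
      rw [Finset.mem_range] at hj
      exact integrable_mul_shift' ν (j + 1) (fun ω => kk K (j + 1) * psi lam h (j + 1) ω) _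
        (hdep j) (by fun_prop) (measurable_ZZ K lam h _) ((hpsi (j + 1)).1.const_mul _)
        (ih _ (by omega)).1
    rw [e]
    refine ⟨((hpsi N).1.const_mul _).add (integrable_finsetSum _ hterm), ?_⟩
    rw [integral_add ((hpsi N).1.const_mul _) (integrable_finsetSum _ hterm),
      integral_finsetSum _ hterm, integral_const_mul]
    have h1 : Kbar K N * ∫ ω, psi lam h N ω ∂(chargeLaw ν) ≤ Kbar K N * 1 :=
      mul_le_mul_of_nonneg_left (hpsi N).2 (Kbar_nonneg K N)
    have h2 : ∑ j ∈ Finset.range N, ∫ ω, kk K (j + 1) * psi lam h (j + 1) ω *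
        ZZ K lam h (N - (j + 1)) (shift (j + 1) ω) ∂(chargeLaw ν) ≤
        ∑ j ∈ Finset.range N, kk K (j + 1) := by
      refine Finset.sum_le_sum fun j hj => ?_
      rw [Finset.mem_range] at hj
      rw [integral_mul_shift' ν (j + 1) (fun ω => kk K (j + 1) * psi lam h (j + 1) ω) _
        (hdep j) (by fun_prop) (measurable_ZZ K lam h _), integral_const_mul]
      have h3 := (hpsi (j + 1)).2
      have h4 := (ih (N - (j + 1)) (by omega)).2
      have h5 : 0 ≤ ∫ ω, psi lam h (j + 1) ω ∂(chargeLaw ν) :=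
        integral_nonneg fun ω => (psi_pos lam h _ ω).le
      have h6 : 0 ≤ ∫ ω, ZZ K lam h (N - (j + 1)) ω ∂(chargeLaw ν) :=
        integral_nonneg fun ω => ZZ_nonneg K lam h _ ω
      have h7 := kk_nonneg K (j + 1)
      calc kk K (j + 1) * (∫ ω, psi lam h (j + 1) ω ∂(chargeLaw ν)) *
            ∫ ω, ZZ K lam h (N - (j + 1)) ω ∂(chargeLaw ν) ≤ kk K (j + 1) * 1 * 1 := by
            gcongr
        _ = _ := by ring
    have h3 : Kbar K N + ∑ j ∈ Finset.range N, kk K (j + 1) ≤ 1 := by
      unfold Kbar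
      rw [Finset.sum_range_succ']
      linarith [kk_nonneg K 0]
    linarith

lemma fr_eq_zero_of_large (h : ℝ) (hM : ∀ t : ℝ, Integrable (fun x => Real.exp (t * x)) ν)
    (hh : ∫ x, Real.exp (-2 * lam * (x + h)) ∂ν ≤ 1) : fr K ν lam h hM = 0 := by
  refine le_antisymm ?_ (fr_nonneg ν lam hM h)
  refine le_of_tendsto' (ee_tendsto ν lam h hM hP) fun N => ?_
  have h1 : ee K ν lam h N ≤ 0 := by
    obtain ⟨h2, h3⟩ := integral_ZZ_le_one (K := K) ν lam h hM hh N
    calc ee K ν lam h N ≤ ∫ ω, (ZZ K lam h N ω - 1) ∂(chargeLaw ν) := by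
          refine integral_mono (integrable_log_ZZ ν lam h hM hP N)
            (h2.sub (integrable_const _)) (fun ω => ?_)
          exact Real.log_le_sub_one_of_pos (ZZ_pos lam h hP N ω)
      _ ≤ 0 := by
          rw [integral_sub h2 (integrable_const _)]
          simp
          linarith
  have : (0 : ℝ) ≤ (N : ℝ)⁻¹ := by positivity
  nlinarith

end Lip

section Loc

/-- partial sums of the charges -/
noncomputable def Sum (n : ℕ) (ω : ℕ → ℝ) : ℝ := ∑ i ∈ Finset.range n, ω i

omit [IsProbabilityMeasure ν] in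
lemma integrable_id' (hM : ∀ t : ℝ, Integrable (fun x => Real.exp (t * x)) ν) :
    Integrable (fun x : ℝ => x) ν :=
  (integrable_norm_iff (by apply Measurable.aestronglyMeasurable; fun_prop)).1
    (integrable_abs ν hM)

omit [IsProbabilityMeasure ν] in
lemma integrable_sq' (hM : ∀ t : ℝ, Integrable (fun x => Real.exp (t * x)) ν) :
    Integrable (fun x : ℝ => x ^ 2) ν := by
  refine Integrable.mono' ((integrable_exp_abs ν hM 1).const_mul 2)
    (by apply Measurable.aestronglyMeasurable; fun_prop) (ae_of_all _ fun x => ?_)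
  rw [Real.norm_eq_abs, abs_of_nonneg (sq_nonneg x), one_mul]
  have := Real.quadratic_le_exp_of_nonneg (abs_nonneg x)
  rw [sq_abs] at this
  nlinarith [abs_nonneg x]

lemma Sum_succ (n : ℕ) (ω : ℕ → ℝ) : Sum (n + 1) ω = ω 0 + Sum n (shift 1 ω) := by
  unfold Sum
  rw [Finset.sum_range_succ']
  rw [add_comm]
  congr 1
  refine Finset.sum_congr rfl fun i _ => ?_
  simp [shift, add_comm]

@[fun_prop]
lemma measurable_Sum (n : ℕ) : Measurable (Sum n) := by unfold Sum; fun_prop

lemma Sum_moments (hM : ∀ t : ℝ, Integrable (fun x => Real.exp (t * x)) ν)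
    (hmean : ∫ x, x ∂ν = 0) (hvar : ∫ x, x ^ 2 ∂ν = 1) (n : ℕ) :
    Integrable (Sum n) (chargeLaw ν) ∧ Integrable (fun ω => Sum n ω ^ 2) (chargeLaw ν) ∧
    ∫ ω, Sum n ω ∂(chargeLaw ν) = 0 ∧ ∫ ω, Sum n ω ^ 2 ∂(chargeLaw ν) = n := by
  induction n with
  | zero =>
    have : Sum 0 = fun _ => 0 := by funext ω; simp [Sum]
    simp [this]
  | succ n ih =>
    obtain ⟨i1, i2, e1, e2⟩ := ih
    have hc0 : Integrable (fun ω : ℕ → ℝ => ω 0) (chargeLaw ν) :=
      charge_coord_integrable ν (fun x => x) (integrable_id' ν hM) 0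
    have hc1 : Integrable (fun ω : ℕ → ℝ => (ω 0) ^ 2) (chargeLaw ν) :=
      charge_coord_integrable ν (fun x => x ^ 2) (integrable_sq' ν hM) 0
    have hc2 : ∫ ω : ℕ → ℝ, ω 0 ∂(chargeLaw ν) = 0 := by
      rw [charge_coord_integral ν (fun x => x)
        (by apply Measurable.aestronglyMeasurable; fun_prop) 0]
      exact hmean
    have hc3 : ∫ ω : ℕ → ℝ, (ω 0) ^ 2 ∂(chargeLaw ν) = 1 := by
      rw [charge_coord_integral ν (fun x => x ^ 2)
        (by apply Measurable.aestronglyMeasurable; fun_prop) 0]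
      exact hvar
    have hd : DepLT 1 (fun ω : ℕ → ℝ => ω 0) := fun ω ω' hω => hω 0 (by omega)
    have hcross : Integrable (fun ω : ℕ → ℝ => ω 0 * Sum n (shift 1 ω)) (chargeLaw ν) :=
      integrable_mul_shift' ν 1 (fun ω : ℕ → ℝ => ω 0) _ hd (by fun_prop) (by fun_prop) hc0 i1
    have hcross2 : ∫ ω : ℕ → ℝ, ω 0 * Sum n (shift 1 ω) ∂(chargeLaw ν) = 0 := by
      rw [integral_mul_shift' ν 1 (fun ω : ℕ → ℝ => ω 0) _ hd (by fun_prop) (by fun_prop), hc2,
        zero_mul]
    have is1 : Integrable (fun ω => Sum n (shift 1 ω)) (chargeLaw ν) :=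
      integrable_shift' ν 1 _ i1
    have is2 : Integrable (fun ω => Sum n (shift 1 ω) ^ 2) (chargeLaw ν) :=
      integrable_shift' ν 1 (fun ω => Sum n ω ^ 2) i2
    have ie1 : ∫ ω, Sum n (shift 1 ω) ∂(chargeLaw ν) = 0 := by
      rw [integral_shift' ν 1 _ (by fun_prop), e1]
    have ie2 : ∫ ω, Sum n (shift 1 ω) ^ 2 ∂(chargeLaw ν) = n := by
      rw [integral_shift' ν 1 (fun ω => Sum n ω ^ 2) (by fun_prop), e2]
    have es : ∀ ω, Sum (n + 1) ω ^ 2 =
        ((ω 0) ^ 2 + 2 * (ω 0 * Sum n (shift 1 ω))) + Sum n (shift 1 ω) ^ 2 := by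
      intro ω; rw [Sum_succ]; ring
    have is3 : Integrable (fun ω : ℕ → ℝ => (ω 0) ^ 2 + 2 * (ω 0 * Sum n (shift 1 ω)))
        (chargeLaw ν) := hc1.add (hcross.const_mul 2)
    refine ⟨?_, ?_, ?_, ?_⟩
    · have : Sum (n + 1) = fun ω => ω 0 + Sum n (shift 1 ω) := by funext ω; exact Sum_succ n ω
      rw [this]; exact hc0.add is1
    · simp_rw [es]; exact is3.add is2
    · simp_rw [Sum_succ]
      rw [integral_add hc0 is1, hc2, ie1, add_zero]
    · simp_rw [es]
      rw [integral_add is3 is2, integral_add hc1 (hcross.const_mul 2), integral_const_mul, hcross2,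
        hc3, ie2]
      push_cast; ring

lemma integrable_exp_Sum (hM : ∀ t : ℝ, Integrable (fun x => Real.exp (t * x)) ν) (t : ℝ)
    (n : ℕ) : Integrable (fun ω => Real.exp (t * Sum n ω)) (chargeLaw ν) ∧
    ∫ ω, Real.exp (t * Sum n ω) ∂(chargeLaw ν) = (∫ x, Real.exp (t * x) ∂ν) ^ n := by
  induction n with
  | zero => simp [Sum]
  | succ n ih =>
    obtain ⟨i1, e1⟩ := ih
    have es : ∀ ω, Real.exp (t * Sum (n + 1) ω) =
        Real.exp (t * ω 0) * Real.exp (t * Sum n (shift 1 ω)) := by
      intro ω; rw [Sum_succ, mul_add, Real.exp_add]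
    have hd : DepLT 1 (fun ω : ℕ → ℝ => Real.exp (t * ω 0)) := by
      intro ω ω' hω
      simp only
      rw [hω 0 (by omega)]
    simp_rw [es]
    have hc : Integrable (fun ω : ℕ → ℝ => Real.exp (t * ω 0)) (chargeLaw ν) :=
      charge_coord_integrable ν (fun x => Real.exp (t * x)) (hM t) 0
    refine ⟨integrable_mul_shift' ν 1 (fun ω : ℕ → ℝ => Real.exp (t * ω 0))
      (fun ω => Real.exp (t * Sum n ω)) hd (by fun_prop) (by fun_prop) hc i1, ?_⟩
    rw [integral_mul_shift' ν 1 (fun ω : ℕ → ℝ => Real.exp (t * ω 0))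
      (fun ω => Real.exp (t * Sum n ω)) hd (by fun_prop) (by fun_prop), e1,
      charge_coord_integral ν (fun x => Real.exp (t * x)) (hM t).aestronglyMeasurable 0]
    ring

/-- quadratic bound for the moment generating function near the origin -/
lemma mgf_le (hM : ∀ t : ℝ, Integrable (fun x => Real.exp (t * x)) ν)
    (hmean : ∫ x, x ∂ν = 0) (t : ℝ) (ht : |t| ≤ 1) :
    ∫ x, Real.exp (t * x) ∂ν ≤ Real.exp (t ^ 2 * (2 * ∫ x, Real.exp (2 * |x|) ∂ν)) := by
  have hpt : ∀ x : ℝ, Real.exp (t * x) ≤ (1 + t * x) + t ^ 2 * (2 * Real.exp (2 * |x|)) := by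
    intro x
    have e1 := exp_le_quad (t * x)
    have e2 : |t * x| ≤ |x| := by
      rw [abs_mul]; exact mul_le_of_le_one_left (abs_nonneg x) ht
    have e3 : x ^ 2 ≤ 2 * Real.exp |x| := by
      have := Real.quadratic_le_exp_of_nonneg (abs_nonneg x)
      rw [sq_abs] at this
      nlinarith [abs_nonneg x]
    have e4 : (t * x) ^ 2 * Real.exp |t * x| ≤ t ^ 2 * (2 * Real.exp (2 * |x|)) := by
      calc (t * x) ^ 2 * Real.exp |t * x| = t ^ 2 * (x ^ 2 * Real.exp |t * x|) := by ring
        _ ≤ t ^ 2 * ((2 * Real.exp |x|) * Real.exp |x|) := by gcongr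
        _ = t ^ 2 * (2 * Real.exp (2 * |x|)) := by
            rw [two_mul |x|, Real.exp_add]; ring
    linarith
  have hi := integrable_id' ν hM
  have hi1 : Integrable (fun x : ℝ => 1 + t * x) ν := (integrable_const _).add (hi.const_mul t)
  have hi2 : Integrable (fun x : ℝ => t ^ 2 * (2 * Real.exp (2 * |x|))) ν :=
    ((integrable_exp_abs ν hM 2).const_mul 2).const_mul _
  calc ∫ x, Real.exp (t * x) ∂ν ≤ ∫ x, ((1 + t * x) + t ^ 2 * (2 * Real.exp (2 * |x|))) ∂ν :=
        integral_mono (hM t) (hi1.add hi2) hpt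
    _ = 1 + t ^ 2 * (2 * ∫ x, Real.exp (2 * |x|) ∂ν) := by
        rw [integral_add hi1 hi2, integral_add (integrable_const _) (hi.const_mul t),
          integral_const_mul, hmean, integral_const_mul, integral_const_mul]
        simp
    _ ≤ _ := by linarith [Real.add_one_le_exp (t ^ 2 * (2 * ∫ x, Real.exp (2 * |x|) ∂ν))]

/-- lower bound for the first absolute moment of the partial sums -/
lemma abs_Sum_lower (hM : ∀ t : ℝ, Integrable (fun x => Real.exp (t * x)) ν)
    (hmean : ∫ x, x ∂ν = 0) (hvar : ∫ x, x ^ 2 ∂ν = 1) :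
    ∃ b : ℝ, 0 < b ∧ ∀ n : ℕ, 1 ≤ n → b * Real.sqrt n ≤ ∫ ω, |Sum n ω| ∂(chargeLaw ν) := by
  set C1 := 2 * ∫ x, Real.exp (2 * |x|) ∂ν with hC1
  have hC10 : 0 ≤ C1 := by
    have : 0 ≤ ∫ x, Real.exp (2 * |x|) ∂ν := integral_nonneg fun x => (Real.exp_pos _).le
    positivity
  set C := 2 * Real.exp C1 with hC
  have hCpos : 0 < C := by positivity
  refine ⟨1 / (24 * C), by positivity, fun n hn => ?_⟩
  obtain ⟨i1, i2, e1, e2⟩ := Sum_moments ν hM hmean hvar n
  have hn' : (0 : ℝ) < n := by exact_mod_cast hn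
  have hn1 : (1 : ℝ) ≤ n := by exact_mod_cast hn
  set σ := Real.sqrt n with hσ
  have hσ1 : 1 ≤ σ := by rw [hσ]; exact Real.one_le_sqrt.2 hn1
  have hσ0 : 0 < σ := by linarith
  have hσ2 : σ ^ 2 = n := Real.sq_sqrt hn'.le
  have hexp : ∀ t : ℝ, |t| = 1 / σ →
      ∫ ω, Real.exp (t * Sum n ω) ∂(chargeLaw ν) ≤ Real.exp C1 := by
    intro t ht
    rw [(integrable_exp_Sum ν hM t n).2]
    have h1 := mgf_le ν hM hmean t (by rw [ht, div_le_one hσ0]; exact hσ1)
    have h2 : 0 ≤ ∫ x, Real.exp (t * x) ∂ν := integral_nonneg fun x => (Real.exp_pos _).le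
    calc (∫ x, Real.exp (t * x) ∂ν) ^ n ≤ (Real.exp (t ^ 2 * C1)) ^ n := by gcongr
      _ = Real.exp C1 := by
          rw [← Real.exp_nat_mul]
          congr 1
          have : t ^ 2 = 1 / n := by
            rw [← sq_abs, ht, div_pow, hσ2]; ring
          rw [this]; field_simp
  have hpt : ∀ u : ℝ, 0 ≤ u → u ^ 2 ≤ 12 * C * u + (1 / (2 * C)) * Real.exp u := by
    intro u hu
    rcases le_or_gt u (12 * C) with h1 | h1
    · have := Real.exp_pos u
      have : 0 ≤ (1 / (2 * C)) * Real.exp u := by positivity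
      nlinarith
    · have h2 : u ^ 3 / 6 ≤ Real.exp u := by
        have := Real.pow_div_factorial_le_exp u hu 3
        norm_num [Nat.factorial] at this
        linarith
      have h3 : u ^ 2 ≤ (1 / (2 * C)) * Real.exp u := by
        have h4 : 12 * C * u ^ 2 ≤ u ^ 3 := by nlinarith [sq_nonneg u]
        rw [one_div, inv_mul_eq_div, le_div_iff₀ (by positivity)]
        nlinarith
      have : 0 ≤ 12 * C * u := by positivity
      linarith
  have hptω : ∀ ω, Sum n ω ^ 2 ≤ 12 * C * σ * |Sum n ω| + (n / (2 * C)) *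
      (Real.exp (1 / σ * Sum n ω) + Real.exp (-(1 / σ) * Sum n ω)) := by
    intro ω
    have h1 := hpt (|Sum n ω| / σ) (by positivity)
    have h2 : Real.exp (|Sum n ω| / σ) ≤
        Real.exp (1 / σ * Sum n ω) + Real.exp (-(1 / σ) * Sum n ω) := by
      rcases abs_cases (Sum n ω) with ⟨h3, _⟩ | ⟨h3, _⟩
      · rw [h3]
        have : Sum n ω / σ = 1 / σ * Sum n ω := by ring
        rw [this]; linarith [Real.exp_pos (-(1 / σ) * Sum n ω)]
      · rw [h3]
        have : -Sum n ω / σ = -(1 / σ) * Sum n ω := by ring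
        rw [this]; linarith [Real.exp_pos (1 / σ * Sum n ω)]
    have h3 : (|Sum n ω| / σ) ^ 2 = Sum n ω ^ 2 / n := by
      rw [div_pow, sq_abs, hσ2]
    rw [h3] at h1
    have h4 : Sum n ω ^ 2 / n ≤ 12 * C * (|Sum n ω| / σ) + (1 / (2 * C)) *
        (Real.exp (1 / σ * Sum n ω) + Real.exp (-(1 / σ) * Sum n ω)) := by
      refine h1.trans ?_
      gcongr
    rw [div_le_iff₀ hn'] at h4
    refine h4.trans (le_of_eq ?_)
    have h5 : (|Sum n ω| / σ) * n = σ * |Sum n ω| := by
      rw [← hσ2]; field_simp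
    calc (12 * C * (|Sum n ω| / σ) + (1 / (2 * C)) *
        (Real.exp (1 / σ * Sum n ω) + Real.exp (-(1 / σ) * Sum n ω))) * n
        = 12 * C * ((|Sum n ω| / σ) * n) + (n / (2 * C)) *
        (Real.exp (1 / σ * Sum n ω) + Real.exp (-(1 / σ) * Sum n ω)) := by ring
      _ = _ := by rw [h5]; ring
  have j1 : Integrable (fun ω => 12 * C * σ * |Sum n ω|) (chargeLaw ν) := i1.abs.const_mul _
  have j2 : Integrable (fun ω => Real.exp (1 / σ * Sum n ω)) (chargeLaw ν) :=
    (integrable_exp_Sum ν hM (1 / σ) n).1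
  have j3 : Integrable (fun ω => Real.exp (-(1 / σ) * Sum n ω)) (chargeLaw ν) :=
    (integrable_exp_Sum ν hM (-(1 / σ)) n).1
  have j4 : Integrable (fun ω => (n / (2 * C)) *
      (Real.exp (1 / σ * Sum n ω) + Real.exp (-(1 / σ) * Sum n ω))) (chargeLaw ν) :=
    (j2.add j3).const_mul _
  have hint := integral_mono i2 (j1.add j4) hptω
  simp only [Pi.add_apply] at hint
  rw [e2, integral_add j1 j4, integral_const_mul, integral_const_mul, integral_add j2 j3] at hint
  have k1 := hexp (1 / σ) (abs_of_pos (by positivity))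
  have k2 := hexp (-(1 / σ)) (by rw [abs_neg]; exact abs_of_pos (by positivity))
  have k3 : (n / (2 * C)) * (∫ ω, Real.exp (1 / σ * Sum n ω) ∂(chargeLaw ν) +
      ∫ ω, Real.exp (-(1 / σ) * Sum n ω) ∂(chargeLaw ν)) ≤ n / 2 := by
    calc _ ≤ (n / (2 * C)) * (Real.exp C1 + Real.exp C1) := by gcongr
      _ = n / 2 := by rw [hC]; field_simp; norm_num
  have k4 : (n : ℝ) / 2 ≤ 12 * C * σ * ∫ ω, |Sum n ω| ∂(chargeLaw ν) := by linarith
  rw [← hσ2] at k4
  have k5 : 1 / (24 * C) * σ = (σ ^ 2 / 2) / (12 * C * σ) := by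
    field_simp
    ring
  rw [k5, div_le_iff₀ (by positivity)]
  linarith

variable {K : PMF ℕ} {c : ℝ} {p n0 : ℕ} (hP : PolyLower K c p n0)
include hP

/-- lower bound on the free energy by the strategy that returns at all multiples of `l` -/
lemma fr_lower (h : ℝ) (hM : ∀ t : ℝ, Integrable (fun x => Real.exp (t * x)) ν)
    (l : ℕ) (hl : 1 ≤ l) (hkl : 0 < kk K l) :
    Real.log (kk K l) + ∫ ω, Real.log (psi lam h l ω) ∂(chargeLaw ν) ≤ l * fr K ν lam h hM := by
  have hl' : (0 : ℝ) < l := by exact_mod_cast hl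
  have hi : Integrable (fun ω => Real.log (psi lam h l ω)) (chargeLaw ν) := by
    refine Integrable.mono' ((integrable_SS ν lam h hM l).add (integrable_const (Real.log 2)))
      (by apply Measurable.aestronglyMeasurable; fun_prop) (ae_of_all _ fun ω => ?_)
    rw [Real.norm_eq_abs, abs_le]
    simp only [Pi.add_apply]
    have h1 := SS_nonneg lam h l ω
    have h2 := psi_pos lam h l ω
    have h3 : 0 < Real.log 2 := Real.log_pos (by norm_num)
    constructor
    · have h4 : Real.log (1 / 2) ≤ Real.log (psi lam h l ω) :=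
        Real.log_le_log (by norm_num) (half_le_psi lam h l ω)
      rw [one_div, Real.log_inv] at h4
      linarith
    · have h4 := Real.log_le_log h2 (psi_le_exp_SS lam h l ω)
      rw [Real.log_exp] at h4
      linarith
  have hkey : ∀ m : ℕ, m * (Real.log (kk K l) + ∫ ω, Real.log (psi lam h l ω) ∂(chargeLaw ν)) ≤
      ee K ν lam h (m * l) - ee K ν lam h 0 := by
    intro m
    induction m with
    | zero => simp
    | succ m ih =>
      have h1 : ∀ ω, (Real.log (kk K l) + Real.log (psi lam h l ω)) +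
          Real.log (ZZ K lam h (m * l) (shift l ω)) ≤ Real.log (ZZ K lam h ((m + 1) * l) ω) := by
        intro ω
        have h2 := jump_le_ZZ K lam h ((m + 1) * l) l hl (by nlinarith) ω
        have e : (m + 1) * l - l = m * l := by
          rw [add_mul, one_mul, Nat.add_sub_cancel]
        rw [e] at h2
        have h3 := ZZ_pos lam h hP (m * l) (shift l ω)
        have h4 := psi_pos lam h l ω
        have h5 := Real.log_le_log (by positivity) h2
        rwa [Real.log_mul (by positivity) h3.ne', Real.log_mul hkl.ne' h4.ne'] at h5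
      have i1 := integrable_shift' ν l _ (integrable_log_ZZ ν lam h hM hP (m * l))
      have i2 : Integrable (fun ω => Real.log (kk K l) + Real.log (psi lam h l ω))
          (chargeLaw ν) := (integrable_const _).add hi
      have h2 : ∫ ω, ((Real.log (kk K l) + Real.log (psi lam h l ω)) +
          Real.log (ZZ K lam h (m * l) (shift l ω))) ∂(chargeLaw ν) ≤
          ee K ν lam h ((m + 1) * l) :=
        integral_mono (i2.add i1) (integrable_log_ZZ ν lam h hM hP _) h1
      rw [integral_add i2 i1, integral_add (integrable_const _) hi,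
        integral_shift' ν l (fun ω => Real.log (ZZ K lam h (m * l) ω)) (by fun_prop)] at h2
      have e2 : ∫ ω, Real.log (ZZ K lam h (m * l) ω) ∂(chargeLaw ν) = ee K ν lam h (m * l) := rfl
      rw [e2] at h2
      have e3 : (chargeLaw ν).real univ = 1 := by simp
      simp only [integral_const, e3, smul_eq_mul, one_mul] at h2
      push_cast
      linarith
  have ht := ee_tendsto ν lam h hM hP
  have hsub : Tendsto (fun m : ℕ => m * l) atTop atTop :=
    tendsto_id.atTop_mul_const' (by omega)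
  have ht2 := ht.comp hsub
  have ht3 : Tendsto (fun m : ℕ => ((m * l : ℕ) : ℝ)⁻¹ * ee K ν lam h 0) atTop (𝓝 0) := by
    have h1 : Tendsto (fun m : ℕ => ((m * l : ℕ) : ℝ)) atTop atTop :=
      tendsto_natCast_atTop_atTop.comp hsub
    have := (tendsto_inv_atTop_zero.comp h1).mul_const (ee K ν lam h 0)
    simpa using this
  have ht4 := ht2.sub ht3
  rw [sub_zero] at ht4
  set G := Real.log (kk K l) + ∫ ω, Real.log (psi lam h l ω) ∂(chargeLaw ν) with hG
  have : G / l ≤ fr K ν lam h hM := by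
    refine ge_of_tendsto ht4 ?_
    filter_upwards [eventually_gt_atTop 0] with m hm
    have hm' : (0 : ℝ) < m := by exact_mod_cast hm
    simp only [Function.comp]
    rw [← mul_sub, inv_mul_eq_div, le_div_iff₀ (by positivity)]
    have := hkey m
    push_cast
    calc G / l * (m * l) = m * G := by field_simp
      _ ≤ _ := this
  rw [div_le_iff₀ hl'] at this
  linarith

/-- localisation at `h = 0` -/
lemma fr_zero_pos (hM : ∀ t : ℝ, Integrable (fun x => Real.exp (t * x)) ν)
    (hmean : ∫ x, x ∂ν = 0) (hvar : ∫ x, x ^ 2 ∂ν = 1) (hlam : 0 < lam) :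
    0 < fr K ν lam 0 hM := by
  obtain ⟨b, hb, hlow⟩ := abs_Sum_lower ν hM hmean hvar
  have hc := hP.cpos
  -- choose a large block length
  have hlim : Tendsto (fun n : ℕ => ((Real.log 2 - Real.log c) + p * Real.log ((n : ℝ) + (1 : ℕ))) /
      Real.sqrt ((n : ℝ))) atTop (𝓝 0) := by
    have h1 : Tendsto (fun x : ℝ => Real.log x / Real.sqrt x) atTop (𝓝 0) := by
      have := (isLittleO_log_rpow_atTop (r := 1 / 2) (by norm_num)).tendsto_div_nhds_zero
      refine this.congr fun x => ?_
      rw [Real.sqrt_eq_rpow]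
    have h2 : Tendsto (fun n : ℕ => ((n : ℝ) + (1 : ℕ))) atTop atTop :=
      tendsto_atTop_add_const_right _ _ tendsto_natCast_atTop_atTop
    have h3 := h1.comp h2
    have h4 : Tendsto (fun n : ℕ => Real.sqrt (n : ℝ)) atTop atTop :=
      Real.tendsto_sqrt_atTop.comp tendsto_natCast_atTop_atTop
    have h5 : Tendsto (fun n : ℕ => (Real.log 2 - Real.log c) / Real.sqrt (n : ℝ)) atTop (𝓝 0) :=
      tendsto_const_nhds.div_atTop h4
    -- log (n+1) / sqrt n ≤ 2 * log (n+1) / sqrt (n+1)
    have h6 : Tendsto (fun n : ℕ => Real.log ((n : ℝ) + (1 : ℕ)) / Real.sqrt (n : ℝ)) atTop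
        (𝓝 0) := by
      have h7 := h3.const_mul 2
      rw [mul_zero] at h7
      refine tendsto_of_tendsto_of_tendsto_of_le_of_le' tendsto_const_nhds h7 ?_ ?_
      · filter_upwards [eventually_gt_atTop 0] with n hn
        have : 0 ≤ Real.log ((n : ℝ) + (1 : ℕ)) := Real.log_nonneg (by
          push_cast; linarith [(Nat.cast_nonneg n : (0 : ℝ) ≤ n)])
        positivity
      · filter_upwards [eventually_gt_atTop 0] with n hn
        have hn1 : (1 : ℝ) ≤ n := by exact_mod_cast hn
        have hlog : 0 ≤ Real.log ((n : ℝ) + (1 : ℕ)) := Real.log_nonneg (by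
          push_cast; linarith)
        simp only [Function.comp]
        have hs1 : 0 < Real.sqrt (n : ℝ) := Real.sqrt_pos.2 (by linarith)
        have hs2 : 0 < Real.sqrt ((n : ℝ) + (1 : ℕ)) := Real.sqrt_pos.2 (by
          push_cast; linarith)
        have hs3 : Real.sqrt ((n : ℝ) + (1 : ℕ)) ≤ 2 * Real.sqrt n := by
          rw [Real.sqrt_le_left (by positivity), mul_pow, Real.sq_sqrt (by linarith)]
          push_cast; linarith
        rw [div_le_iff₀ hs1, mul_assoc, div_mul_eq_mul_div, ← mul_div_assoc,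
          le_div_iff₀ hs2]
        nlinarith
    have h8 := h5.add (h6.const_mul (p : ℝ))
    simp only [mul_zero, add_zero] at h8
    refine h8.congr fun n => ?_
    ring
  have hev := (tendsto_order.1 hlim).2 (lam * b) (by positivity)
  obtain ⟨n, ⟨hn1, hn2⟩, hn3⟩ := ((hev.and (eventually_ge_atTop n0)).and
    (eventually_ge_atTop 1)).exists
  have hn' : (1 : ℝ) ≤ n := by exact_mod_cast hn3
  have hsn : 0 < Real.sqrt (n : ℝ) := Real.sqrt_pos.2 (by linarith)
  have hkn := hP.kk_ge n hn2
  have hknpos : 0 < kk K n := lt_of_lt_of_le (by positivity) hkn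
  have h1 := fr_lower ν lam hP 0 hM n hn3 hknpos
  obtain ⟨i1, i2, e1, e2⟩ := Sum_moments ν hM hmean hvar n
  have hxs : ∀ ω, xs lam 0 n ω = -2 * lam * Sum n ω := by
    intro ω; unfold xs Sum; simp
  -- lower bound on the mean of log psi
  have h2 : lam * ∫ ω, |Sum n ω| ∂(chargeLaw ν) - Real.log 2 ≤
      ∫ ω, Real.log (psi lam 0 n ω) ∂(chargeLaw ν) := by
    have hpt : ∀ ω, (lam * |Sum n ω| + -lam * Sum n ω) - Real.log 2 ≤
        Real.log (psi lam 0 n ω) := by
      intro ω
      unfold psi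
      rw [hxs, Real.log_div (by positivity) (by norm_num)]
      have h3 : lam * |Sum n ω| + -lam * Sum n ω ≤
          Real.log (1 + Real.exp (-2 * lam * Sum n ω)) := by
        rcases abs_cases (Sum n ω) with ⟨h3, h4⟩ | ⟨h3, h4⟩
        · rw [h3]
          have : 0 ≤ Real.log (1 + Real.exp (-2 * lam * Sum n ω)) :=
            Real.log_nonneg (by linarith [Real.exp_pos (-2 * lam * Sum n ω)])
          linarith
        · rw [h3]
          have h5 : Real.log (Real.exp (-2 * lam * Sum n ω)) ≤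
              Real.log (1 + Real.exp (-2 * lam * Sum n ω)) :=
            Real.log_le_log (Real.exp_pos _) (by linarith)
          rw [Real.log_exp] at h5
          linarith
      linarith
    have i3 : Integrable (fun ω => lam * |Sum n ω| + -lam * Sum n ω) (chargeLaw ν) :=
      (i1.abs.const_mul lam).add (i1.const_mul (-lam))
    have hi : Integrable (fun ω => Real.log (psi lam 0 n ω)) (chargeLaw ν) := by
      refine Integrable.mono' ((integrable_SS ν lam 0 hM n).add (integrable_const (Real.log 2)))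
        (by apply Measurable.aestronglyMeasurable; fun_prop) (ae_of_all _ fun ω => ?_)
      rw [Real.norm_eq_abs, abs_le]
      simp only [Pi.add_apply]
      have h1 := SS_nonneg lam 0 n ω
      have h2 := psi_pos lam 0 n ω
      have h3 : 0 < Real.log 2 := Real.log_pos (by norm_num)
      constructor
      · have h4 : Real.log (1 / 2) ≤ Real.log (psi lam 0 n ω) :=
          Real.log_le_log (by norm_num) (half_le_psi lam 0 n ω)
        rw [one_div, Real.log_inv] at h4
        linarith
      · have h4 := Real.log_le_log h2 (psi_le_exp_SS lam 0 n ω)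
        rw [Real.log_exp] at h4
        linarith
    have h3 := integral_mono (i3.sub (integrable_const (Real.log 2))) hi hpt
    simp only [Pi.sub_apply] at h3
    rw [integral_sub i3 (integrable_const _), integral_add (i1.abs.const_mul lam)
      (i1.const_mul (-lam)), integral_const_mul, integral_const_mul, e1] at h3
    simpa using h3
  have h3 := hlow n hn3
  have h4 : Real.log c - p * Real.log ((n : ℝ) + (1 : ℕ)) ≤ Real.log (kk K n) := by
    have := Real.log_le_log (by positivity) hkn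
    rw [Real.log_div hc.ne' (by positivity), Real.log_pow] at this
    push_cast
    exact this
  rw [div_lt_iff₀ hsn] at hn1
  have h5 : 0 < n * fr K ν lam 0 hM := by
    have h6 : lam * (b * Real.sqrt n) ≤ lam * ∫ ω, |Sum n ω| ∂(chargeLaw ν) := by gcongr
    nlinarith
  exact pos_of_mul_pos_right h5 (by linarith)

end Loc

end Pool.Agent.Helper97.Copolymer
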