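import Mathlib

/-!
Definitions for the copolymer model at a selective interface.

* A charge sequence is `ω : ℕ → ℝ`; the value `ω n` is the charge of monomer `n + 1`.
* A polymer path is coded by `s : ℕ → ℕ × Bool`; `(s j).1` is the length of the excursion number
  `j + 1` and `(s j).2` is its sign (`true` means that the excursion is below the interface,
  that is, `ξ = 1`).
-/

open MeasureTheory Filter Topology

namespace Pool.Agent.Helper97.Copolymer

/-- The renewal epoch `τ_j`, the sum of the first `j` gaps. -/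
def epoch (s : ℕ → ℕ × Bool) (j : ℕ) : ℕ := ∑ i ∈ Finset.range j, (s i).1

open Classical in
/-- `Δ_n`, the sign of the excursion that contains monomer `n`:
`Δ_n = ξ_{j+1}` where `τ_j < n ≤ τ_{j+1}`. -/
noncomputable def Delta (s : ℕ → ℕ × Bool) (n : ℕ) : ℝ :=
  if ∃ j, epoch s j < n ∧ n ≤ epoch s (j + 1) ∧ (s j).2 = true then 1 else 0

/-- The law of the signed renewal: the pairs (gap, sign) are independent, every gap has law `K`
and every sign is a fair coin independent of the gap. -/
noncomputable def pathLaw (K : PMF ℕ) : Measure (ℕ → ℕ × Bool) :=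
  Measure.infinitePi (fun _ : ℕ => K.toMeasure.prod (PMF.uniformOfFintype Bool).toMeasure)

/-- The law of the i.i.d. charges with one-dimensional law `ν`. -/
noncomputable def chargeLaw (ν : Measure ℝ) : Measure (ℕ → ℝ) :=
  Measure.infinitePi (fun _ : ℕ => ν)

/-- The partition function
`Z_{N,ω} = 𝐄 exp (-2 λ ∑_{n=1}^N Δ_n (ω_n + h))`. -/
noncomputable def partitionFn (K : PMF ℕ) (lam h : ℝ) (N : ℕ) (ω : ℕ → ℝ) : ℝ :=
  ∫ s, Real.exp (-2 * lam * ∑ n ∈ Finset.range N, Delta s (n + 1) * (ω n + h)) ∂(pathLaw K)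

/-- The quenched average `𝔼 log Z_{N,ω}`. -/
noncomputable def logMean (K : PMF ℕ) (ν : Measure ℝ) (lam h : ℝ) (N : ℕ) : ℝ :=
  ∫ ω, Real.log (partitionFn K lam h N ω) ∂(chargeLaw ν)

/-- The average `𝔼 [(1 + exp (-2 λ ∑_{n ≤ N} (ω_n + h))) / Z_{N,ω}]`. -/
noncomputable def invMean (K : PMF ℕ) (ν : Measure ℝ) (lam h : ℝ) (N : ℕ) : ℝ :=
  ∫ ω, (1 + Real.exp (-2 * lam * ∑ n ∈ Finset.range N, (ω n + h))) *
    (partitionFn K lam h N ω)⁻¹ ∂(chargeLaw ν)

end Pool.Agent.Helper97.Copolymer
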