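import Pool.Agent.Helper97.Copolymer.Rec

open MeasureTheory ProbabilityTheory Filter Topology Set

namespace Pool.Agent.Helper97.Copolymer

open Pool.Agent.Helper97

lemma shift_shift {X : Type*} (a b : ℕ) (ω : ℕ → X) : shift a (shift b ω) = shift (b + a) ω := by
  funext i; simp [shift, add_assoc]

lemma shift_zero {X : Type*} (ω : ℕ → X) : shift 0 ω = ω := by
  funext i; simp [shift]

variable (K : PMF ℕ) (lam h : ℝ)

lemma xs_zero (ω : ℕ → ℝ) : xs lam h 0 ω = 0 := by simp [xs]

lemma xs_add (m n : ℕ) (ω : ℕ → ℝ) :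
    xs lam h (m + n) ω = xs lam h m ω + xs lam h n (shift m ω) := by
  unfold xs
  rw [Finset.sum_range_add, mul_add]
  rfl

lemma psi_pos (n : ℕ) (ω : ℕ → ℝ) : 0 < psi lam h n ω := by
  unfold psi; positivity

lemma half_le_psi (n : ℕ) (ω : ℕ → ℝ) : 1 / 2 ≤ psi lam h n ω := by
  unfold psi; linarith [Real.exp_pos (xs lam h n ω)]

lemma psi_zero (ω : ℕ → ℝ) : psi lam h 0 ω = 1 := by
  unfold psi; rw [xs_zero]; simp

lemma psi_add_le (m n : ℕ) (ω : ℕ → ℝ) :
    psi lam h (m + n) ω ≤ 2 * psi lam h m ω * psi lam h n (shift m ω) := by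
  unfold psi
  rw [xs_add, Real.exp_add]
  have h1 := Real.exp_pos (xs lam h m ω)
  have h2 := Real.exp_pos (xs lam h n (shift m ω))
  nlinarith [mul_pos h1 h2]

lemma GG_nonneg (b : ℕ → ℝ) (hb : ∀ n, 0 ≤ b n) (N : ℕ) (ω : ℕ → ℝ) :
    0 ≤ GG K lam h b N ω := by
  induction N using Nat.strong_induction_on generalizing ω with
  | _ N ih =>
    rw [GG_eq]
    refine add_nonneg (mul_nonneg (hb _) (psi_pos lam h _ _).le) (Finset.sum_nonneg fun j hj => ?_)
    rw [Finset.mem_range] at hj
    exact mul_nonneg (mul_nonneg (kk_nonneg K _) (psi_pos lam h _ _).le) (ih _ (by omega) _)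

/-- pinned-free partition function with trivial end weight -/
noncomputable def RR (N : ℕ) (ω : ℕ → ℝ) : ℝ := GG K lam h (fun _ => 1) N ω

/-- free partition function -/
noncomputable def ZZ (N : ℕ) (ω : ℕ → ℝ) : ℝ := GG K lam h (Kbar K) N ω

lemma RR_eq (N : ℕ) (ω : ℕ → ℝ) :
    RR K lam h N ω = psi lam h N ω +
      ∑ j ∈ Finset.range N, kk K (j + 1) * psi lam h (j + 1) ω *
        RR K lam h (N - (j + 1)) (shift (j + 1) ω) := by
  unfold RR; rw [GG_eq, one_mul]

lemma ZZ_eq (N : ℕ) (ω : ℕ → ℝ) :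
    ZZ K lam h N ω = Kbar K N * psi lam h N ω +
      ∑ j ∈ Finset.range N, kk K (j + 1) * psi lam h (j + 1) ω *
        ZZ K lam h (N - (j + 1)) (shift (j + 1) ω) := by
  unfold ZZ; rw [GG_eq]

lemma RR_nonneg (N : ℕ) (ω : ℕ → ℝ) : 0 ≤ RR K lam h N ω :=
  GG_nonneg K lam h _ (fun _ => zero_le_one) N ω

lemma ZZ_nonneg (N : ℕ) (ω : ℕ → ℝ) : 0 ≤ ZZ K lam h N ω :=
  GG_nonneg K lam h _ (Kbar_nonneg K) N ω

lemma RR_zero (ω : ℕ → ℝ) : RR K lam h 0 ω = 1 := by
  rw [RR_eq, psi_zero]; simp

/-- two-sided free partition function -/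
noncomputable def WW (N : ℕ) (ω : ℕ → ℝ) : ℝ :=
  psi lam h N ω + ∑ j ∈ Finset.range (N + 1), psi lam h j ω * RR K lam h (N - j) (shift j ω)

lemma WW_eq (N : ℕ) (ω : ℕ → ℝ) :
    WW K lam h N ω = psi lam h N ω + ∑ j ∈ Finset.range N,
      psi lam h (j + 1) ω * RR K lam h (N - (j + 1)) (shift (j + 1) ω) + RR K lam h N ω := by
  unfold WW
  rw [Finset.sum_range_succ', psi_zero, shift_zero, Nat.sub_zero]
  ring

lemma WW_nonneg (N : ℕ) (ω : ℕ → ℝ) : 0 ≤ WW K lam h N ω := by
  unfold WW
  exact add_nonneg (psi_pos lam h _ _).le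
    (Finset.sum_nonneg fun j _ => mul_nonneg (psi_pos lam h _ _).le (RR_nonneg K lam h _ _))

lemma RR_le_WW (N : ℕ) (ω : ℕ → ℝ) : RR K lam h N ω ≤ WW K lam h N ω := by
  rw [WW_eq]
  have h1 : 0 ≤ ∑ j ∈ Finset.range N,
      psi lam h (j + 1) ω * RR K lam h (N - (j + 1)) (shift (j + 1) ω) :=
    Finset.sum_nonneg fun j _ => mul_nonneg (psi_pos lam h _ _).le (RR_nonneg K lam h _ _)
  linarith [psi_pos lam h N ω]

lemma half_le_WW (N : ℕ) (ω : ℕ → ℝ) : 1 / 2 ≤ WW K lam h N ω := by
  unfold WW
  have h1 : 0 ≤ ∑ j ∈ Finset.range (N + 1), psi lam h j ω * RR K lam h (N - j) (shift j ω) :=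
    Finset.sum_nonneg fun j _ => mul_nonneg (psi_pos lam h _ _).le (RR_nonneg K lam h _ _)
  linarith [half_le_psi lam h N ω]

lemma WW_zero (ω : ℕ → ℝ) : WW K lam h 0 ω = 2 := by
  rw [WW_eq, psi_zero, RR_zero]; norm_num

lemma kk_le_one (n : ℕ) : kk K n ≤ 1 := by
  have := sum_kk_le_one K {n}
  simpa using this

lemma RR_submul (m n : ℕ) (ω : ℕ → ℝ) :
    RR K lam h (m + n) ω ≤ 2 * RR K lam h m ω * WW K lam h n (shift m ω) := by
  induction m using Nat.strong_induction_on generalizing ω with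
  | _ m ih =>
    rw [RR_eq K lam h (m + n) ω, Finset.sum_range_add]
    have hW := WW_nonneg K lam h n (shift m ω)
    -- first part
    have hA : ∑ j ∈ Finset.range m, kk K (j + 1) * psi lam h (j + 1) ω *
        RR K lam h (m + n - (j + 1)) (shift (j + 1) ω) ≤
        2 * WW K lam h n (shift m ω) * ∑ j ∈ Finset.range m, kk K (j + 1) * psi lam h (j + 1) ω *
        RR K lam h (m - (j + 1)) (shift (j + 1) ω) := by
      rw [Finset.mul_sum]
      refine Finset.sum_le_sum fun j hj => ?_
      rw [Finset.mem_range] at hj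
      have h1 := ih (m - (j + 1)) (by omega) (shift (j + 1) ω)
      rw [shift_shift] at h1
      have e1 : m - (j + 1) + n = m + n - (j + 1) := by omega
      have e2 : j + 1 + (m - (j + 1)) = m := by omega
      rw [e1, e2] at h1
      have h2 : 0 ≤ kk K (j + 1) * psi lam h (j + 1) ω :=
        mul_nonneg (kk_nonneg K _) (psi_pos lam h _ _).le
      calc kk K (j + 1) * psi lam h (j + 1) ω * RR K lam h (m + n - (j + 1)) (shift (j + 1) ω)
          ≤ kk K (j + 1) * psi lam h (j + 1) ω * (2 * RR K lam h (m - (j + 1)) (shift (j + 1) ω)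
            * WW K lam h n (shift m ω)) := mul_le_mul_of_nonneg_left h1 h2
        _ = _ := by ring
    have hB : ∑ i ∈ Finset.range n, kk K (m + i + 1) * psi lam h (m + i + 1) ω *
        RR K lam h (m + n - (m + i + 1)) (shift (m + i + 1) ω) ≤
        2 * psi lam h m ω * ∑ i ∈ Finset.range n, psi lam h (i + 1) (shift m ω) *
          RR K lam h (n - (i + 1)) (shift (i + 1) (shift m ω)) := by
      rw [Finset.mul_sum]
      refine Finset.sum_le_sum fun i hi => ?_
      rw [Finset.mem_range] at hi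
      have e1 : m + n - (m + i + 1) = n - (i + 1) := by omega
      rw [e1, shift_shift, add_assoc]
      have h3 := psi_add_le lam h m (i + 1) ω
      have h4 := RR_nonneg K lam h (n - (i + 1)) (shift (m + (i + 1)) ω)
      have h5 : kk K (m + (i + 1)) * psi lam h (m + (i + 1)) ω ≤
          2 * psi lam h m ω * psi lam h (i + 1) (shift m ω) := by
        refine le_trans ?_ h3
        exact mul_le_of_le_one_left (psi_pos lam h _ _).le (kk_le_one K _)
      calc _ ≤ (2 * psi lam h m ω * psi lam h (i + 1) (shift m ω)) *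
            RR K lam h (n - (i + 1)) (shift (m + (i + 1)) ω) :=
            mul_le_mul_of_nonneg_right h5 h4
        _ = _ := by ring
    have hC := psi_add_le lam h m n ω
    have hR := RR_eq K lam h m ω
    have hWe := WW_eq K lam h n (shift m ω)
    have hRn := RR_nonneg K lam h n (shift m ω)
    have hp := psi_pos lam h m ω
    set S1 := ∑ j ∈ Finset.range m, kk K (j + 1) * psi lam h (j + 1) ω *
        RR K lam h (m - (j + 1)) (shift (j + 1) ω)
    set S2 := ∑ i ∈ Finset.range n, psi lam h (i + 1) (shift m ω) *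
          RR K lam h (n - (i + 1)) (shift (i + 1) (shift m ω))
    have hfin : 2 * RR K lam h m ω * WW K lam h n (shift m ω) =
        2 * WW K lam h n (shift m ω) * S1 + 2 * psi lam h m ω * S2 +
        2 * psi lam h m ω * psi lam h n (shift m ω) +
        2 * psi lam h m ω * RR K lam h n (shift m ω) := by
      rw [hR, hWe]; ring
    rw [hfin]
    have : 0 ≤ 2 * psi lam h m ω * RR K lam h n (shift m ω) := by positivity
    linarith

lemma WW_submul (m n : ℕ) (ω : ℕ → ℝ) :
    WW K lam h (m + n) ω ≤ 2 * WW K lam h m ω * WW K lam h n (shift m ω) := by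
  have hW := WW_nonneg K lam h n (shift m ω)
  have hsplit : WW K lam h (m + n) ω = psi lam h (m + n) ω +
      (∑ j ∈ Finset.range (m + 1), psi lam h j ω * RR K lam h (m + n - j) (shift j ω) +
       ∑ i ∈ Finset.range n, psi lam h (m + 1 + i) ω *
        RR K lam h (m + n - (m + 1 + i)) (shift (m + 1 + i) ω)) := by
    unfold WW
    rw [← Finset.sum_range_add]
    have : m + n + 1 = m + 1 + n := by omega
    rw [this]
  rw [hsplit]
  have hA : ∑ j ∈ Finset.range (m + 1), psi lam h j ω * RR K lam h (m + n - j) (shift j ω) ≤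
      2 * WW K lam h n (shift m ω) * ∑ j ∈ Finset.range (m + 1), psi lam h j ω *
        RR K lam h (m - j) (shift j ω) := by
    rw [Finset.mul_sum]
    refine Finset.sum_le_sum fun j hj => ?_
    rw [Finset.mem_range] at hj
    have h1 := RR_submul K lam h (m - j) n (shift j ω)
    rw [shift_shift] at h1
    have e1 : m - j + n = m + n - j := by omega
    have e2 : j + (m - j) = m := by omega
    rw [e1, e2] at h1
    calc psi lam h j ω * RR K lam h (m + n - j) (shift j ω)
        ≤ psi lam h j ω * (2 * RR K lam h (m - j) (shift j ω) * WW K lam h n (shift m ω)) :=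
          mul_le_mul_of_nonneg_left h1 (psi_pos lam h _ _).le
      _ = _ := by ring
  have hB : ∑ i ∈ Finset.range n, psi lam h (m + 1 + i) ω *
        RR K lam h (m + n - (m + 1 + i)) (shift (m + 1 + i) ω) ≤
      2 * psi lam h m ω * ∑ i ∈ Finset.range n, psi lam h (i + 1) (shift m ω) *
          RR K lam h (n - (i + 1)) (shift (i + 1) (shift m ω)) := by
    rw [Finset.mul_sum]
    refine Finset.sum_le_sum fun i hi => ?_
    rw [Finset.mem_range] at hi
    have e1 : m + n - (m + 1 + i) = n - (i + 1) := by omega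
    have e2 : m + 1 + i = m + (i + 1) := by omega
    rw [e1, shift_shift, e2]
    have h3 := psi_add_le lam h m (i + 1) ω
    have h4 := RR_nonneg K lam h (n - (i + 1)) (shift (m + (i + 1)) ω)
    calc _ ≤ (2 * psi lam h m ω * psi lam h (i + 1) (shift m ω)) *
          RR K lam h (n - (i + 1)) (shift (m + (i + 1)) ω) :=
          mul_le_mul_of_nonneg_right h3 h4
      _ = _ := by ring
  have hC := psi_add_le lam h m n ω
  have hWe := WW_eq K lam h n (shift m ω)
  have hRn := RR_nonneg K lam h n (shift m ω)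
  have hp := psi_pos lam h m ω
  have hWm : WW K lam h m ω = psi lam h m ω + ∑ j ∈ Finset.range (m + 1), psi lam h j ω *
        RR K lam h (m - j) (shift j ω) := rfl
  set S1 := ∑ j ∈ Finset.range (m + 1), psi lam h j ω *
        RR K lam h (m - j) (shift j ω)
  set S2 := ∑ i ∈ Finset.range n, psi lam h (i + 1) (shift m ω) *
          RR K lam h (n - (i + 1)) (shift (i + 1) (shift m ω))
  have hfin : 2 * WW K lam h m ω * WW K lam h n (shift m ω) =
        2 * WW K lam h n (shift m ω) * S1 + 2 * psi lam h m ω * S2 +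
        2 * psi lam h m ω * psi lam h n (shift m ω) +
        2 * psi lam h m ω * RR K lam h n (shift m ω) := by
    rw [hWm, hWe]; ring
  rw [hfin]
  have : 0 ≤ 2 * psi lam h m ω * RR K lam h n (shift m ω) := by positivity
  linarith

lemma ZZ_le_RR (N : ℕ) (ω : ℕ → ℝ) : ZZ K lam h N ω ≤ RR K lam h N ω := by
  induction N using Nat.strong_induction_on generalizing ω with
  | _ N ih =>
    rw [ZZ_eq, RR_eq]
    refine add_le_add ?_ (Finset.sum_le_sum fun j hj => ?_)
    · exact mul_le_of_le_one_left (psi_pos lam h _ _).le (Kbar_le_one K _)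
    · rw [Finset.mem_range] at hj
      exact mul_le_mul_of_nonneg_left (ih _ (by omega) _)
        (mul_nonneg (kk_nonneg K _) (psi_pos lam h _ _).le)

lemma Kbar_mul_RR_le (N : ℕ) (ω : ℕ → ℝ) : Kbar K N * RR K lam h N ω ≤ ZZ K lam h N ω := by
  induction N using Nat.strong_induction_on generalizing ω with
  | _ N ih =>
    rw [ZZ_eq, RR_eq, mul_add, Finset.mul_sum]
    refine add_le_add le_rfl (Finset.sum_le_sum fun j hj => ?_)
    rw [Finset.mem_range] at hj
    have h1 := ih (N - (j + 1)) (by omega) (shift (j + 1) ω)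
    have h2 : Kbar K N * RR K lam h (N - (j + 1)) (shift (j + 1) ω) ≤
        ZZ K lam h (N - (j + 1)) (shift (j + 1) ω) :=
      le_trans (mul_le_mul_of_nonneg_right (Kbar_anti K (by omega)) (RR_nonneg K lam h _ _)) h1
    calc Kbar K N * (kk K (j + 1) * psi lam h (j + 1) ω *
          RR K lam h (N - (j + 1)) (shift (j + 1) ω))
        = kk K (j + 1) * psi lam h (j + 1) ω *
          (Kbar K N * RR K lam h (N - (j + 1)) (shift (j + 1) ω)) := by ring
      _ ≤ _ := mul_le_mul_of_nonneg_left h2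
        (mul_nonneg (kk_nonneg K _) (psi_pos lam h _ _).le)

lemma Kbar_psi_le_ZZ (N : ℕ) (ω : ℕ → ℝ) : Kbar K N * psi lam h N ω ≤ ZZ K lam h N ω := by
  rw [ZZ_eq]
  have : 0 ≤ ∑ j ∈ Finset.range N, kk K (j + 1) * psi lam h (j + 1) ω *
        ZZ K lam h (N - (j + 1)) (shift (j + 1) ω) :=
    Finset.sum_nonneg fun j _ => mul_nonneg (mul_nonneg (kk_nonneg K _) (psi_pos lam h _ _).le)
      (ZZ_nonneg K lam h _ _)
  linarith

lemma jump_le_ZZ (N i : ℕ) (hi : 1 ≤ i) (hiN : i ≤ N) (ω : ℕ → ℝ) :
    kk K i * psi lam h i ω * ZZ K lam h (N - i) (shift i ω) ≤ ZZ K lam h N ω := by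
  rw [ZZ_eq K lam h N ω]
  have h0 : 0 ≤ Kbar K N * psi lam h N ω := mul_nonneg (Kbar_nonneg K N) (psi_pos lam h _ _).le
  have h1 : kk K (i - 1 + 1) * psi lam h (i - 1 + 1) ω *
      ZZ K lam h (N - (i - 1 + 1)) (shift (i - 1 + 1) ω) ≤
      ∑ j ∈ Finset.range N, kk K (j + 1) * psi lam h (j + 1) ω *
        ZZ K lam h (N - (j + 1)) (shift (j + 1) ω) :=
    Finset.single_le_sum (f := fun j => kk K (j + 1) * psi lam h (j + 1) ω *
        ZZ K lam h (N - (j + 1)) (shift (j + 1) ω))
      (fun j _ => mul_nonneg (mul_nonneg (kk_nonneg K _) (psi_pos lam h _ _).le)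
      (ZZ_nonneg K lam h _ _)) (Finset.mem_range.2 (by omega))
  have e : i - 1 + 1 = i := by omega
  rw [e] at h1
  linarith

/-- Polynomial lower bounds for the gap law and its tail. -/
structure PolyLower (c : ℝ) (p n0 : ℕ) : Prop where
  cpos : 0 < c
  cle : c ≤ 1
  n0pos : 1 ≤ n0
  kk_ge : ∀ n : ℕ, n0 ≤ n → c / ((n : ℝ) + 1) ^ p ≤ kk K n
  Kbar_ge : ∀ n : ℕ, c / ((n : ℝ) + 1) ^ p ≤ Kbar K n

/-- the polynomial lower bound -/
noncomputable def gg (c : ℝ) (p n : ℕ) : ℝ := c / ((n : ℝ) + 1) ^ p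

lemma gg_pos {c : ℝ} (hc : 0 < c) (p n : ℕ) : 0 < gg c p n := by unfold gg; positivity

lemma gg_anti {c : ℝ} (hc : 0 < c) (p : ℕ) {m n : ℕ} (hmn : m ≤ n) : gg c p n ≤ gg c p m := by
  unfold gg
  have hc' := hc.le
  have : (m : ℝ) ≤ n := by exact_mod_cast hmn
  gcongr

lemma gg_le_one {c : ℝ} (hc : 0 < c) (hc1 : c ≤ 1) (p n : ℕ) : gg c p n ≤ 1 := by
  unfold gg
  rw [div_le_one (by positivity)]
  refine hc1.trans (one_le_pow₀ ?_)
  have : (0 : ℝ) ≤ n := Nat.cast_nonneg n
  linarith

variable {K} {c : ℝ} {p n0 : ℕ} (hP : PolyLower K c p n0)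

include hP

lemma glue (a N : ℕ) (ha : n0 ≤ a) (ω : ℕ → ℝ) (D : ℝ)
    (hD : ∀ j, j ≤ N → psi lam h j (shift a ω) ≤ D * psi lam h (a + j) ω) :
    gg c p (a + N) ^ 2 * WW K lam h N (shift a ω) ≤ (N + 2) * D * ZZ K lam h (a + N) ω := by
  have hg := gg_pos hP.cpos p (a + N)
  have hg1 := gg_le_one hP.cpos hP.cle p (a + N)
  have hD0 : 0 ≤ D := by
    have h1 := hD 0 (Nat.zero_le _)
    have h2 := psi_pos lam h 0 (shift a ω)
    have h3 := psi_pos lam h (a + 0) ω
    by_contra hneg
    push Not at hneg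
    nlinarith
  have hterm : ∀ j ∈ Finset.range (N + 1), gg c p (a + N) ^ 2 *
      (psi lam h j (shift a ω) * RR K lam h (N - j) (shift j (shift a ω))) ≤
      D * ZZ K lam h (a + N) ω := by
    intro j hj
    rw [Finset.mem_range] at hj
    rw [shift_shift]
    have h1 := jump_le_ZZ K lam h (a + N) (a + j) (by have := hP.n0pos; omega) (by omega) ω
    have e1 : a + N - (a + j) = N - j := by omega
    rw [e1] at h1
    have h2 := Kbar_mul_RR_le K lam h (N - j) (shift (a + j) ω)
    have h3 : gg c p (a + N) ≤ Kbar K (N - j) :=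
      (gg_anti (m := N - j) hP.cpos p (by omega)).trans (hP.Kbar_ge (N - j))
    have h4 : gg c p (a + N) ≤ kk K (a + j) :=
      (gg_anti (m := a + j) hP.cpos p (by omega)).trans (hP.kk_ge (a + j) (by omega))
    have h5 := RR_nonneg K lam h (N - j) (shift (a + j) ω)
    have h6 : gg c p (a + N) * RR K lam h (N - j) (shift (a + j) ω) ≤
        ZZ K lam h (N - j) (shift (a + j) ω) :=
      (mul_le_mul_of_nonneg_right h3 h5).trans h2
    have h7 := hD j (by omega)
    have h8 := psi_pos lam h (a + j) ω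
    have h9 := psi_pos lam h j (shift a ω)
    calc gg c p (a + N) ^ 2 *
        (psi lam h j (shift a ω) * RR K lam h (N - j) (shift (a + j) ω))
        = gg c p (a + N) * psi lam h j (shift a ω) *
          (gg c p (a + N) * RR K lam h (N - j) (shift (a + j) ω)) := by ring
      _ ≤ gg c p (a + N) * (D * psi lam h (a + j) ω) *
          (ZZ K lam h (N - j) (shift (a + j) ω)) := by
          have := mul_nonneg hg.le h5
          gcongr
      _ = D * (gg c p (a + N) * psi lam h (a + j) ω *
          ZZ K lam h (N - j) (shift (a + j) ω)) := by ring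
      _ ≤ D * (kk K (a + j) * psi lam h (a + j) ω *
          ZZ K lam h (N - j) (shift (a + j) ω)) := by
          have := ZZ_nonneg K lam h (N - j) (shift (a + j) ω)
          gcongr
      _ ≤ D * ZZ K lam h (a + N) ω := mul_le_mul_of_nonneg_left h1 hD0
  have hfirst : gg c p (a + N) ^ 2 * psi lam h N (shift a ω) ≤ D * ZZ K lam h (a + N) ω := by
    have h1 := Kbar_psi_le_ZZ K lam h (a + N) ω
    have h2 := hD N le_rfl
    have h3 : gg c p (a + N) ≤ Kbar K (a + N) := hP.Kbar_ge (a + N)
    have h8 := psi_pos lam h (a + N) ω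
    have h9 := psi_pos lam h N (shift a ω)
    calc gg c p (a + N) ^ 2 * psi lam h N (shift a ω)
        ≤ gg c p (a + N) * psi lam h N (shift a ω) := by
          refine mul_le_mul_of_nonneg_right ?_ h9.le
          nlinarith
      _ ≤ Kbar K (a + N) * (D * psi lam h (a + N) ω) := by
          have := Kbar_nonneg K (a + N)
          gcongr
      _ = D * (Kbar K (a + N) * psi lam h (a + N) ω) := by ring
      _ ≤ _ := mul_le_mul_of_nonneg_left h1 hD0
  unfold WW
  rw [mul_add, Finset.mul_sum]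
  have hs := Finset.sum_le_sum hterm
  rw [Finset.sum_const, Finset.card_range, nsmul_eq_mul] at hs
  push_cast at hs ⊢
  calc _ ≤ D * ZZ K lam h (a + N) ω + (N + 1) * (D * ZZ K lam h (a + N) ω) :=
        add_le_add hfirst hs
    _ = _ := by ring

omit hP in
lemma psi_ge_exp_mul (N m : ℕ) (ω : ℕ → ℝ) :
    Real.exp (-|xs lam h m (shift N ω)|) * psi lam h N ω ≤ psi lam h (N + m) ω := by
  unfold psi
  rw [xs_add, Real.exp_add]
  set x := xs lam h N ω
  set y := xs lam h m (shift N ω)
  have h1 : Real.exp (-|y|) ≤ 1 := by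
    rw [Real.exp_le_one_iff]; linarith [abs_nonneg y]
  have h2 : Real.exp (-|y|) ≤ Real.exp y := Real.exp_le_exp.2 (neg_abs_le y)
  have h3 := Real.exp_pos x
  nlinarith

lemma ZZ_supermul (N M : ℕ) (ω : ℕ → ℝ) :
    gg c p (N + n0) * Real.exp (-|xs lam h n0 (shift N ω)|) * ZZ K lam h N ω *
      ZZ K lam h M (shift (N + n0) ω) ≤ ZZ K lam h (N + n0 + M) ω := by
  induction N using Nat.strong_induction_on generalizing ω with
  | _ N ih =>
    have hn0 := hP.n0pos
    set e := Real.exp (-|xs lam h n0 (shift N ω)|) with he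
    have hepos : 0 < e := Real.exp_pos _
    have hg := gg_pos hP.cpos p (N + n0)
    have hZM := ZZ_nonneg K lam h M (shift (N + n0) ω)
    rw [ZZ_eq K lam h (N + n0 + M) ω]
    have hsub : insert (N + n0 - 1) (Finset.range N) ⊆ Finset.range (N + n0 + M) := by
      intro j hj
      rw [Finset.mem_insert, Finset.mem_range] at hj
      rw [Finset.mem_range]
      omega
    have hnot : N + n0 - 1 ∉ Finset.range N := by rw [Finset.mem_range]; omega
    have h1 := Finset.sum_le_sum_of_subset_of_nonneg (f := fun j => kk K (j + 1) *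
      psi lam h (j + 1) ω * ZZ K lam h (N + n0 + M - (j + 1)) (shift (j + 1) ω)) hsub
      (fun j _ _ => mul_nonneg (mul_nonneg (kk_nonneg K _) (psi_pos lam h _ _).le)
      (ZZ_nonneg K lam h _ _))
    rw [Finset.sum_insert hnot] at h1
    simp only at h1
    have e1 : N + n0 - 1 + 1 = N + n0 := by omega
    have e2 : N + n0 + M - (N + n0) = M := by omega
    rw [e1, e2] at h1
    have hfirst : gg c p (N + n0) * e * (Kbar K N * psi lam h N ω) *
        ZZ K lam h M (shift (N + n0) ω) ≤
        kk K (N + n0) * psi lam h (N + n0) ω * ZZ K lam h M (shift (N + n0) ω) := by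
      refine mul_le_mul_of_nonneg_right ?_ hZM
      have h2 := psi_ge_exp_mul lam h N n0 ω
      rw [← he] at h2
      have h3 : gg c p (N + n0) ≤ kk K (N + n0) := hP.kk_ge (N + n0) (by omega)
      have h4 := Kbar_le_one K N
      have h5 := Kbar_nonneg K N
      have h6 := psi_pos lam h N ω
      calc gg c p (N + n0) * e * (Kbar K N * psi lam h N ω)
          = gg c p (N + n0) * (Kbar K N * (e * psi lam h N ω)) := by ring
        _ ≤ gg c p (N + n0) * (1 * (e * psi lam h N ω)) := by gcongr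
        _ = gg c p (N + n0) * (e * psi lam h N ω) := by ring
        _ ≤ kk K (N + n0) * psi lam h (N + n0) ω :=
            mul_le_mul h3 h2 (mul_pos hepos h6).le (kk_nonneg K _)
    have hsecond : gg c p (N + n0) * e * (∑ j ∈ Finset.range N, kk K (j + 1) *
        psi lam h (j + 1) ω * ZZ K lam h (N - (j + 1)) (shift (j + 1) ω)) *
        ZZ K lam h M (shift (N + n0) ω) ≤
        ∑ j ∈ Finset.range N, kk K (j + 1) *
        psi lam h (j + 1) ω * ZZ K lam h (N + n0 + M - (j + 1)) (shift (j + 1) ω) := by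
      rw [Finset.mul_sum, Finset.sum_mul]
      refine Finset.sum_le_sum fun j hj => ?_
      rw [Finset.mem_range] at hj
      have h2 := ih (N - (j + 1)) (by omega) (shift (j + 1) ω)
      rw [shift_shift, shift_shift] at h2
      have e3 : j + 1 + (N - (j + 1)) = N := by omega
      have e4 : j + 1 + (N - (j + 1) + n0) = N + n0 := by omega
      have e5 : N - (j + 1) + n0 + M = N + n0 + M - (j + 1) := by omega
      rw [e3, e4, e5, ← he] at h2
      have h3 : gg c p (N + n0) ≤ gg c p (N - (j + 1) + n0) := gg_anti hP.cpos p (by omega)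
      have h4 := ZZ_nonneg K lam h (N - (j + 1)) (shift (j + 1) ω)
      have h5 : 0 ≤ kk K (j + 1) * psi lam h (j + 1) ω :=
        mul_nonneg (kk_nonneg K _) (psi_pos lam h _ _).le
      calc gg c p (N + n0) * e * (kk K (j + 1) * psi lam h (j + 1) ω *
            ZZ K lam h (N - (j + 1)) (shift (j + 1) ω)) * ZZ K lam h M (shift (N + n0) ω)
          = kk K (j + 1) * psi lam h (j + 1) ω * (gg c p (N + n0) * e *
            ZZ K lam h (N - (j + 1)) (shift (j + 1) ω) * ZZ K lam h M (shift (N + n0) ω)) := by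
            ring
        _ ≤ kk K (j + 1) * psi lam h (j + 1) ω * (gg c p (N - (j + 1) + n0) * e *
            ZZ K lam h (N - (j + 1)) (shift (j + 1) ω) * ZZ K lam h M (shift (N + n0) ω)) := by
            gcongr
        _ ≤ _ := mul_le_mul_of_nonneg_left h2 h5
    have h0 : 0 ≤ Kbar K (N + n0 + M) * psi lam h (N + n0 + M) ω :=
      mul_nonneg (Kbar_nonneg K _) (psi_pos lam h _ _).le
    have hfin : gg c p (N + n0) * e * ZZ K lam h N ω * ZZ K lam h M (shift (N + n0) ω) =
        gg c p (N + n0) * e * (Kbar K N * psi lam h N ω) * ZZ K lam h M (shift (N + n0) ω) +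
        gg c p (N + n0) * e * (∑ j ∈ Finset.range N, kk K (j + 1) *
        psi lam h (j + 1) ω * ZZ K lam h (N - (j + 1)) (shift (j + 1) ω)) *
        ZZ K lam h M (shift (N + n0) ω) := by
      rw [ZZ_eq K lam h N ω]; ring
    rw [hfin]
    linarith

omit hP in
lemma RR_extend (N M : ℕ) (ω : ℕ → ℝ) (B : ℝ) (hB0 : 0 < B)
    (hB : ∀ i j, i + j ≤ N → psi lam h i (shift j ω) ≤ B) :
    RR K lam h N ω ≤ 2 * B * RR K lam h (N + M) ω := by
  induction N using Nat.strong_induction_on generalizing ω with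
  | _ N ih =>
    rw [RR_eq K lam h N ω, RR_eq K lam h (N + M) ω, Finset.sum_range_add, mul_add, mul_add]
    have h1 : psi lam h N ω ≤ 2 * B * psi lam h (N + M) ω := by
      have h2 := hB N 0 (by omega)
      rw [shift_zero] at h2
      have h3 := half_le_psi lam h (N + M) ω
      nlinarith
    have h2 : ∑ j ∈ Finset.range N, kk K (j + 1) * psi lam h (j + 1) ω *
        RR K lam h (N - (j + 1)) (shift (j + 1) ω) ≤
        2 * B * ∑ j ∈ Finset.range N, kk K (j + 1) * psi lam h (j + 1) ω *
        RR K lam h (N + M - (j + 1)) (shift (j + 1) ω) := by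
      rw [Finset.mul_sum]
      refine Finset.sum_le_sum fun j hj => ?_
      rw [Finset.mem_range] at hj
      have h3 := ih (N - (j + 1)) (by omega) (shift (j + 1) ω) (by
        intro i j' hij
        rw [shift_shift]
        exact hB i (j + 1 + j') (by omega))
      have e1 : N - (j + 1) + M = N + M - (j + 1) := by omega
      rw [e1] at h3
      have h5 : 0 ≤ kk K (j + 1) * psi lam h (j + 1) ω :=
        mul_nonneg (kk_nonneg K _) (psi_pos lam h _ _).le
      calc _ ≤ kk K (j + 1) * psi lam h (j + 1) ω *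
            (2 * B * RR K lam h (N + M - (j + 1)) (shift (j + 1) ω)) :=
            mul_le_mul_of_nonneg_left h3 h5
        _ = _ := by ring
    have h3 : 0 ≤ 2 * B * ∑ i ∈ Finset.range M, kk K (N + i + 1) * psi lam h (N + i + 1) ω *
        RR K lam h (N + M - (N + i + 1)) (shift (N + i + 1) ω) := by
      refine mul_nonneg (by positivity) (Finset.sum_nonneg fun j _ => ?_)
      exact mul_nonneg (mul_nonneg (kk_nonneg K _) (psi_pos lam h _ _).le)
        (RR_nonneg K lam h _ _)
    linarith

/-- If some stretch inside `[0,L]` has a large two-sided free partition function and the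
energies are under control, then the full free partition function is large. -/
lemma good_lower (L a N : ℕ) (ha : n0 ≤ a) (haN : a + N ≤ L) (ω : ℕ → ℝ) (B : ℝ) (hB0 : 0 < B)
    (hB : ∀ i j, i + j ≤ L → psi lam h i (shift j ω) ≤ B) :
    gg c p L ^ 3 * WW K lam h N (shift a ω) ≤ 4 * B ^ 2 * (L + 2) * ZZ K lam h L ω := by
  have hgL := gg_pos hP.cpos p L
  have h1 := glue lam h hP a N ha ω (2 * B) (by
    intro j hj
    have h2 := hB j a (by omega)
    have h3 := half_le_psi lam h (a + j) ω
    nlinarith)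
  have h2 : RR K lam h (a + N) ω ≤ 2 * B * RR K lam h L ω := by
    have := RR_extend (K := K) lam h (a + N) (L - (a + N)) ω B hB0
      (fun i j hij => hB i j (by omega))
    have e : a + N + (L - (a + N)) = L := by omega
    rwa [e] at this
  have h3 := ZZ_le_RR K lam h (a + N) ω
  have h4 := Kbar_mul_RR_le K lam h L ω
  have h5 : gg c p L ≤ Kbar K L := hP.Kbar_ge L
  have h6 := RR_nonneg K lam h L ω
  have hW := WW_nonneg K lam h N (shift a ω)
  have hg2 : gg c p L ≤ gg c p (a + N) := gg_anti hP.cpos p haN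
  have hN : (N : ℝ) ≤ L := by
    have : N ≤ L := by omega
    exact_mod_cast this
  have hN0 : (0 : ℝ) ≤ N := Nat.cast_nonneg N
  calc gg c p L ^ 3 * WW K lam h N (shift a ω)
      = gg c p L * (gg c p L ^ 2 * WW K lam h N (shift a ω)) := by ring
    _ ≤ gg c p L * (gg c p (a + N) ^ 2 * WW K lam h N (shift a ω)) := by gcongr
    _ ≤ gg c p L * ((N + 2) * (2 * B) * ZZ K lam h (a + N) ω) := by gcongr
    _ ≤ gg c p L * ((N + 2) * (2 * B) * (2 * B * RR K lam h L ω)) := by
        have := h3.trans h2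
        gcongr
    _ = (2 * B) * (2 * B) * (N + 2) * (gg c p L * RR K lam h L ω) := by ring
    _ ≤ (2 * B) * (2 * B) * (N + 2) * (Kbar K L * RR K lam h L ω) := by gcongr
    _ ≤ (2 * B) * (2 * B) * (L + 2) * (ZZ K lam h L ω) := by
        have := Kbar_nonneg K L
        have := mul_nonneg this h6
        gcongr
    _ = _ := by ring

end Pool.Agent.Helper97.Copolymer
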