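import Pool.Agent.Helper97.Copolymer.Restart

open MeasureTheory ProbabilityTheory Filter Topology Set

namespace Pool.Agent.Helper97.Copolymer

open Pool.Agent.Helper97

/-- the polynomial tail of the gap law gives polynomial lower bounds -/
theorem polyLower_of_tendsto (K : PMF ℕ) (α cK : ℝ) (hcK : 0 < cK)
    (hK : Tendsto (fun n : ℕ => (n : ℝ) ^ (1 + α) * (K n).toReal) atTop (𝓝 cK)) :
    ∃ c p n0, PolyLower K c p n0 := by
  obtain ⟨p, hp⟩ := exists_nat_ge (1 + α)
  have hev : ∀ᶠ n : ℕ in atTop, cK / 2 < (n : ℝ) ^ (1 + α) * (K n).toReal :=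
    (tendsto_order.1 hK).1 _ (by linarith)
  obtain ⟨n1, hn1⟩ := eventually_atTop.1 hev
  set n0 := max n1 1 with hn0
  have hn0pos : 1 ≤ n0 := le_max_right _ _
  set d := min (1 : ℝ) (cK / 2) with hd
  have hd0 : 0 < d := lt_min one_pos (by linarith)
  have hd1 : d ≤ 1 := min_le_left _ _
  have hkk : ∀ n : ℕ, n0 ≤ n → d / ((n : ℝ) + 1) ^ p ≤ kk K n := by
    intro n hn
    have hnn : n1 ≤ n := (le_max_left _ _).trans hn
    have hn1' : (1 : ℝ) ≤ n := by exact_mod_cast hn0pos.trans hn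
    have h1 := hn1 n hnn
    have h2 : (n : ℝ) ^ (1 + α) ≤ ((n : ℝ) + 1) ^ p := by
      calc (n : ℝ) ^ (1 + α) ≤ (n : ℝ) ^ (p : ℝ) := Real.rpow_le_rpow_of_exponent_le hn1' hp
        _ = (n : ℝ) ^ p := Real.rpow_natCast _ _
        _ ≤ ((n : ℝ) + 1) ^ p := by gcongr; linarith
    have h3 : 0 ≤ kk K n := kk_nonneg K n
    rw [div_le_iff₀ (by positivity)]
    have h4 : (n : ℝ) ^ (1 + α) * (K n).toReal ≤ ((n : ℝ) + 1) ^ p * kk K n :=
      mul_le_mul_of_nonneg_right h2 h3
    have h5 : d ≤ cK / 2 := min_le_right _ _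
    linarith
  set c := d / ((n0 : ℝ) + 2) ^ p with hc
  have hc0 : 0 < c := by positivity
  have hcd : c ≤ d := div_le_self hd0.le (one_le_pow₀ (by
    have : (0 : ℝ) ≤ n0 := Nat.cast_nonneg n0
    linarith))
  refine ⟨c, p, n0, hc0, hcd.trans hd1, hn0pos, ?_, ?_⟩
  · intro n hn
    exact (div_le_div_of_nonneg_right hcd (by positivity)).trans (hkk n hn)
  · intro n
    have h1 := hkk (n + n0) (by omega)
    have h2 := kk_le_Kbar K (show n < n + n0 by omega)
    refine le_trans ?_ (h1.trans h2)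
    rw [hc, div_div]
    refine div_le_div_of_nonneg_left hd0.le (by positivity) ?_
    rw [← mul_pow]
    refine pow_le_pow_left₀ (by positivity) ?_ _
    push_cast
    have : (0 : ℝ) ≤ n0 := Nat.cast_nonneg n0
    have : (0 : ℝ) ≤ n := Nat.cast_nonneg n
    nlinarith

lemma exp_le_quad (y : ℝ) : Real.exp y ≤ 1 + y + y ^ 2 * Real.exp |y| := by
  by_cases h1 : |y| ≤ 1
  · have h2 := Real.abs_exp_sub_one_sub_id_le h1
    have h3 := le_abs_self (Real.exp y - 1 - y)
    have h4 : 1 ≤ Real.exp |y| := Real.one_le_exp (abs_nonneg y)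
    nlinarith [sq_nonneg y]
  · push Not at h1
    have h5 : 1 ≤ y ^ 2 := by
      rw [← sq_abs]; nlinarith
    rcases le_or_gt 0 y with h2 | h2
    · rw [abs_of_nonneg h2] at h1 ⊢
      have := Real.exp_pos y
      nlinarith
    · rw [abs_of_neg h2] at h1 ⊢
      have h3 : Real.exp y ≤ 1 := Real.exp_le_one_iff.2 h2.le
      have h4 : 1 ≤ Real.exp (-y) := Real.one_le_exp (by linarith)
      nlinarith

variable (ν : Measure ℝ) [IsProbabilityMeasure ν] (lam : ℝ)

lemma exists_k (hM : ∀ t : ℝ, Integrable (fun x => Real.exp (t * x)) ν)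
    (hmean : ∫ x, x ∂ν = 0) (hlam : 0 < lam) (h1 h2 : ℝ) (hh1 : 0 < h1) :
    ∃ k : ℕ, 1 ≤ k ∧ ∀ h, h1 ≤ h → h ≤ h2 →
      ∫ x, Real.exp (-2 * lam * (x + h) / k) ∂ν ≤ 1 := by
  set E := ∫ x, Real.exp ((1 + 2 * lam) * |x|) ∂ν with hE
  have hE0 : 0 ≤ E := integral_nonneg fun x => (Real.exp_pos _).le
  set Mc := 8 * lam ^ 2 * Real.exp ((1 + 2 * lam) * h2) * E with hMc
  have hMc0 : 0 ≤ Mc := by positivity
  obtain ⟨k, hk⟩ := exists_nat_ge (max 1 (Mc / (2 * lam * h1)))
  have hk1 : (1 : ℝ) ≤ k := (le_max_left _ _).trans hk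
  have hk2 : Mc ≤ 2 * lam * h1 * k := by
    have := (le_max_right _ _).trans hk
    rw [div_le_iff₀ (by positivity)] at this
    linarith
  refine ⟨k, by exact_mod_cast hk1, fun h hh hh' => ?_⟩
  have hk0 : (0 : ℝ) < k := by linarith
  have hpt : ∀ x : ℝ, Real.exp (-2 * lam * (x + h) / k) ≤
      (1 + (-2 * lam / k) * (x + h)) +
      (1 / (k : ℝ) ^ 2) * (8 * lam ^ 2 * Real.exp ((1 + 2 * lam) * h2) *
        Real.exp ((1 + 2 * lam) * |x|)) := by
    intro x
    have e1 := exp_le_quad (-2 * lam * (x + h) / k)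
    have e2 : |-2 * lam * (x + h) / k| ≤ 2 * lam * |x + h| := by
      rw [abs_div, abs_mul, abs_mul, abs_of_pos hlam, abs_of_pos hk0]
      have : |(-2 : ℝ)| = 2 := by norm_num
      rw [this]
      exact div_le_self (by positivity) hk1
    have e3 : (-2 * lam * (x + h) / k) ^ 2 = (1 / (k : ℝ) ^ 2) * (4 * lam ^ 2 * |x + h| ^ 2) := by
      rw [sq_abs]; field_simp; ring
    have e4 : |x + h| ^ 2 ≤ 2 * Real.exp |x + h| := by
      have := Real.quadratic_le_exp_of_nonneg (abs_nonneg (x + h))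
      nlinarith [abs_nonneg (x + h)]
    have e5 : |x + h| ≤ |x| + h2 := by
      refine (abs_add_le x h).trans ?_
      rw [abs_of_pos (by linarith : 0 < h)]
      linarith
    have e6 : Real.exp |x + h| * Real.exp (2 * lam * |x + h|) ≤
        Real.exp ((1 + 2 * lam) * h2) * Real.exp ((1 + 2 * lam) * |x|) := by
      rw [← Real.exp_add, ← Real.exp_add]
      apply Real.exp_le_exp.2
      nlinarith
    have e7 : (-2 * lam * (x + h) / k) ^ 2 * Real.exp |-2 * lam * (x + h) / k| ≤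
        (1 / (k : ℝ) ^ 2) * (8 * lam ^ 2 * Real.exp ((1 + 2 * lam) * h2) *
        Real.exp ((1 + 2 * lam) * |x|)) := by
      rw [e3]
      calc (1 / (k : ℝ) ^ 2) * (4 * lam ^ 2 * |x + h| ^ 2) * Real.exp |-2 * lam * (x + h) / k|
          ≤ (1 / (k : ℝ) ^ 2) * (4 * lam ^ 2 * (2 * Real.exp |x + h|)) *
            Real.exp (2 * lam * |x + h|) := by gcongr
        _ = (1 / (k : ℝ) ^ 2) * (8 * lam ^ 2 * (Real.exp |x + h| *
            Real.exp (2 * lam * |x + h|))) := by ring
        _ ≤ (1 / (k : ℝ) ^ 2) * (8 * lam ^ 2 * (Real.exp ((1 + 2 * lam) * h2) *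
            Real.exp ((1 + 2 * lam) * |x|))) := by gcongr
        _ = _ := by ring
    have e8 : -2 * lam * (x + h) / k = (-2 * lam / k) * (x + h) := by ring
    rw [← e8]
    linarith
  have hix : Integrable (fun x : ℝ => x) ν := by
    have := integrable_abs ν hM
    exact (integrable_norm_iff (by apply Measurable.aestronglyMeasurable; fun_prop)).1 this
  have hi1 : Integrable (fun x : ℝ => 1 + (-2 * lam / k) * (x + h)) ν :=
    (integrable_const _).add ((hix.add (integrable_const h)).const_mul _)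
  have hi2 : Integrable (fun x : ℝ => (1 / (k : ℝ) ^ 2) * (8 * lam ^ 2 *
      Real.exp ((1 + 2 * lam) * h2) * Real.exp ((1 + 2 * lam) * |x|))) ν :=
    ((integrable_exp_abs ν hM _).const_mul _).const_mul _
  have hi0 : Integrable (fun x : ℝ => Real.exp (-2 * lam * (x + h) / k)) ν := by
    have e : ∀ x : ℝ, Real.exp (-2 * lam * (x + h) / k) =
        Real.exp (-2 * lam * h / k) * Real.exp ((-2 * lam / k) * x) := by
      intro x; rw [← Real.exp_add]; congr 1; ring
    simp_rw [e]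
    exact (hM _).const_mul _
  calc ∫ x, Real.exp (-2 * lam * (x + h) / k) ∂ν
      ≤ ∫ x, ((1 + (-2 * lam / k) * (x + h)) +
      (1 / (k : ℝ) ^ 2) * (8 * lam ^ 2 * Real.exp ((1 + 2 * lam) * h2) *
        Real.exp ((1 + 2 * lam) * |x|))) ∂ν := integral_mono hi0 (hi1.add hi2) hpt
    _ = (1 + (-2 * lam / k) * h) + (1 / (k : ℝ) ^ 2) * Mc := by
        have hi3 : Integrable (fun x : ℝ => x + h) ν := hix.add (integrable_const h)
        rw [integral_add hi1 hi2, integral_const_mul, integral_const_mul,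
          integral_add (integrable_const _) (hi3.const_mul _),
          integral_const_mul, integral_add hix (integrable_const h), hmean]
        simp [hMc, hE]
    _ ≤ 1 := by
        have h3 : (1 / (k : ℝ) ^ 2) * Mc ≤ (2 * lam / k) * h := by
          calc (1 / (k : ℝ) ^ 2) * Mc ≤ (1 / (k : ℝ) ^ 2) * (2 * lam * h1 * k) := by gcongr
            _ = (2 * lam / k) * h1 := by field_simp
            _ ≤ (2 * lam / k) * h := by gcongr
        have h4 : (-2 * lam / k) * h = -((2 * lam / k) * h) := by ring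
        linarith

lemma EE_le (hM : ∀ t : ℝ, Integrable (fun x => Real.exp (t * x)) ν) (n : ℕ) (h h2 : ℝ)
    (hh : 0 ≤ h) (hh2 : h ≤ h2) :
    EE ν lam h n ≤ Real.exp (4 * |lam| * n * h2) * EE ν lam h2 n := by
  unfold EE
  rw [← integral_const_mul]
  refine integral_mono (integrable_exp_SS ν lam h hM 2 (by norm_num) n)
    ((integrable_exp_SS ν lam h2 hM 2 (by norm_num) n).const_mul _) (fun ω => ?_)
  simp only
  rw [← Real.exp_add]
  apply Real.exp_le_exp.2
  have : SS lam h n ω ≤ SS lam h2 n ω + n * (2 * |lam| * h2) := by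
    unfold SS
    have h3 : ∑ i ∈ Finset.range n, 2 * |lam| * |ω i + h| ≤
        ∑ i ∈ Finset.range n, (2 * |lam| * |ω i + h2| + 2 * |lam| * h2) := by
      refine Finset.sum_le_sum fun i _ => ?_
      rw [← mul_add]
      refine mul_le_mul_of_nonneg_left ?_ (by positivity)
      have e : ω i + h = (ω i + h2) + (h - h2) := by ring
      rw [e]
      refine (abs_add_le _ _).trans ?_
      have : |h - h2| ≤ h2 := by rw [abs_le]; constructor <;> linarith
      linarith
    rw [Finset.sum_add_distrib, Finset.sum_const, Finset.card_range, nsmul_eq_mul] at h3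
    exact h3
  linarith

section Key

variable {K : PMF ℕ} {c : ℝ} {p n0 : ℕ} (hP : PolyLower K c p n0)
include hP

theorem key_bound (hK0 : K 0 = 0) (hM : ∀ t : ℝ, Integrable (fun x => Real.exp (t * x)) ν)
    (hmean : ∫ x, x ∂ν = 0) (hlam : 0 < lam) (h1 h2 : ℝ) (hh1 : 0 < h1) :
    ∃ C : ℝ, ∃ l0 : ℕ, ∃ c1 : ℝ, 1 ≤ C ∧ 1 ≤ l0 ∧ 0 < c1 ∧ ∀ h, h1 ≤ h → h ≤ h2 →
      ∀ l : ℕ, l0 ≤ l → 2 * C * Real.log ((l : ℝ) + 2) ≤ fr K ν lam h hM * l →
      c1 / l ≤ muExponent K ν lam h := by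
  obtain ⟨k, hk1, hk⟩ := exists_k ν lam hM hmean hlam h1 h2 hh1
  set r := 2 * p + 2 with hr
  set κ := 3 * k * (r + 2) + 1 + 3 * p + (p + 2) with hκ
  set E1 := ∫ x, Real.exp (1 * |x|) ∂ν with hE1
  have hE10 : 0 ≤ E1 := integral_nonneg fun x => (Real.exp_pos _).le
  set EEm := Real.exp (4 * |lam| * n0 * h2) * EE ν lam h2 n0 with hEEm
  have hEEm1 : 0 < EEm := by
    have := one_le_EE ν lam h2 hM n0
    positivity
  have hc := hP.cpos
  have hc1 := hP.cle
  set T0 := 12 * EEm * ((n0 : ℝ) + 1) ^ p / c ^ 4 with hT0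
  obtain ⟨l0, hl0⟩ := exists_nat_ge (max T0 (max (3 * (r : ℝ) + n0 + 2) 1))
  have hl0a : T0 ≤ l0 := (le_max_left _ _).trans hl0
  have hl0b : 3 * (r : ℝ) + n0 + 2 ≤ l0 := (le_max_left _ _).trans ((le_max_right _ _).trans hl0)
  have hl0c : (1 : ℝ) ≤ l0 := (le_max_right _ _).trans ((le_max_right _ _).trans hl0)
  set C := Real.log 2 + Real.log 10 + 2 * lam * |h2| + 2 * lam * E1 + 3 * κ + 2 * lam with hC
  have hlog2 : 0 < Real.log 2 := Real.log_pos (by norm_num)
  have hlog10 : 0 < Real.log 10 := Real.log_pos (by norm_num)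
  have hκ1 : (1 : ℝ) ≤ κ := by
    have : 1 ≤ κ := by rw [hκ]; omega
    exact_mod_cast this
  have hC1 : 1 ≤ C := by
    have : 0 ≤ 2 * lam * |h2| := by positivity
    have : 0 ≤ 2 * lam * E1 := by positivity
    rw [hC]; linarith
  refine ⟨C, l0, 1 / (2 * n0 + 9 * r), hC1, by exact_mod_cast hl0c, ?_, ?_⟩
  · have : (0 : ℝ) < r := by rw [hr]; positivity
    positivity
  intro h hh hh' l hl hfl
  clear_value C κ T0 r
  have hh0 : 0 < h := by linarith
  have hll : (l0 : ℝ) ≤ l := by exact_mod_cast hl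
  set X := (l : ℝ) + 2 with hX
  clear_value X
  have hl1 : (1 : ℝ) ≤ l := hl0c.trans hll
  have hl1' : 1 ≤ l := by exact_mod_cast hl1
  have hX3 : 3 ≤ X := by rw [hX]; linarith
  have hlogX : 1 ≤ Real.log X := by
    have h3 : Real.exp 1 ≤ X := by
      have := Real.exp_one_lt_d9
      linarith
    rw [← Real.log_exp 1]
    exact Real.log_le_log (Real.exp_pos _) h3
  set t := Nat.clog 2 (l + 2) with ht
  clear_value t
  have ht1 : X ≤ 2 ^ t := by
    have : l + 2 ≤ 2 ^ t := by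
      rw [ht]; exact Nat.le_pow_clog (by norm_num) _
    rw [hX]
    exact_mod_cast this
  have ht2 : (t : ℝ) ≤ 3 * Real.log X := by
    have h3 : 2 ^ t.pred < l + 2 := by
      rw [ht]; exact Nat.pow_pred_clog_lt_self (by norm_num) (by omega)
    have h4 : ((2 : ℝ) ^ (t - 1)) < X := by
      rw [hX]; exact_mod_cast h3
    have h5 := Real.log_lt_log (by positivity) h4
    rw [Real.log_pow] at h5
    have h6 : (t : ℝ) ≤ ((t - 1 : ℕ) : ℝ) + 1 := by
      have : t ≤ t - 1 + 1 := by omega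
      exact_mod_cast this
    have h7 : (0.69 : ℝ) < Real.log 2 := by
      have := Real.log_two_gt_d9; linarith
    have h8 : (0 : ℝ) ≤ ((t - 1 : ℕ) : ℝ) := Nat.cast_nonneg _
    have h9 := mul_le_mul_of_nonneg_left h7.le h8
    linarith only [h5, h6, h9, hlogX]
  have ht3 : (t : ℝ) ≤ X := by
    have : t ≤ l + 2 := by
      rw [ht]
      exact (Nat.clog_le_of_le_pow (Nat.lt_two_pow_self).le)
    rw [hX]; exact_mod_cast this
  set m := 3 * r * t with hm
  set L := n0 + m * l with hL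
  set T := (L : ℝ) + 2 with hT
  have hLr : (L : ℝ) = n0 + 3 * r * t * l := by
    rw [hL, hm]; push_cast; ring
  clear_value m L T
  have htpos : 1 ≤ t := by
    rw [ht]; exact Nat.clog_pos (by norm_num) (by omega)
  have htpos' : (1 : ℝ) ≤ t := by exact_mod_cast htpos
  have hr2 : (2 : ℝ) ≤ r := by
    have : 2 ≤ r := by rw [hr]; omega
    exact_mod_cast this
  have hTX : X ≤ T := by
    rw [hT, hX, hLr]
    have hn0 : (0 : ℝ) ≤ n0 := Nat.cast_nonneg _
    have h9 : (1 : ℝ) ≤ 3 * r * t := by nlinarith only [hr2, htpos']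
    have h10 : (l : ℝ) ≤ 3 * r * t * l := le_mul_of_one_le_left (by linarith) h9
    linarith only [h10, hn0]
  have hTX3 : T ≤ X ^ 3 := by
    rw [hT, hLr]
    have h3 : 3 * (r : ℝ) + n0 + 2 ≤ X := by rw [hX]; linarith
    have h4 : (3 * (r : ℝ) + n0 + 2) * X ^ 2 ≤ X ^ 3 := by
      calc (3 * (r : ℝ) + n0 + 2) * X ^ 2 ≤ X * X ^ 2 := by gcongr
        _ = X ^ 3 := by ring
    have h5 : (3 : ℝ) * r * t * l ≤ 3 * r * X ^ 2 := by
      have : (t : ℝ) * l ≤ X * X := by
        have : (l : ℝ) ≤ X := by rw [hX]; linarith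
        gcongr
      calc (3 : ℝ) * r * t * l = 3 * r * (t * l) := by ring
        _ ≤ 3 * r * (X * X) := by gcongr
        _ = _ := by ring
    have h6 : (n0 : ℝ) + 2 ≤ (n0 + 2) * X ^ 2 := by
      have : 1 ≤ X ^ 2 := one_le_pow₀ (by linarith)
      exact le_mul_of_one_le_right (by positivity) this
    nlinarith only [h4, h5, h6]
  have hT1 : 1 ≤ T := by linarith
  have hTpos : 0 < T := by linarith
  set H := T ^ κ with hH
  have hH2 : 2 ≤ H := by
    calc (2 : ℝ) ≤ T ^ 1 := by rw [pow_one]; linarith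
      _ ≤ T ^ κ := pow_le_pow_right₀ hT1 (by rw [hκ]; omega)
  have hHpos : 0 < H := by linarith
  clear_value H
  -- bound for QQ
  have hlogT : Real.log T ≤ 3 * Real.log X := by
    have := Real.log_le_log hTpos hTX3
    rw [Real.log_pow] at this
    exact_mod_cast this
  have hQ : QQ ν lam h H l ≤ C * Real.log X := by
    unfold QQ
    rw [abs_of_pos hlam, abs_of_pos hh0]
    have e1 : Real.log (2 * H) = Real.log 2 + κ * Real.log T := by
      rw [Real.log_mul (by norm_num) hHpos.ne', hH, Real.log_pow]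
    rw [e1]
    have e2 : Real.log l ≤ Real.log X := Real.log_le_log (by linarith) (by rw [hX]; linarith)
    have e3 : (κ : ℝ) * Real.log T ≤ κ * (3 * Real.log X) :=
      mul_le_mul_of_nonneg_left hlogT (by linarith)
    have e4 : 2 * lam * Real.log l ≤ 2 * lam * Real.log X := by gcongr
    have e5 : 2 * lam * h ≤ 2 * lam * |h2| := by
      have : h ≤ |h2| := hh'.trans (le_abs_self _)
      gcongr
    have e6 : (Real.log 2 + Real.log 10 + 2 * lam * |h2| + 2 * lam * E1) ≤
        (Real.log 2 + Real.log 10 + 2 * lam * |h2| + 2 * lam * E1) * Real.log X := by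
      have : 0 ≤ Real.log 2 + Real.log 10 + 2 * lam * |h2| + 2 * lam * E1 := by positivity
      exact le_mul_of_one_le_right this hlogX
    rw [hC]
    nlinarith only [e3, e4, e5, e6]
  -- beta ≤ 1/2
  have hbeta : beta K ν lam h H l ≤ 1 / 2 := by
    have h3 := beta_mul_AA_le K ν lam h hM H hH2 l hl1'
    have h4 := fr_le K ν lam h hM l (by omega)
    have h5 := beta_nonneg K ν lam h H l
    have h6 : beta K ν lam h H l * (fr K ν lam h hM * l) ≤ C * Real.log X :=
      (mul_le_mul_of_nonneg_left h4 h5).trans (h3.trans hQ)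
    have h7 : 0 < fr K ν lam h hM * l := lt_of_lt_of_le (by positivity) hfl
    by_contra hcon
    push Not at hcon
    have h8 : 1 / 2 * (fr K ν lam h hM * l) < beta K ν lam h H l * (fr K ν lam h hM * l) := by
      gcongr
    linarith
  -- bound for uu
  set D := T ^ (r + 2) with hD
  have hD1 : 1 ≤ D := one_le_pow₀ hT1
  clear_value D
  have huu := uu_bound ν lam h hM hP H D hHpos hD1 k l m hk1 (hk h hh hh')
  rw [← hL] at huu
  have hbm : beta K ν lam h H l ^ m ≤ (T ^ r)⁻¹ := by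
    have h3 : beta K ν lam h H l ^ m ≤ (1 / 2) ^ m :=
      pow_le_pow_left₀ (beta_nonneg K ν lam h H l) hbeta m
    refine h3.trans ?_
    rw [one_div, inv_pow]
    refine inv_anti₀ (by positivity) ?_
    calc T ^ r ≤ (X ^ 3) ^ r := by gcongr
      _ = X ^ (3 * r) := by rw [← pow_mul]
      _ ≤ (2 ^ t) ^ (3 * r) := by gcongr
      _ = 2 ^ m := by rw [← pow_mul, hm]; ring_nf
  have hgg : 1 / gg c p L ≤ T ^ p / c := by
    unfold gg
    rw [one_div_div]
    gcongr
    rw [hT]; linarith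
  have hggpos := gg_pos hc p L
  have hD2 : ((L : ℝ) + 1) ^ 2 * D⁻¹ ≤ (T ^ r)⁻¹ := by
    rw [hD, pow_add, mul_inv, mul_comm, mul_assoc]
    refine mul_le_of_le_one_right (by positivity) ?_
    rw [inv_mul_le_one₀ (by positivity)]
    gcongr
    rw [hT]; linarith
  have hfirst : 2 / gg c p L * (beta K ν lam h H l ^ m + ((L : ℝ) + 1) ^ 2 * D⁻¹) ≤
      4 / (c ^ 3 * T ^ (p + 2)) := by
    calc 2 / gg c p L * (beta K ν lam h H l ^ m + ((L : ℝ) + 1) ^ 2 * D⁻¹)
        = 2 * (1 / gg c p L) * (beta K ν lam h H l ^ m + ((L : ℝ) + 1) ^ 2 * D⁻¹) := by ring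
      _ ≤ 2 * (T ^ p / c) * ((T ^ r)⁻¹ + (T ^ r)⁻¹) := by
          have := beta_nonneg K ν lam h H l
          gcongr
      _ = 4 / (c * T ^ (p + 2)) := by
          rw [hr]
          have : T ^ (2 * p + 2) = T ^ p * T ^ (p + 2) := by rw [← pow_add]; ring_nf
          rw [this]
          field_simp
          ring
      _ ≤ 4 / (c ^ 3 * T ^ (p + 2)) := by
          gcongr
          calc c ^ 3 ≤ c ^ 1 := pow_le_pow_of_le_one hc.le hc1 (by norm_num)
            _ = c := pow_one c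
  have hsecond : 8 * (D ^ k) ^ 3 * ((L : ℝ) + 2) / (gg c p L ^ 3 * H) ≤
      8 / (c ^ 3 * T ^ (p + 2)) := by
    calc 8 * (D ^ k) ^ 3 * ((L : ℝ) + 2) / (gg c p L ^ 3 * H)
        = 8 * (1 / gg c p L) ^ 3 * ((D ^ k) ^ 3 * T / H) := by
          rw [hT]; field_simp
      _ ≤ 8 * (T ^ p / c) ^ 3 * ((D ^ k) ^ 3 * T / H) := by
          gcongr
      _ = 8 / (c ^ 3 * T ^ (p + 2)) := by
          have e1 : H = (D ^ k) ^ 3 * T * (T ^ p) ^ 3 * T ^ (p + 2) := by
            rw [hH, hD, hκ, ← pow_mul, ← pow_mul, ← pow_mul]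
            have : 3 * k * (r + 2) + 1 + 3 * p + (p + 2) =
              (r + 2) * (k * 3) + 1 + p * 3 + (p + 2) := by ring
            rw [this, pow_add, pow_add, pow_add, pow_one]
          rw [e1]
          field_simp
  have huu2 : uu K ν lam h L ≤ 12 / (c ^ 3 * T ^ (p + 2)) := by
    have e : 12 / (c ^ 3 * T ^ (p + 2)) = 4 / (c ^ 3 * T ^ (p + 2)) +
        8 / (c ^ 3 * T ^ (p + 2)) := by ring
    rw [e]
    exact huu.trans (add_le_add hfirst hsecond)
  -- final bound for mu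
  have hmu := (muExponent_spec ν lam h hP hK0 hM).1 L
  have hEE1 := one_le_EE ν lam h hM n0
  have hEE2 : EE ν lam h n0 ≤ EEm := EE_le ν lam hM n0 h h2 hh0.le hh'
  have huupos := uu_pos ν lam h hP hM L
  have hg2 := gg_pos hc p (L + n0)
  have hprod : uu K ν lam h L * (EE ν lam h n0 / gg c p (L + n0)) ≤ T⁻¹ := by
    have e1 : 1 / gg c p (L + n0) ≤ (((n0 : ℝ) + 1) * T) ^ p / c := by
      unfold gg
      rw [one_div_div]
      refine div_le_div_of_nonneg_right (pow_le_pow_left₀ (by positivity) ?_ _) hc.le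
      rw [hT]; push_cast
      have e2 : (0 : ℝ) ≤ n0 := Nat.cast_nonneg _
      have e3 : (0 : ℝ) ≤ L := Nat.cast_nonneg _
      have e4 := mul_nonneg e2 e3
      nlinarith only [e2, e3, e4]
    have hTT0 : T0 ≤ T := by linarith
    calc uu K ν lam h L * (EE ν lam h n0 / gg c p (L + n0))
        = uu K ν lam h L * (EE ν lam h n0 * (1 / gg c p (L + n0))) := by ring
      _ ≤ 12 / (c ^ 3 * T ^ (p + 2)) * (EEm * ((((n0 : ℝ) + 1) * T) ^ p / c)) := by
          gcongr
      _ = T0 / T ^ 2 := by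
          rw [hT0, mul_pow, pow_add]
          field_simp
      _ ≤ T / T ^ 2 := by gcongr
      _ = T⁻¹ := by field_simp
  have hlogle : Real.log (uu K ν lam h L) + CC c p n0 ν lam h L ≤ -Real.log T := by
    unfold CC
    have e0 : 0 < EE ν lam h n0 / gg c p (L + n0) := div_pos (by linarith) hg2
    rw [← Real.log_mul huupos.ne' e0.ne', ← Real.log_inv]
    exact Real.log_le_log (mul_pos huupos e0) hprod
  have hn0' : (1 : ℝ) ≤ n0 := by exact_mod_cast hP.n0pos
  have hLn0 : 0 < (L : ℝ) + n0 := by positivity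
  have hfin : Real.log T / ((L : ℝ) + n0) ≤ muExponent K ν lam h := by
    refine le_trans ?_ hmu
    rw [← neg_div]
    gcongr
    linarith
  refine le_trans ?_ hfin
  have hlogTX : Real.log X ≤ Real.log T := Real.log_le_log (by linarith) hTX
  have hLle : (L : ℝ) + n0 ≤ (2 * n0 + 9 * r) * (l * Real.log X) := by
    rw [hLr]
    have hlX : (1 : ℝ) ≤ l * Real.log X := one_le_mul_of_one_le_of_one_le hl1 hlogX
    have hlX2 := mul_le_mul_of_nonneg_left hlX (by linarith : (0 : ℝ) ≤ 2 * n0)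
    have e1 : (3 : ℝ) * r * t * l ≤ 9 * r * (l * Real.log X) := by
      calc (3 : ℝ) * r * t * l ≤ 3 * r * (3 * Real.log X) * l := by gcongr
        _ = _ := by ring
    nlinarith only [e1, hlX2]
  have hr0 : (0 : ℝ) < r := by linarith
  calc 1 / (2 * (n0 : ℝ) + 9 * r) / l
      = Real.log X / ((2 * n0 + 9 * r) * (l * Real.log X)) := by
        field_simp
    _ ≤ Real.log X / ((L : ℝ) + n0) := by gcongr
    _ ≤ Real.log T / ((L : ℝ) + n0) := by gcongr

theorem quantitative (hK0 : K 0 = 0) (hM : ∀ t : ℝ, Integrable (fun x => Real.exp (t * x)) ν)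
    (hmean : ∫ x, x ∂ν = 0) (hlam : 0 < lam) (h1 h2 : ℝ) (hh1 : 0 < h1) :
    ∃ c2 f0 : ℝ, 0 < c2 ∧ 0 < f0 ∧ f0 < 1 ∧ ∀ h, h1 ≤ h → h ≤ h2 →
      0 < freeEnergy K ν lam h → freeEnergy K ν lam h ≤ f0 →
      c2 * freeEnergy K ν lam h / Real.log (1 / freeEnergy K ν lam h) ≤
        muExponent K ν lam h := by
  obtain ⟨C, l0, c1, hC1, hl01, hc1, hkey⟩ :=
    key_bound ν lam hP hK0 hM hmean hlam h1 h2 hh1
  set z0 := max (6 * C + 3) (l0 : ℝ) with hz0
  have hz01 : 6 * C + 3 ≤ z0 := le_max_left _ _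
  have hz02 : (l0 : ℝ) ≤ z0 := le_max_right _ _
  have hz0pos : 0 < z0 := by linarith
  refine ⟨c1 / (7 * C), 1 / z0, by positivity, by positivity, ?_, ?_⟩
  · rw [div_lt_one hz0pos]; linarith
  intro h hh hh' hpos hle
  rw [freeEnergy_eq ν lam h hM hP hK0] at hpos hle ⊢
  set f := fr K ν lam h hM with hf
  set z := 1 / f with hz
  have hzz0 : z0 ≤ z := by
    rw [hz, le_one_div hz0pos hpos]; exact hle
  have hzpos : 0 < z := by linarith
  have hfz : f * z = 1 := by rw [hz]; field_simp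
  set y := Real.log z with hy
  have hy1 : 1 ≤ y := by
    have h3 : Real.exp 1 ≤ z := by
      have := Real.exp_one_lt_d9
      linarith
    rw [hy, ← Real.log_exp 1]
    exact Real.log_le_log (Real.exp_pos _) h3
  have hyz : y ≤ z := by
    have := Real.log_le_sub_one_of_pos hzpos
    linarith
  set l := ⌈6 * C * y * z⌉₊ with hl
  have hx0 : 0 ≤ 6 * C * y * z := by positivity
  have hlge : 6 * C * y * z ≤ l := Nat.le_ceil _
  have hllt : (l : ℝ) < 6 * C * y * z + 1 := Nat.ceil_lt_add_one hx0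
  have hzl : z ≤ 6 * C * y * z := by
    have : 1 ≤ 6 * C * y := by nlinarith
    nlinarith
  have hll0 : l0 ≤ l := by
    have : (l0 : ℝ) ≤ l := by linarith
    exact_mod_cast this
  have hlog : Real.log ((l : ℝ) + 2) ≤ 3 * y := by
    have h3 : (l : ℝ) + 2 ≤ z ^ 3 := by
      have h4 : 6 * C * y * z ≤ 6 * C * z ^ 2 := by
        have : y * z ≤ z * z := by gcongr
        nlinarith
      have h5 : (6 * C + 3) * z ^ 2 ≤ z ^ 3 := by
        calc (6 * C + 3) * z ^ 2 ≤ z * z ^ 2 := by gcongr; linarith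
          _ = z ^ 3 := by ring
      have h6 : 1 ≤ z ^ 2 := by nlinarith
      nlinarith
    have h4 := Real.log_le_log (by positivity) h3
    rw [Real.log_pow] at h4
    exact_mod_cast h4
  have hcond : 2 * C * Real.log ((l : ℝ) + 2) ≤ f * l := by
    calc 2 * C * Real.log ((l : ℝ) + 2) ≤ 2 * C * (3 * y) := by gcongr
      _ = f * (6 * C * y * z) := by
          have : f * (6 * C * y * z) = 6 * C * y * (f * z) := by ring
          rw [this, hfz]; ring
      _ ≤ f * l := by gcongr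
  have h3 := hkey h hh hh' l hll0 hcond
  refine le_trans ?_ h3
  have hlpos : (0 : ℝ) < l := by linarith
  have h7 : (l : ℝ) ≤ 7 * C * y * z := by
    have : 1 ≤ C * y * z := by
      have : 1 ≤ C * y := by nlinarith
      nlinarith
    linarith
  calc c1 / (7 * C) * f / y = c1 / (7 * C * y * z) := by
        rw [hz]; field_simp
    _ ≤ c1 / l := by gcongr

end Key

end Pool.Agent.Helper97.Copolymer
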