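import Pool.Agent.Helper97.Copolymer.Prob

open MeasureTheory ProbabilityTheory Filter Topology Set

namespace Pool.Agent.Helper97.Copolymer

open Pool.Agent.Helper97

lemma tendsto_log_div (C1 C2 : ℝ) (k k' : ℕ) :
    Tendsto (fun N : ℕ => (C1 + C2 * Real.log ((N : ℝ) + k)) / ((N : ℝ) + k')) atTop (𝓝 0) := by
  have hN : Tendsto (fun N : ℕ => ((N : ℝ) + k)) atTop atTop :=
    tendsto_atTop_add_const_right _ _ tendsto_natCast_atTop_atTop
  have hN' : Tendsto (fun N : ℕ => ((N : ℝ) + k')) atTop atTop :=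
    tendsto_atTop_add_const_right _ _ tendsto_natCast_atTop_atTop
  have h1 : Tendsto (fun N : ℕ => Real.log ((N : ℝ) + k) / ((N : ℝ) + k)) atTop (𝓝 0) :=
    (Real.isLittleO_log_id_atTop.tendsto_div_nhds_zero).comp hN
  have h2 : Tendsto (fun N : ℕ => ((N : ℝ) + k) / ((N : ℝ) + k')) atTop (𝓝 1) := by
    have h3 : Tendsto (fun N : ℕ => 1 + ((k : ℝ) - k') / ((N : ℝ) + k')) atTop (𝓝 (1 + 0)) :=
      tendsto_const_nhds.add (tendsto_const_nhds.div_atTop hN')
    rw [add_zero] at h3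
    refine h3.congr' ?_
    filter_upwards [eventually_gt_atTop 0] with N hN0
    have : (0 : ℝ) < (N : ℝ) + k' := by positivity
    field_simp
    ring
  have h4 : Tendsto (fun N : ℕ => C1 / ((N : ℝ) + k') +
      C2 * (Real.log ((N : ℝ) + k) / ((N : ℝ) + k) * (((N : ℝ) + k) / ((N : ℝ) + k')))) atTop
      (𝓝 (0 + C2 * (0 * 1))) :=
    (tendsto_const_nhds.div_atTop hN').add ((h1.mul h2).const_mul C2)
  have e0 : (0 : ℝ) + C2 * (0 * 1) = 0 := by ring
  rw [e0] at h4
  refine h4.congr' ?_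
  filter_upwards [eventually_gt_atTop 0] with N hN0
  have h5 : (0 : ℝ) < (N : ℝ) + k' := by positivity
  have h6 : (0 : ℝ) < (N : ℝ) + k := by positivity
  field_simp

lemma conv_lemma (b C : ℕ → ℝ) (n0 : ℕ) (hn0 : 1 ≤ n0) (hC0 : ∀ N, 0 ≤ C N)
    (hC : Tendsto (fun N : ℕ => C N / N) atTop (𝓝 0))
    (hsub : ∀ N M, b (N + n0 + M) ≤ b N + C N + b M) (c0 : ℝ) (hc0 : 0 ≤ c0)
    (hlow : ∀ N : ℕ, -c0 * N ≤ b N) :
    ∃ L, Tendsto (fun N : ℕ => (N : ℝ)⁻¹ * b N) atTop (𝓝 L) ∧
      ∀ N : ℕ, L ≤ (b N + C N) / ((N : ℝ) + n0) := by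
  have hn0' : (1 : ℝ) ≤ n0 := by exact_mod_cast hn0
  set θ : ℕ → ℝ := fun N => (b N + C N) / ((N : ℝ) + n0) with hθ
  have hpos : ∀ N : ℕ, (0 : ℝ) < (N : ℝ) + n0 := fun N => by positivity
  have hbdd : BddBelow (Set.range θ) := by
    refine ⟨-c0, ?_⟩
    rintro _ ⟨N, rfl⟩
    rw [hθ]; simp only
    rw [le_div_iff₀ (hpos N)]
    have h1 := hlow N
    have h2 := hC0 N
    nlinarith
  refine ⟨⨅ N, θ N, ?_, fun N => ciInf_le hbdd N⟩
  have hupper : ∀ N : ℕ, ∃ B, ∀ n : ℕ, b n ≤ θ N * n + B := by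
    intro N
    refine ⟨∑ r ∈ Finset.range (N + n0), |b r - θ N * r|, ?_⟩
    intro n
    induction n using Nat.strong_induction_on with
    | _ n ih =>
      by_cases hn : n < N + n0
      · have h1 : |b n - θ N * n| ≤ ∑ r ∈ Finset.range (N + n0), |b r - θ N * r| :=
          Finset.single_le_sum (f := fun r : ℕ => |b r - θ N * r|) (fun _ _ => abs_nonneg _)
            (Finset.mem_range.2 hn)
        linarith [le_abs_self (b n - θ N * n)]
      · push Not at hn
        obtain ⟨M, rfl⟩ := Nat.exists_eq_add_of_le hn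
        have h1 := hsub N M
        have h2 := ih M (by omega)
        have h3 : θ N * ((N : ℝ) + n0) = b N + C N := by
          rw [hθ]; simp only
          rw [div_mul_cancel₀ _ (hpos N).ne']
        push_cast
        nlinarith
  rw [tendsto_order]
  constructor
  · intro a ha
    -- lower bound
    set L := ⨅ N, θ N with hL
    have h1 : ∀ N : ℕ, 0 < N → L + (L * n0 / N - C N / N) ≤ (N : ℝ)⁻¹ * b N := by
      intro N hN
      have h2 : L ≤ θ N := ciInf_le hbdd N
      rw [hθ] at h2; simp only at h2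
      rw [le_div_iff₀ (hpos N)] at h2
      have hN' : (0 : ℝ) < N := by exact_mod_cast hN
      rw [inv_mul_eq_div, le_div_iff₀ hN']
      have : (L + (L * n0 / N - C N / N)) * N = L * N + L * n0 - C N := by
        field_simp
        ring
      rw [this]
      nlinarith
    have h2 : Tendsto (fun N : ℕ => L + (L * n0 / N - C N / N)) atTop (𝓝 (L + (0 - 0))) :=
      tendsto_const_nhds.add ((tendsto_const_nhds.div_atTop tendsto_natCast_atTop_atTop).sub hC)
    rw [sub_zero, add_zero] at h2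
    filter_upwards [(tendsto_order.1 h2).1 a ha, eventually_gt_atTop 0] with N h3 h4
    exact lt_of_lt_of_le h3 (h1 N h4)
  · intro a ha
    obtain ⟨N, hN⟩ := exists_lt_of_ciInf_lt ha
    obtain ⟨B, hB⟩ := hupper N
    have h2 : Tendsto (fun n : ℕ => θ N + B / n) atTop (𝓝 (θ N + 0)) :=
      tendsto_const_nhds.add (tendsto_const_nhds.div_atTop tendsto_natCast_atTop_atTop)
    rw [add_zero] at h2
    filter_upwards [(tendsto_order.1 h2).2 a hN, eventually_gt_atTop 0] with n h3 h4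
    refine lt_of_le_of_lt ?_ h3
    have hn' : (0 : ℝ) < n := by exact_mod_cast h4
    rw [inv_mul_eq_div, div_le_iff₀ hn']
    have : (θ N + B / n) * n = θ N * n + B := by field_simp
    rw [this]
    exact hB n

section Main

variable (K : PMF ℕ) (ν : Measure ℝ) [IsProbabilityMeasure ν] (lam h : ℝ)

lemma integral_mul_shift' (n : ℕ) (F G : (ℕ → ℝ) → ℝ) (hF : DepLT n F) (hFm : Measurable F)
    (hGm : Measurable G) :
    ∫ ω, F ω * G (shift n ω) ∂(chargeLaw ν) =
      (∫ ω, F ω ∂(chargeLaw ν)) * (∫ ω, G ω ∂(chargeLaw ν)) :=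
  integral_mul_shift ν n F G hF hFm hGm

lemma integral_shift' (n : ℕ) (G : (ℕ → ℝ) → ℝ) (hGm : Measurable G) :
    ∫ ω, G (shift n ω) ∂(chargeLaw ν) = ∫ ω, G ω ∂(chargeLaw ν) :=
  integral_shift ν n G hGm

lemma integrable_shift' (n : ℕ) (G : (ℕ → ℝ) → ℝ) (hG : Integrable G (chargeLaw ν)) :
    Integrable (fun ω => G (shift n ω)) (chargeLaw ν) :=
  integrable_shift ν n G hG

lemma integrable_mul_shift' (n : ℕ) (F G : (ℕ → ℝ) → ℝ) (hF : DepLT n F) (hFm : Measurable F)
    (hGm : Measurable G) (hFi : Integrable F (chargeLaw ν)) (hGi : Integrable G (chargeLaw ν)) :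
    Integrable (fun ω => F ω * G (shift n ω)) (chargeLaw ν) :=
  integrable_mul_shift ν n F G hF hFm hGm hFi hGi

variable (hM : ∀ t : ℝ, Integrable (fun x => Real.exp (t * x)) ν)

include hM

lemma integrable_LL (N : ℕ) : Integrable (LL K lam h N) (chargeLaw ν) := by
  refine Integrable.mono' ((integrable_const (Real.log (2 * (1 + (N + 1) ^ 2)))).add
    (integrable_SS ν lam h hM N)) (measurable_LL K lam h N).aestronglyMeasurable
    (ae_of_all _ fun ω => ?_)
  rw [Real.norm_eq_abs, abs_of_nonneg (LL_nonneg K lam h N ω)]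
  exact LL_le K lam h N ω

omit [IsProbabilityMeasure ν] hM in
/-- quenched average of the normalised logarithm -/
noncomputable def AA (N : ℕ) : ℝ := ∫ ω, LL K lam h N ω ∂(chargeLaw ν)

omit hM [IsProbabilityMeasure ν] in
lemma AA_nonneg (N : ℕ) : 0 ≤ AA K ν lam h N := integral_nonneg fun ω => LL_nonneg K lam h N ω

lemma AA_subadditive : Subadditive (AA K ν lam h) := by
  intro m n
  unfold AA
  rw [← integral_shift' ν m (LL K lam h n) (measurable_LL K lam h n),
    ← integral_add (integrable_LL K ν lam h hM m)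
      (integrable_shift' ν m _ (integrable_LL K ν lam h hM n))]
  exact integral_mono (integrable_LL K ν lam h hM (m + n))
    ((integrable_LL K ν lam h hM m).add
      (integrable_shift' ν m _ (integrable_LL K ν lam h hM n)))
    (fun ω => LL_add_le K lam h m n ω)

omit hM in
lemma AA_bdd : BddBelow (Set.range fun n : ℕ => AA K ν lam h n / n) := by
  refine ⟨0, ?_⟩
  rintro _ ⟨n, rfl⟩
  exact div_nonneg (AA_nonneg K ν lam h n) (Nat.cast_nonneg n)

/-- the limit of `AA N / N` -/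
noncomputable def fr : ℝ := (AA_subadditive K ν lam h hM).lim

lemma fr_tendsto : Tendsto (fun n : ℕ => AA K ν lam h n / n) atTop (𝓝 (fr K ν lam h hM)) :=
  (AA_subadditive K ν lam h hM).tendsto_lim (AA_bdd K ν lam h)

lemma fr_le (n : ℕ) (hn : n ≠ 0) : fr K ν lam h hM * n ≤ AA K ν lam h n := by
  have h1 := (AA_subadditive K ν lam h hM).lim_le_div (AA_bdd K ν lam h) hn
  have h2 : (0 : ℝ) < n := by exact_mod_cast Nat.pos_of_ne_zero hn
  rw [le_div_iff₀ h2] at h1
  exact h1

variable {K} {c : ℝ} {p n0 : ℕ} (hP : PolyLower K c p n0)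

include hP

omit hM [IsProbabilityMeasure ν] in
lemma ZZ_ge (N : ℕ) (ω : ℕ → ℝ) : gg c p N * psi lam h N ω ≤ ZZ K lam h N ω :=
  (mul_le_mul_of_nonneg_right (hP.Kbar_ge N) (psi_pos lam h N ω).le).trans
    (Kbar_psi_le_ZZ K lam h N ω)

omit hM [IsProbabilityMeasure ν] in
lemma ZZ_pos (N : ℕ) (ω : ℕ → ℝ) : 0 < ZZ K lam h N ω :=
  lt_of_lt_of_le (mul_pos (gg_pos hP.cpos p N) (psi_pos lam h N ω)) (ZZ_ge lam h hP N ω)

omit hM hP [IsProbabilityMeasure ν] in
lemma ZZ_le_two_WW (N : ℕ) (ω : ℕ → ℝ) : ZZ K lam h N ω ≤ 2 * WW K lam h N ω := by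
  have h1 := ZZ_le_RR K lam h N ω
  have h2 := RR_le_WW K lam h N ω
  have h3 := WW_nonneg K lam h N ω
  linarith

lemma integrable_log_ZZ (N : ℕ) :
    Integrable (fun ω => Real.log (ZZ K lam h N ω)) (chargeLaw ν) := by
  refine Integrable.mono' ((integrable_LL K ν lam h hM N).add
    (integrable_const |Real.log (gg c p N * (1 / 2))|))
    (by apply Measurable.aestronglyMeasurable; fun_prop) (ae_of_all _ fun ω => ?_)
  rw [Real.norm_eq_abs]
  simp only [Pi.add_apply]
  have h1 : Real.log (ZZ K lam h N ω) ≤ LL K lam h N ω :=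
    Real.log_le_log (ZZ_pos lam h hP N ω) (ZZ_le_two_WW lam h N ω)
  have hg := gg_pos hP.cpos p N
  have h2 : Real.log (gg c p N * (1 / 2)) ≤ Real.log (ZZ K lam h N ω) := by
    refine Real.log_le_log (by positivity) ((mul_le_mul_of_nonneg_left (half_le_psi lam h N ω)
      hg.le).trans (ZZ_ge lam h hP N ω))
  have h3 := LL_nonneg K lam h N ω
  rw [abs_le]
  constructor
  · linarith [neg_abs_le (Real.log (gg c p N * (1 / 2)))]
  · linarith [abs_nonneg (Real.log (gg c p N * (1 / 2)))]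

omit [IsProbabilityMeasure ν] hM hP in
/-- quenched average of the log partition function -/
noncomputable def ee (K : PMF ℕ) (ν : Measure ℝ) (lam h : ℝ) (N : ℕ) : ℝ :=
  ∫ ω, Real.log (ZZ K lam h N ω) ∂(chargeLaw ν)

lemma ee_le_AA (N : ℕ) : ee K ν lam h N ≤ AA K ν lam h N :=
  integral_mono (integrable_log_ZZ ν lam h hM hP N) (integrable_LL K ν lam h hM N)
    (fun ω => Real.log_le_log (ZZ_pos lam h hP N ω) (ZZ_le_two_WW lam h N ω))

omit [IsProbabilityMeasure ν] hM in
lemma LL_shift_le (N : ℕ) (ω : ℕ → ℝ) :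
    LL K lam h N (shift n0 ω) ≤ (Real.log 2 - 2 * Real.log c +
      (2 * p + 1) * Real.log ((N : ℝ) + (n0 + 2 : ℕ))) + SS lam h n0 ω +
      Real.log (ZZ K lam h (n0 + N) ω) := by
  have hpos : (0 : ℝ) < (N : ℝ) + (n0 + 2 : ℕ) := by positivity
  have h1 := glue lam h hP n0 N le_rfl ω (Real.exp (SS lam h n0 ω)) (by
    intro j hj
    unfold psi
    rw [xs_add, Real.exp_add]
    have h1 := abs_xs_le_SS lam h n0 ω
    have h2 : Real.exp (-(SS lam h n0 ω)) ≤ Real.exp (xs lam h n0 ω) :=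
      Real.exp_le_exp.2 (by linarith [neg_abs_le (xs lam h n0 ω)])
    have h3 : 1 ≤ Real.exp (SS lam h n0 ω) := Real.one_le_exp (SS_nonneg lam h n0 ω)
    have h4 := Real.exp_pos (xs lam h j (shift n0 ω))
    have h5 : Real.exp (SS lam h n0 ω) * Real.exp (-(SS lam h n0 ω)) = 1 := by
      rw [← Real.exp_add]; simp
    have h6 : 1 ≤ Real.exp (SS lam h n0 ω) * Real.exp (xs lam h n0 ω) := by
      rw [← h5]; gcongr
    nlinarith)
  have hZ := ZZ_pos lam h hP (n0 + N) ω
  have hW := one_le_two_WW K lam h N (shift n0 ω)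
  have hg := gg_pos hP.cpos p (n0 + N)
  have hgl : gg c p (n0 + N) = c / ((n0 + N : ℕ) + 1) ^ p := rfl
  have hcp := hP.cpos
  -- lower bound of gg
  have hg2 : c / ((N : ℝ) + (n0 + 2 : ℕ)) ^ p ≤ gg c p (n0 + N) := by
    rw [hgl]
    refine div_le_div_of_nonneg_left hcp.le (by positivity) (pow_le_pow_left₀ (by positivity) ?_ _)
    push_cast
    linarith
  have h2 : 2 * WW K lam h N (shift n0 ω) ≤ 2 * (((N : ℝ) + (n0 + 2 : ℕ)) ^ p / c) ^ 2 *
      (((N : ℝ) + (n0 + 2 : ℕ)) * Real.exp (SS lam h n0 ω) * ZZ K lam h (n0 + N) ω) := by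
    have h3 : (c / ((N : ℝ) + (n0 + 2 : ℕ)) ^ p) ^ 2 * WW K lam h N (shift n0 ω) ≤
        ((N : ℝ) + (n0 + 2 : ℕ)) * Real.exp (SS lam h n0 ω) * ZZ K lam h (n0 + N) ω := by
      calc _ ≤ gg c p (n0 + N) ^ 2 * WW K lam h N (shift n0 ω) := by
            have := WW_nonneg K lam h N (shift n0 ω)
            gcongr
        _ ≤ _ := h1
        _ ≤ _ := by
            have hh : (N : ℝ) + 2 ≤ (N : ℝ) + (n0 + 2 : ℕ) := by
              push_cast
              have : (0 : ℝ) ≤ n0 := Nat.cast_nonneg n0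
              linarith
            gcongr
    have h4 : WW K lam h N (shift n0 ω) = (((N : ℝ) + (n0 + 2 : ℕ)) ^ p / c) ^ 2 *
        ((c / ((N : ℝ) + (n0 + 2 : ℕ)) ^ p) ^ 2 * WW K lam h N (shift n0 ω)) := by
      field_simp
    rw [h4, mul_assoc 2]
    gcongr
  unfold LL
  calc Real.log (2 * WW K lam h N (shift n0 ω))
      ≤ Real.log (2 * (((N : ℝ) + (n0 + 2 : ℕ)) ^ p / c) ^ 2 *
      (((N : ℝ) + (n0 + 2 : ℕ)) * Real.exp (SS lam h n0 ω) * ZZ K lam h (n0 + N) ω)) :=
        Real.log_le_log (by linarith) h2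
    _ = _ := by
        rw [Real.log_mul (by positivity) (by positivity), Real.log_mul (by positivity)
          (by positivity), Real.log_mul (by positivity) (by positivity),
          Real.log_mul (by positivity) (by positivity), Real.log_exp, Real.log_pow,
          Real.log_div (by positivity) (by positivity), Real.log_pow]
        push_cast
        ring

lemma AA_le_ee (N : ℕ) : AA K ν lam h N ≤ (Real.log 2 - 2 * Real.log c +
      (2 * p + 1) * Real.log ((N : ℝ) + (n0 + 2 : ℕ))) +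
      (∫ ω, SS lam h n0 ω ∂(chargeLaw ν)) + ee K ν lam h (n0 + N) := by
  unfold AA ee
  rw [← integral_shift' ν n0 (LL K lam h N) (measurable_LL K lam h N)]
  have hi1 := integrable_SS ν lam h hM n0
  have hi2 := integrable_log_ZZ ν lam h hM hP (n0 + N)
  set C0 := (Real.log 2 - 2 * Real.log c + (2 * p + 1) * Real.log ((N : ℝ) + (n0 + 2 : ℕ)))
    with hC0
  calc ∫ ω, LL K lam h N (shift n0 ω) ∂(chargeLaw ν)
      ≤ ∫ ω, ((C0 + SS lam h n0 ω) + Real.log (ZZ K lam h (n0 + N) ω)) ∂(chargeLaw ν) := by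
        refine integral_mono (integrable_shift' ν n0 _ (integrable_LL K ν lam h hM N))
          (((integrable_const C0).add hi1).add hi2) (fun ω => ?_)
        exact LL_shift_le lam h hP N ω
    _ = _ := by
        rw [integral_add (f := fun ω => C0 + SS lam h n0 ω) ((integrable_const C0).add hi1) hi2,
          integral_add (f := fun _ => C0) (integrable_const C0) hi1]
        simp

theorem ee_tendsto :
    Tendsto (fun N : ℕ => (N : ℝ)⁻¹ * ee K ν lam h N) atTop (𝓝 (fr K ν lam h hM)) := by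
  rw [← tendsto_add_atTop_iff_nat n0]
  have hfr := fr_tendsto K ν lam h hM
  have hup : Tendsto (fun N : ℕ => ((N + n0 : ℕ) : ℝ)⁻¹ * AA K ν lam h (N + n0)) atTop
      (𝓝 (fr K ν lam h hM)) := by
    have := (tendsto_add_atTop_iff_nat n0).2 hfr
    refine this.congr fun N => ?_
    rw [inv_mul_eq_div]
  have hlow : Tendsto (fun N : ℕ => ((N : ℝ) + n0)⁻¹ * AA K ν lam h N -
      ((Real.log 2 - 2 * Real.log c + ∫ ω, SS lam h n0 ω ∂(chargeLaw ν)) +
      (2 * p + 1) * Real.log ((N : ℝ) + (n0 + 2 : ℕ))) / ((N : ℝ) + n0)) atTop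
      (𝓝 (fr K ν lam h hM)) := by
    have h1 := tendsto_log_div (Real.log 2 - 2 * Real.log c + ∫ ω, SS lam h n0 ω ∂(chargeLaw ν))
      (2 * p + 1) (n0 + 2) n0
    have h2 : Tendsto (fun N : ℕ => ((N : ℝ) + n0)⁻¹ * AA K ν lam h N) atTop
        (𝓝 (fr K ν lam h hM)) := by
      have h3 : Tendsto (fun N : ℕ => (N : ℝ) / ((N : ℝ) + n0)) atTop (𝓝 1) := by
        have h3 : Tendsto (fun N : ℕ => 1 - (n0 : ℝ) / ((N : ℝ) + n0)) atTop (𝓝 (1 - 0)) :=
          tendsto_const_nhds.sub (tendsto_const_nhds.div_atTop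
            (tendsto_atTop_add_const_right _ _ tendsto_natCast_atTop_atTop))
        rw [sub_zero] at h3
        refine h3.congr' ?_
        filter_upwards [eventually_gt_atTop 0] with N hN0
        have : (0 : ℝ) < (N : ℝ) + n0 := by positivity
        field_simp
        ring
      have h4 := hfr.mul h3
      rw [mul_one] at h4
      refine h4.congr' ?_
      filter_upwards [eventually_gt_atTop 0] with N hN0
      have h5 : (0 : ℝ) < (N : ℝ) := by exact_mod_cast hN0
      have h6 : (0 : ℝ) < (N : ℝ) + n0 := by positivity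
      field_simp
    have := h2.sub h1
    rwa [sub_zero] at this
  refine tendsto_of_tendsto_of_tendsto_of_le_of_le' hlow hup ?_ ?_
  · filter_upwards [eventually_gt_atTop 0] with N hN0
    have h6 : (0 : ℝ) < (N : ℝ) + n0 := by positivity
    have h7 := AA_le_ee ν lam h hM hP N
    push_cast
    rw [inv_mul_eq_div, inv_mul_eq_div, ← sub_div]
    rw [add_comm n0 N] at h7
    gcongr
    push_cast at h7
    linarith
  · filter_upwards [eventually_gt_atTop 0] with N hN0
    gcongr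
    exact ee_le_AA ν lam h hM hP (N + n0)

theorem logMean_tendsto (hK0 : K 0 = 0) :
    Tendsto (fun N : ℕ => (N : ℝ)⁻¹ * logMean K ν lam h N) atTop
      (𝓝 (fr K ν lam h hM)) := by
  have h1 : ∀ N ω, partitionFn K lam h N ω = ZZ K lam h N ω :=
    fun N ω => partitionFn_eq_GG K lam h hK0 N ω
  unfold logMean
  simp_rw [h1]
  exact ee_tendsto ν lam h hM hP

theorem freeEnergy_eq (hK0 : K 0 = 0) : freeEnergy K ν lam h = fr K ν lam h hM := by
  unfold freeEnergy logMean
  apply Tendsto.limUnder_eq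
  have h1 : ∀ N ω, partitionFn K lam h N ω = ZZ K lam h N ω :=
    fun N ω => partitionFn_eq_GG K lam h hK0 N ω
  simp_rw [h1]
  exact ee_tendsto ν lam h hM hP

end Main

end Pool.Agent.Helper97.Copolymer
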