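import Pool.Agent.Helper97.Copolymer.Crit

open MeasureTheory ProbabilityTheory Filter Topology Set

namespace Pool.Agent.Helper97.Copolymer

open Pool.Agent.Helper97

theorem main_theorem (K : PMF ℕ) (α cK : ℝ) (hcK : 0 < cK) (hK0 : K 0 = 0)
    (hK : Tendsto (fun n : ℕ => (n : ℝ) ^ (1 + α) * (K n).toReal) atTop (𝓝 cK))
    (ν : Measure ℝ) [IsProbabilityMeasure ν]
    (hmean : ∫ x, x ∂ν = 0) (hvar : ∫ x, x ^ 2 ∂ν = 1)
    (hM : ∀ t : ℝ, Integrable (fun x => Real.exp (t * x)) ν) (lam : ℝ) (hlam : 0 < lam) :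
    ∃ hc : ℝ, 0 < hc ∧ (∀ h : ℝ, 0 ≤ h → (0 < freeEnergy K ν lam h ↔ h < hc)) ∧
      Tendsto (fun h => Real.log (muExponent K ν lam h) / Real.log (freeEnergy K ν lam h))
        (𝓝[<] hc) (𝓝 1) := by
  obtain ⟨c, p, n0, hP⟩ := polyLower_of_tendsto K α cK hcK hK
  have hfe : ∀ h, freeEnergy K ν lam h = fr K ν lam h hM :=
    fun h => freeEnergy_eq ν lam h hM hP hK0
  set f : ℝ → ℝ := fun h => freeEnergy K ν lam h with hf
  have hlip : ∀ h h', f h ≤ 2 * lam * |h - h'| + f h' := by
    intro h h'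
    have := fr_lip ν lam hP hK0 hM h h'
    rw [abs_of_pos hlam] at this
    simp only [hf, hfe]
    exact this
  have hanti : ∀ h h', h ≤ h' → f h' ≤ f h := by
    intro h h' hh
    simp only [hf, hfe]
    exact fr_anti ν lam hP hK0 hM hlam h h' hh
  have hnonneg : ∀ h, 0 ≤ f h := by
    intro h
    simp only [hf, hfe]
    exact fr_nonneg ν lam hM h
  have hf0 : 0 < f 0 := by
    simp only [hf, hfe]
    exact fr_zero_pos ν lam hP hM hmean hvar hlam
  -- the set of localised parameters
  set S : Set ℝ := {h | 0 ≤ h ∧ 0 < f h} with hS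
  have hstep : ∀ h, 0 ≤ h → 0 < f h → h + f h / (4 * lam) ∈ S := by
    intro h h0 hpos
    have hd : 0 < f h / (4 * lam) := by positivity
    refine ⟨by positivity, ?_⟩
    have h1 := hlip h (h + f h / (4 * lam))
    have h2 : |h - (h + f h / (4 * lam))| = f h / (4 * lam) := by
      rw [abs_sub_comm, add_sub_cancel_left, abs_of_pos hd]
    rw [h2] at h1
    have h3 : 2 * lam * (f h / (4 * lam)) = f h / 2 := by field_simp; ring
    rw [h3] at h1
    linarith
  have hSne : S.Nonempty := ⟨0, le_rfl, hf0⟩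
  have hSbdd : BddAbove S := by
    set M0 := ∫ x, Real.exp (-2 * lam * x) ∂ν with hM0
    have hM0pos : 0 < M0 := by
      rw [hM0]
      exact integral_exp_pos (hM (-2 * lam))
    set hs := max 0 (Real.log M0 / (2 * lam)) with hhs
    have hs1 : Real.log M0 ≤ 2 * lam * hs := by
      have := le_max_right 0 (Real.log M0 / (2 * lam))
      rw [div_le_iff₀ (by positivity)] at this
      linarith
    have hs2 : ∫ x, Real.exp (-2 * lam * (x + hs)) ∂ν ≤ 1 := by
      have e : ∀ x : ℝ, Real.exp (-2 * lam * (x + hs)) =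
          Real.exp (-(2 * lam * hs)) * Real.exp (-2 * lam * x) := by
        intro x; rw [← Real.exp_add]; congr 1; ring
      simp_rw [e]
      rw [integral_const_mul, ← hM0]
      calc Real.exp (-(2 * lam * hs)) * M0 ≤ Real.exp (-Real.log M0) * M0 := by gcongr
        _ = 1 := by rw [Real.exp_neg, Real.exp_log hM0pos]; field_simp
    have hfs : f hs = 0 := by
      simp only [hf, hfe]
      exact fr_eq_zero_of_large ν lam hP hs hM hs2
    refine ⟨hs, fun h hh => ?_⟩
    by_contra hcon
    push Not at hcon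
    have := hanti hs h hcon.le
    rw [hfs] at this
    linarith [hh.2]
  set hc := sSup S with hhc
  have hiff : ∀ h : ℝ, 0 ≤ h → (0 < f h ↔ h < hc) := by
    intro h h0
    constructor
    · intro hpos
      have h1 := le_csSup hSbdd (hstep h h0 hpos)
      have hd : 0 < f h / (4 * lam) := by positivity
      linarith
    · intro hlt
      obtain ⟨h', hh', hlt'⟩ := exists_lt_of_lt_csSup hSne hlt
      exact lt_of_lt_of_le hh'.2 (hanti h h' hlt'.le)
  have hcpos : 0 < hc := (hiff 0 le_rfl).1 hf0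
  refine ⟨hc, hcpos, hiff, ?_⟩
  have hfhc : f hc = 0 := by
    have h1 : ¬ 0 < f hc := fun h => lt_irrefl _ ((hiff hc hcpos.le).1 h)
    exact le_antisymm (not_lt.1 h1) (hnonneg hc)
  -- the free energy tends to zero
  have hftend : Tendsto f (𝓝[<] hc) (𝓝[>] 0) := by
    rw [tendsto_nhdsWithin_iff]
    constructor
    · have h1 : Tendsto (fun h => 2 * lam * |h - hc| + f hc) (𝓝[<] hc) (𝓝 0) := by
        have h2 : Continuous (fun h : ℝ => 2 * lam * |h - hc| + f hc) := by fun_prop
        have h3 := h2.tendsto hc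
        simp only [sub_self, abs_zero, mul_zero, zero_add, hfhc] at h3
        simp only [hfhc]
        exact h3.mono_left nhdsWithin_le_nhds
      exact tendsto_of_tendsto_of_tendsto_of_le_of_le tendsto_const_nhds h1
        (fun h => hnonneg h) (fun h => hlip h hc)
    · have h1 : ∀ᶠ h in 𝓝[<] hc, 0 < h :=
        (eventually_gt_nhds hcpos).filter_mono nhdsWithin_le_nhds
      filter_upwards [h1, self_mem_nhdsWithin] with h hh0 hhc
      exact (hiff h hh0.le).2 hhc
  obtain ⟨c2, f0, hc2, hf0pos, hf01, hquant⟩ :=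
    quantitative ν lam hP hK0 hM hmean hlam (hc / 2) hc (by positivity)
  -- logarithmic scale
  have hy : Tendsto (fun h => Real.log (1 / f h)) (𝓝[<] hc) atTop := by
    have h1 : Tendsto (fun h => 1 / f h) (𝓝[<] hc) atTop := by
      simp only [one_div]
      exact tendsto_inv_nhdsGT_zero.comp hftend
    exact Real.tendsto_log_atTop.comp h1
  have hup : Tendsto (fun h => 1 + (Real.log (Real.log (1 / f h)) - Real.log c2) /
      Real.log (1 / f h)) (𝓝[<] hc) (𝓝 1) := by
    have h1 : Tendsto (fun y : ℝ => 1 + (Real.log y - Real.log c2) / y) atTop (𝓝 (1 + (0 - 0))) := by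
      have h2 : Tendsto (fun y : ℝ => Real.log y / y) atTop (𝓝 0) :=
        Real.isLittleO_log_id_atTop.tendsto_div_nhds_zero
      have h3 : Tendsto (fun y : ℝ => Real.log c2 / y) atTop (𝓝 0) :=
        tendsto_const_nhds.div_atTop tendsto_id
      have h4 := (tendsto_const_nhds (x := (1 : ℝ))).add (h2.sub h3)
      refine h4.congr fun y => ?_
      rw [sub_div]
    rw [sub_zero, add_zero] at h1
    exact h1.comp hy
  refine tendsto_of_tendsto_of_tendsto_of_le_of_le' tendsto_const_nhds hup ?_ ?_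
  all_goals
    have e1 : ∀ᶠ h in 𝓝[<] hc, f h < f0 :=
      ((tendsto_nhds_of_tendsto_nhdsWithin hftend).eventually (eventually_lt_nhds hf0pos))
    have e2 : ∀ᶠ h in 𝓝[<] hc, hc / 2 < h :=
      (eventually_gt_nhds (by linarith : hc / 2 < hc)).filter_mono nhdsWithin_le_nhds
    filter_upwards [e1, e2, self_mem_nhdsWithin, hy.eventually_gt_atTop 1] with h h1 h2 h3 h4
    have hpos : 0 < f h := (hiff h (by linarith)).2 h3
    have hq := hquant h h2.le (le_of_lt h3) hpos h1.le
    have hmu := (muExponent_spec ν lam h hP hK0 hM).2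
    rw [← hfe h] at hmu
    have hypos : 0 < Real.log (1 / f h) := by linarith
    have hlow : 0 < c2 * f h / Real.log (1 / f h) := by positivity
    have hmupos : 0 < muExponent K ν lam h := lt_of_lt_of_le hlow hq
    have hlogf : Real.log (freeEnergy K ν lam h) = -Real.log (1 / f h) := by
      rw [one_div, Real.log_inv, neg_neg]
    rw [hlogf, div_neg, ← neg_div]
  · rw [le_div_iff₀ hypos, one_mul]
    have := Real.log_le_log hmupos hmu
    rw [hlogf] at this
    linarith
  · rw [div_le_iff₀ hypos, add_mul, one_mul, div_mul_cancel₀ _ hypos.ne']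
    have := Real.log_le_log hlow hq
    rw [Real.log_div (by positivity) hypos.ne', Real.log_mul hc2.ne' hpos.ne'] at this
    have h5 : Real.log (f h) = -Real.log (1 / f h) := hlogf
    rw [h5] at this
    linarith

theorem main_theorem' (K : PMF ℕ) (α cK : ℝ) (hcK : 0 < cK) (hK0 : K 0 = 0)
    (hK : Tendsto (fun n : ℕ => (n : ℝ) ^ (1 + α) * (K n).toReal) atTop (𝓝 cK))
    (ν : Measure ℝ) [IsProbabilityMeasure ν]
    (hmean : ∫ x, x ∂ν = 0) (hvar : ∫ x, x ^ 2 ∂ν = 1)
    (hM : ∀ t : ℝ, Integrable (fun x => Real.exp (t * x)) ν) (lam : ℝ) (hlam : 0 < lam) :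
    ∃ f μ : ℝ → ℝ,
      (∀ h : ℝ, Tendsto (fun N : ℕ => (N : ℝ)⁻¹ * logMean K ν lam h N) atTop (𝓝 (f h))) ∧
      (∀ h : ℝ, Tendsto (fun N : ℕ => -((N : ℝ)⁻¹ * Real.log (invMean K ν lam h N))) atTop
        (𝓝 (μ h))) ∧
      ∃ hc : ℝ, 0 < hc ∧ (∀ h : ℝ, 0 ≤ h → (0 < f h ↔ h < hc)) ∧
        Tendsto (fun h => Real.log (μ h) / Real.log (f h)) (𝓝[<] hc) (𝓝 1) := by
  obtain ⟨c, p, n0, hP⟩ := polyLower_of_tendsto K α cK hcK hK
  refine ⟨fun h => freeEnergy K ν lam h, fun h => muExponent K ν lam h, ?_, ?_,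
    main_theorem K α cK hcK hK0 hK ν hmean hvar hM lam hlam⟩
  · intro h
    simp only
    rw [freeEnergy_eq ν lam h hM hP hK0]
    exact logMean_tendsto ν lam h hM hP hK0
  · intro h
    exact muExponent_tendsto ν lam h hP hK0 hM

end Pool.Agent.Helper97.Copolymer
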