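import Pool.Agent.Helper97.Copolymer.Lim

open MeasureTheory ProbabilityTheory Filter Topology Set

namespace Pool.Agent.Helper97.Copolymer

open Pool.Agent.Helper97

variable (K : PMF ℕ) (ν : Measure ℝ) [IsProbabilityMeasure ν] (lam h : ℝ)

/-- the normalised inverse partition function -/
noncomputable def VV (N : ℕ) (ω : ℕ → ℝ) : ℝ :=
  (1 + Real.exp (xs lam h N ω)) * (ZZ K lam h N ω)⁻¹

/-- the annealed quantity defining `μ` -/
noncomputable def uu (N : ℕ) : ℝ := ∫ ω, VV K lam h N ω ∂(chargeLaw ν)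

@[fun_prop]
lemma measurable_VV (N : ℕ) : Measurable (VV K lam h N) := by
  unfold VV
  have := measurable_ZZ K lam h N
  fun_prop

lemma depLT_VV (N : ℕ) : DepLT N (VV K lam h N) := by
  intro ω ω' hω
  unfold VV
  rw [depLT_xs lam h N ω ω' hω, depLT_ZZ K lam h N ω ω' hω]

lemma depLT_SS (N : ℕ) : DepLT N (SS lam h N) := by
  intro ω ω' hω
  unfold SS
  refine Finset.sum_congr rfl fun i hi => ?_
  rw [hω i (Finset.mem_range.1 hi)]

@[fun_prop]
lemma measurable_SS (N : ℕ) : Measurable (SS lam h N) := by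
  unfold SS; fun_prop

section Exp2

variable (hM : ∀ t : ℝ, Integrable (fun x => Real.exp (t * x)) ν)
include hM

omit [IsProbabilityMeasure ν] in
lemma integrable_exp_abs_add (t : ℝ) (ht : 0 ≤ t) :
    Integrable (fun x => Real.exp (t * |x + h|)) ν := by
  refine Integrable.mono' ((integrable_exp_abs ν hM t).const_mul (Real.exp (t * |h|)))
    (by apply Measurable.aestronglyMeasurable; fun_prop) (ae_of_all _ fun x => ?_)
  rw [Real.norm_eq_abs, abs_of_pos (Real.exp_pos _), ← Real.exp_add]
  apply Real.exp_le_exp.2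
  have := abs_add_le x h
  nlinarith

lemma integrable_exp_SS (t : ℝ) (ht : 0 ≤ t) (n : ℕ) :
    Integrable (fun ω => Real.exp (t * SS lam h n ω)) (chargeLaw ν) := by
  induction n with
  | zero => simp [SS]
  | succ n ih =>
    have e : ∀ ω, Real.exp (t * SS lam h (n + 1) ω) =
        Real.exp (t * SS lam h 1 ω) * Real.exp (t * SS lam h n (shift 1 ω)) := by
      intro ω
      rw [add_comm n 1, SS_add, mul_add, Real.exp_add]
    simp_rw [e]
    refine integrable_mul_shift' ν 1 (fun ω => Real.exp (t * SS lam h 1 ω))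
      (fun ω => Real.exp (t * SS lam h n ω)) ?_ (by fun_prop) (by fun_prop) ?_ ih
    · intro ω ω' hω
      simp only
      rw [depLT_SS lam h 1 ω ω' hω]
    · have : ∀ ω : ℕ → ℝ, Real.exp (t * SS lam h 1 ω) =
          (fun x : ℝ => Real.exp (t * (2 * |lam|) * |x + h|)) (ω 0) := by
        intro ω; simp only [SS, Finset.sum_range_one]; congr 1; ring
      simp_rw [this]
      exact charge_coord_integrable ν _ (integrable_exp_abs_add ν h hM _ (by positivity)) 0

end Exp2

/-- exponential moment of the energy of a short stretch -/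
noncomputable def EE (n : ℕ) : ℝ := ∫ ω, Real.exp (2 * SS lam h n ω) ∂(chargeLaw ν)

lemma one_le_EE (hM : ∀ t : ℝ, Integrable (fun x => Real.exp (t * x)) ν) (n : ℕ) :
    1 ≤ EE ν lam h n := by
  unfold EE
  have h1 : ∫ _ω : ℕ → ℝ, (1 : ℝ) ∂(chargeLaw ν) = 1 := by simp
  rw [← h1]
  refine integral_mono (integrable_const _) (integrable_exp_SS ν lam h hM 2 (by norm_num) n)
    (fun ω => ?_)
  exact Real.one_le_exp (by have := SS_nonneg lam h n ω; positivity)

variable {K} {c : ℝ} {p n0 : ℕ} (hP : PolyLower K c p n0)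

include hP

lemma VV_pos (N : ℕ) (ω : ℕ → ℝ) : 0 < VV K lam h N ω := by
  unfold VV
  have := ZZ_pos lam h hP N ω
  positivity

lemma VV_le (N : ℕ) (ω : ℕ → ℝ) : VV K lam h N ω ≤ 2 / gg c p N := by
  unfold VV
  have h1 := ZZ_ge lam h hP N ω
  have h2 := ZZ_pos lam h hP N ω
  have hg := gg_pos hP.cpos p N
  rw [← div_eq_mul_inv, div_le_div_iff₀ h2 hg]
  unfold psi at h1
  linarith

omit hP in
lemma VV_eq_psi (N : ℕ) (ω : ℕ → ℝ) :
    VV K lam h N ω = 2 * psi lam h N ω / ZZ K lam h N ω := by
  unfold VV psi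
  rw [← div_eq_mul_inv]; ring_nf

lemma integrable_VV (N : ℕ) : Integrable (VV K lam h N) (chargeLaw ν) := by
  refine Integrable.of_bound (measurable_VV K lam h N).aestronglyMeasurable (2 / gg c p N)
    (ae_of_all _ fun ω => ?_)
  rw [Real.norm_eq_abs, abs_of_pos (VV_pos lam h hP N ω)]
  exact VV_le lam h hP N ω

lemma VV_submul (N M : ℕ) (ω : ℕ → ℝ) :
    VV K lam h (N + n0 + M) ω ≤ (gg c p (N + n0))⁻¹ * (VV K lam h N ω *
      (Real.exp (2 * SS lam h n0 (shift N ω)) * VV K lam h M (shift n0 (shift N ω)))) := by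
  have h1 := ZZ_supermul lam h hP N M ω
  have hZ1 := ZZ_pos lam h hP N ω
  have hZ2 := ZZ_pos lam h hP M (shift (N + n0) ω)
  have hZ3 := ZZ_pos lam h hP (N + n0 + M) ω
  have hg := gg_pos hP.cpos p (N + n0)
  rw [shift_shift]
  unfold VV
  rw [xs_add, xs_add]
  set a := xs lam h N ω
  set b := xs lam h n0 (shift N ω)
  set d := xs lam h M (shift (N + n0) ω)
  set S := SS lam h n0 (shift N ω) with hS
  have hb : |b| ≤ S := abs_xs_le_SS lam h n0 (shift N ω)
  set Z1 := ZZ K lam h N ω
  set Z2 := ZZ K lam h M (shift (N + n0) ω)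
  set Z3 := ZZ K lam h (N + n0 + M) ω
  have h2 : 1 + Real.exp (a + b + d) ≤ Real.exp S * ((1 + Real.exp a) * (1 + Real.exp d)) := by
    have e1 : Real.exp b ≤ Real.exp S := Real.exp_le_exp.2 ((le_abs_self b).trans hb)
    have e2 : 1 ≤ Real.exp S := Real.one_le_exp ((abs_nonneg b).trans hb)
    rw [Real.exp_add, Real.exp_add]
    have ha := Real.exp_pos a
    have hd := Real.exp_pos d
    have : Real.exp a * Real.exp b * Real.exp d ≤ Real.exp a * Real.exp S * Real.exp d := by
      gcongr
    nlinarith [mul_pos ha hd, mul_pos ha (Real.exp_pos S), mul_pos hd (Real.exp_pos S)]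
  have h3 : Z3⁻¹ ≤ (gg c p (N + n0))⁻¹ * Real.exp S * Z1⁻¹ * Z2⁻¹ := by
    have e3 : gg c p (N + n0) * Real.exp (-S) * Z1 * Z2 ≤ Z3 := by
      refine le_trans ?_ h1
      gcongr
    have e4 : (gg c p (N + n0))⁻¹ * Real.exp S * Z1⁻¹ * Z2⁻¹ =
        (gg c p (N + n0) * Real.exp (-S) * Z1 * Z2)⁻¹ := by
      rw [Real.exp_neg]
      field_simp
    rw [e4]
    exact inv_anti₀ (by positivity) e3
  calc (1 + Real.exp (a + b + d)) * Z3⁻¹
      ≤ (Real.exp S * ((1 + Real.exp a) * (1 + Real.exp d))) *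
        ((gg c p (N + n0))⁻¹ * Real.exp S * Z1⁻¹ * Z2⁻¹) := by gcongr
    _ = _ := by
        have : Real.exp (2 * S) = Real.exp S * Real.exp S := by
          rw [← Real.exp_add]; ring_nf
        rw [this]; ring

lemma uu_submul (hM : ∀ t : ℝ, Integrable (fun x => Real.exp (t * x)) ν) (N M : ℕ) :
    uu K ν lam h (N + n0 + M) ≤ (gg c p (N + n0))⁻¹ * (uu K ν lam h N *
      (EE ν lam h n0 * uu K ν lam h M)) := by
  have i1 := integrable_VV ν lam h hP N
  have i2 := integrable_exp_SS ν lam h hM 2 (by norm_num) n0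
  have i3 := integrable_VV ν lam h hP M
  have i4 : Integrable (fun ω => Real.exp (2 * SS lam h n0 ω) * VV K lam h M (shift n0 ω))
      (chargeLaw ν) := by
    refine integrable_mul_shift' ν n0 (fun ω => Real.exp (2 * SS lam h n0 ω)) (VV K lam h M)
      ?_ (by fun_prop) (measurable_VV K lam h M) i2 i3
    intro ω ω' hω
    simp only
    rw [depLT_SS lam h n0 ω ω' hω]
  have i5 : Integrable (fun ω => VV K lam h N ω *
      (Real.exp (2 * SS lam h n0 (shift N ω)) * VV K lam h M (shift n0 (shift N ω))))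
      (chargeLaw ν) :=
    integrable_mul_shift' ν N (VV K lam h N)
      (fun ω => Real.exp (2 * SS lam h n0 ω) * VV K lam h M (shift n0 ω))
      (depLT_VV K lam h N) (by fun_prop) (by fun_prop) i1 i4
  unfold uu EE
  calc ∫ ω, VV K lam h (N + n0 + M) ω ∂(chargeLaw ν)
      ≤ ∫ ω, (gg c p (N + n0))⁻¹ * (VV K lam h N ω *
      (Real.exp (2 * SS lam h n0 (shift N ω)) * VV K lam h M (shift n0 (shift N ω))))
      ∂(chargeLaw ν) :=
        integral_mono (integrable_VV ν lam h hP _) (i5.const_mul _)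
          (fun ω => VV_submul lam h hP N M ω)
    _ = _ := by
        rw [integral_const_mul]
        congr 1
        rw [integral_mul_shift' ν N (VV K lam h N)
          (fun ω => Real.exp (2 * SS lam h n0 ω) * VV K lam h M (shift n0 ω))
          (depLT_VV K lam h N) (by fun_prop) (by fun_prop)]
        congr 1
        rw [integral_mul_shift' ν n0 (fun ω => Real.exp (2 * SS lam h n0 ω)) (VV K lam h M)
          _ (by fun_prop) (measurable_VV K lam h M)]
        intro ω ω' hω
        simp only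
        rw [depLT_SS lam h n0 ω ω' hω]

lemma uu_ge (hM : ∀ t : ℝ, Integrable (fun x => Real.exp (t * x)) ν) (N : ℕ) :
    Real.exp (-ee K ν lam h N) ≤ uu K ν lam h N := by
  have i1 := integrable_VV ν lam h hP N
  have i2 := integrable_log_ZZ ν lam h hM hP N
  set m := ee K ν lam h N with hm
  have h1 : ∫ ω, Real.exp (-m) * (1 - (Real.log (ZZ K lam h N ω) - m)) ∂(chargeLaw ν) =
      Real.exp (-m) := by
    have i3 : Integrable (fun ω => Real.log (ZZ K lam h N ω) - m) (chargeLaw ν) :=
      i2.sub (integrable_const m)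
    rw [integral_const_mul, integral_sub (f := fun _ => (1 : ℝ)) (integrable_const 1) i3,
      integral_sub i2 (integrable_const _)]
    have : ∫ ω, Real.log (ZZ K lam h N ω) ∂(chargeLaw ν) = m := rfl
    rw [this]
    simp
  rw [← h1]
  unfold uu
  refine integral_mono (((integrable_const _).sub (i2.sub (integrable_const _))).const_mul _) i1
    (fun ω => ?_)
  simp only
  have hZ := ZZ_pos lam h hP N ω
  have h2 : (ZZ K lam h N ω)⁻¹ = Real.exp (-m) * Real.exp (-(Real.log (ZZ K lam h N ω) - m)) := by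
    rw [← Real.exp_add]
    have : -m + -(Real.log (ZZ K lam h N ω) - m) = -Real.log (ZZ K lam h N ω) := by ring
    rw [this, Real.exp_neg, Real.exp_log hZ]
  have h3 : (ZZ K lam h N ω)⁻¹ ≤ VV K lam h N ω := by
    unfold VV
    have h4 : 0 < (ZZ K lam h N ω)⁻¹ := by positivity
    have h5 := Real.exp_pos (xs lam h N ω)
    nlinarith
  refine le_trans ?_ h3
  rw [h2]
  refine mul_le_mul_of_nonneg_left ?_ (Real.exp_pos _).le
  have := Real.add_one_le_exp (-(Real.log (ZZ K lam h N ω) - m))
  linarith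

lemma uu_pos (hM : ∀ t : ℝ, Integrable (fun x => Real.exp (t * x)) ν) (N : ℕ) :
    0 < uu K ν lam h N := lt_of_lt_of_le (Real.exp_pos _) (uu_ge ν lam h hP hM N)

/-- error term in the submultiplicativity of `uu` -/
noncomputable def CC (c : ℝ) (p n0 : ℕ) (ν : Measure ℝ) (lam h : ℝ) (N : ℕ) : ℝ :=
  Real.log (EE ν lam h n0 / gg c p (N + n0))

lemma CC_nonneg (hM : ∀ t : ℝ, Integrable (fun x => Real.exp (t * x)) ν) (N : ℕ) :
    0 ≤ CC c p n0 ν lam h N := by
  unfold CC
  have h1 := one_le_EE ν lam h hM n0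
  have h2 := gg_pos hP.cpos p (N + n0)
  have h3 := gg_le_one hP.cpos hP.cle p (N + n0)
  apply Real.log_nonneg
  rw [one_le_div h2]
  linarith

lemma CC_tendsto (hM : ∀ t : ℝ, Integrable (fun x => Real.exp (t * x)) ν) :
    Tendsto (fun N : ℕ => CC c p n0 ν lam h N / N) atTop (𝓝 0) := by
  have h1 := tendsto_log_div (Real.log (EE ν lam h n0) - Real.log c) p (n0 + 1) 0
  refine h1.congr fun N => ?_
  have h2 := one_le_EE ν lam h hM n0
  have h3 := gg_pos hP.cpos p (N + n0)
  have hc := hP.cpos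
  have e1 : CC c p n0 ν lam h N = Real.log (EE ν lam h n0) - Real.log c +
      p * Real.log ((N : ℝ) + (n0 + 1 : ℕ)) := by
    unfold CC gg
    rw [Real.log_div (by positivity) (by positivity), Real.log_div hc.ne' (by positivity),
      Real.log_pow]
    push_cast
    ring_nf
  rw [e1]
  simp

theorem uu_limit (hM : ∀ t : ℝ, Integrable (fun x => Real.exp (t * x)) ν) :
    ∃ L, Tendsto (fun N : ℕ => (N : ℝ)⁻¹ * Real.log (uu K ν lam h N)) atTop (𝓝 L) ∧
      ∀ N : ℕ, L ≤ (Real.log (uu K ν lam h N) + CC c p n0 ν lam h N) / ((N : ℝ) + n0) := by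
  refine conv_lemma (fun N => Real.log (uu K ν lam h N)) (CC c p n0 ν lam h) n0 hP.n0pos
    (CC_nonneg ν lam h hP hM) (CC_tendsto ν lam h hP hM) ?_ (AA K ν lam h 1)
    (AA_nonneg K ν lam h 1) ?_
  · intro N M
    have h1 := uu_submul ν lam h hP hM N M
    have u1 := uu_pos ν lam h hP hM (N + n0 + M)
    have u2 := uu_pos ν lam h hP hM N
    have u3 := uu_pos ν lam h hP hM M
    have h2 := one_le_EE ν lam h hM n0
    have h3 := gg_pos hP.cpos p (N + n0)
    have h4 := Real.log_le_log u1 h1
    have hEE : 0 < EE ν lam h n0 := by linarith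
    rw [Real.log_mul (by positivity) (by positivity), Real.log_mul (by positivity)
      (by positivity), Real.log_mul (by positivity) (by positivity), Real.log_inv] at h4
    unfold CC
    rw [Real.log_div (by positivity) (by positivity)]
    linarith
  · intro N
    rcases Nat.eq_zero_or_pos N with rfl | hN
    · have h1 : (1 : ℝ) ≤ uu K ν lam h 0 := by
        unfold uu
        have h1 : ∫ _ω : ℕ → ℝ, (1 : ℝ) ∂(chargeLaw ν) = 1 := by simp
        rw [← h1]
        refine integral_mono (integrable_const _) (integrable_VV ν lam h hP 0) (fun ω => ?_)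
        rw [VV_eq_psi lam h, psi_zero]
        have h2 := ZZ_le_RR K lam h 0 ω
        rw [RR_zero] at h2
        have h3 := ZZ_pos lam h hP 0 ω
        rw [le_div_iff₀ h3]
        linarith
      simpa using Real.log_nonneg h1
    · have h1 := uu_ge ν lam h hP hM N
      have h2 := Real.log_le_log (Real.exp_pos _) h1
      rw [Real.log_exp] at h2
      have h3 := ee_le_AA ν lam h hM hP N
      have h4 : AA K ν lam h N ≤ N * AA K ν lam h 1 := by
        have hs := AA_subadditive K ν lam h hM
        clear h1 h2 h3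
        induction N, hN using Nat.le_induction with
        | base => simp
        | succ n hn ih =>
          have := hs n 1
          push_cast
          linarith
      nlinarith

theorem muExponent_tendsto (hK0 : K 0 = 0)
    (hM : ∀ t : ℝ, Integrable (fun x => Real.exp (t * x)) ν) :
    Tendsto (fun N : ℕ => -((N : ℝ)⁻¹ * Real.log (invMean K ν lam h N))) atTop
      (𝓝 (muExponent K ν lam h)) := by
  obtain ⟨L, hL, hL2⟩ := uu_limit ν lam h hP hM
  have h0 : ∀ N ω, partitionFn K lam h N ω = ZZ K lam h N ω :=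
    fun N ω => partitionFn_eq_GG K lam h hK0 N ω
  have h1 : muExponent K ν lam h = -L := by
    unfold muExponent invMean
    congr 1
    apply Tendsto.limUnder_eq
    simp_rw [h0]
    exact hL
  rw [h1]
  unfold invMean
  simp_rw [h0]
  exact hL.neg

theorem muExponent_spec (hK0 : K 0 = 0)
    (hM : ∀ t : ℝ, Integrable (fun x => Real.exp (t * x)) ν) :
    (∀ N : ℕ, -((Real.log (uu K ν lam h N) + CC c p n0 ν lam h N) / ((N : ℝ) + n0)) ≤
      muExponent K ν lam h) ∧ muExponent K ν lam h ≤ fr K ν lam h hM := by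
  obtain ⟨L, hL, hL2⟩ := uu_limit ν lam h hP hM
  have h1 : muExponent K ν lam h = -L := by
    unfold muExponent invMean
    congr 1
    apply Tendsto.limUnder_eq
    have h1 : ∀ N ω, partitionFn K lam h N ω = ZZ K lam h N ω :=
      fun N ω => partitionFn_eq_GG K lam h hK0 N ω
    simp_rw [h1]
    exact hL
  rw [h1]
  constructor
  · intro N
    have := hL2 N
    linarith
  · have h2 := ee_tendsto ν lam h hM hP
    have h3 : Tendsto (fun N : ℕ => -((N : ℝ)⁻¹ * Real.log (uu K ν lam h N))) atTop (𝓝 (-L)) :=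
      hL.neg
    refine le_of_tendsto_of_tendsto' h3 h2 fun N => ?_
    have h4 := uu_ge ν lam h hP hM N
    have h5 := Real.log_le_log (Real.exp_pos _) h4
    rw [Real.log_exp] at h5
    have h6 : (0 : ℝ) ≤ (N : ℝ)⁻¹ := by positivity
    nlinarith

end Pool.Agent.Helper97.Copolymer
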