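import Pool.Agent.Helper97.Copolymer.Det

open MeasureTheory ProbabilityTheory Filter Topology Set

namespace Pool.Agent.Helper97.Copolymer

open Pool.Agent.Helper97

section Basic

variable (K : PMF ℕ) (lam h : ℝ)

@[fun_prop]
lemma measurable_xs (n : ℕ) : Measurable (xs lam h n) := by
  unfold xs; fun_prop

@[fun_prop]
lemma measurable_psi (n : ℕ) : Measurable (psi lam h n) := by
  unfold psi; fun_prop

@[fun_prop]
lemma measurable_GG (b : ℕ → ℝ) (N : ℕ) : Measurable (GG K lam h b N) := by
  induction N using Nat.strong_induction_on with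
  | _ N ih =>
    have : GG K lam h b N = fun ω => b N * psi lam h N ω +
      ∑ j ∈ Finset.range N, kk K (j + 1) * psi lam h (j + 1) ω *
        GG K lam h b (N - (j + 1)) (shift (j + 1) ω) := by
      funext ω; exact GG_eq K lam h b N ω
    rw [this]
    refine Measurable.add (by fun_prop) (Finset.measurable_sum _ fun j hj => ?_)
    rw [Finset.mem_range] at hj
    have h1 := (ih (N - (j + 1)) (by omega)).comp (measurable_shift (X := ℝ) (j + 1))
    exact (by fun_prop : Measurable (fun ω => kk K (j + 1) * psi lam h (j + 1) ω)).mul h1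

@[fun_prop]
lemma measurable_RR (N : ℕ) : Measurable (RR K lam h N) := measurable_GG K lam h _ N

@[fun_prop]
lemma measurable_ZZ (N : ℕ) : Measurable (ZZ K lam h N) := measurable_GG K lam h _ N

@[fun_prop]
lemma measurable_WW (N : ℕ) : Measurable (WW K lam h N) := by
  unfold WW
  refine Measurable.add (by fun_prop) (Finset.measurable_sum _ fun j hj => ?_)
  exact (by fun_prop : Measurable (fun ω => psi lam h j ω)).mul
    ((measurable_RR K lam h (N - j)).comp (measurable_shift (X := ℝ) j))

lemma depLT_xs (n : ℕ) : DepLT n (xs lam h n) := by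
  intro ω ω' hω
  unfold xs
  congr 1
  refine Finset.sum_congr rfl fun i hi => ?_
  rw [hω i (Finset.mem_range.1 hi)]

lemma depLT_psi (n : ℕ) : DepLT n (psi lam h n) := by
  intro ω ω' hω
  unfold psi
  rw [depLT_xs lam h n ω ω' hω]

lemma depLT_mono {X β : Type*} {m n : ℕ} (hmn : m ≤ n) {F : (ℕ → X) → β} (hF : DepLT m F) :
    DepLT n F := fun ω ω' hω => hF ω ω' (fun i hi => hω i (by omega))

lemma depLT_shift {X β : Type*} {m n a : ℕ} (hmn : a + m ≤ n) {F : (ℕ → X) → β}
    (hF : DepLT m F) : DepLT n (fun ω => F (Helper97.shift a ω)) :=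
  fun ω ω' hω => hF _ _ (fun i hi => hω (a + i) (by omega))

lemma depLT_GG (b : ℕ → ℝ) (N : ℕ) : DepLT N (GG K lam h b N) := by
  induction N using Nat.strong_induction_on with
  | _ N ih =>
    intro ω ω' hω
    rw [GG_eq, GG_eq, depLT_psi lam h N ω ω' hω]
    congr 1
    refine Finset.sum_congr rfl fun j hj => ?_
    rw [Finset.mem_range] at hj
    rw [depLT_mono (n := N) (by omega) (depLT_psi lam h (j + 1)) ω ω' hω,
      ih (N - (j + 1)) (by omega) (shift (j + 1) ω) (shift (j + 1) ω')
      (fun i hi => hω (j + 1 + i) (by omega))]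

lemma depLT_RR (N : ℕ) : DepLT N (RR K lam h N) := depLT_GG K lam h _ N

lemma depLT_ZZ (N : ℕ) : DepLT N (ZZ K lam h N) := depLT_GG K lam h _ N

lemma depLT_WW (N : ℕ) : DepLT N (WW K lam h N) := by
  intro ω ω' hω
  unfold WW
  rw [depLT_psi lam h N ω ω' hω]
  congr 1
  refine Finset.sum_congr rfl fun j hj => ?_
  rw [Finset.mem_range] at hj
  rw [depLT_mono (n := N) (by omega) (depLT_psi lam h j) ω ω' hω,
      depLT_RR K lam h (N - j) (shift j ω) (shift j ω')
      (fun i hi => hω (j + i) (by omega))]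

/-- total energy budget -/
noncomputable def SS (n : ℕ) (ω : ℕ → ℝ) : ℝ := ∑ i ∈ Finset.range n, 2 * |lam| * |ω i + h|

lemma SS_nonneg (n : ℕ) (ω : ℕ → ℝ) : 0 ≤ SS lam h n ω :=
  Finset.sum_nonneg fun _ _ => by positivity

lemma SS_add (m n : ℕ) (ω : ℕ → ℝ) :
    SS lam h (m + n) ω = SS lam h m ω + SS lam h n (shift m ω) := by
  unfold SS
  rw [Finset.sum_range_add]
  rfl

lemma abs_xs_le_SS (n : ℕ) (ω : ℕ → ℝ) : |xs lam h n ω| ≤ SS lam h n ω := by
  unfold xs SS
  rw [abs_mul, abs_mul, ← Finset.mul_sum]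
  have : |(-2 : ℝ)| = 2 := by norm_num
  rw [this]
  exact mul_le_mul_of_nonneg_left (Finset.abs_sum_le_sum_abs _ _) (by positivity)

lemma psi_le_exp_SS (n : ℕ) (ω : ℕ → ℝ) : psi lam h n ω ≤ Real.exp (SS lam h n ω) := by
  unfold psi
  have h1 : Real.exp (xs lam h n ω) ≤ Real.exp (SS lam h n ω) :=
    Real.exp_le_exp.2 ((le_abs_self _).trans (abs_xs_le_SS lam h n ω))
  have h2 : 1 ≤ Real.exp (SS lam h n ω) := Real.one_le_exp (SS_nonneg lam h n ω)
  linarith

lemma RR_le (N : ℕ) (ω : ℕ → ℝ) : RR K lam h N ω ≤ (N + 1) * Real.exp (SS lam h N ω) := by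
  induction N using Nat.strong_induction_on generalizing ω with
  | _ N ih =>
    rw [RR_eq]
    have h1 : ∑ j ∈ Finset.range N, kk K (j + 1) * psi lam h (j + 1) ω *
        RR K lam h (N - (j + 1)) (shift (j + 1) ω) ≤
        ∑ j ∈ Finset.range N, kk K (j + 1) * (N * Real.exp (SS lam h N ω)) := by
      refine Finset.sum_le_sum fun j hj => ?_
      rw [Finset.mem_range] at hj
      have h2 := ih (N - (j + 1)) (by omega) (shift (j + 1) ω)
      have h3 := psi_le_exp_SS lam h (j + 1) ω
      have h4 := RR_nonneg K lam h (N - (j + 1)) (shift (j + 1) ω)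
      have h5 : SS lam h N ω = SS lam h (j + 1) ω +
          SS lam h (N - (j + 1)) (shift (j + 1) ω) := by
        rw [← SS_add]; congr 1; omega
      rw [h5, Real.exp_add, mul_assoc]
      refine mul_le_mul_of_nonneg_left ?_ (kk_nonneg K _)
      have h6 : ((N - (j + 1) : ℕ) : ℝ) + 1 ≤ N := by
        have : N - (j + 1) + 1 ≤ N := by omega
        exact_mod_cast this
      calc psi lam h (j + 1) ω * RR K lam h (N - (j + 1)) (shift (j + 1) ω)
          ≤ Real.exp (SS lam h (j + 1) ω) * ((((N - (j + 1) : ℕ) : ℝ) + 1) *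
            Real.exp (SS lam h (N - (j + 1)) (shift (j + 1) ω))) :=
            mul_le_mul h3 h2 h4 (Real.exp_pos _).le
        _ ≤ Real.exp (SS lam h (j + 1) ω) * (N *
            Real.exp (SS lam h (N - (j + 1)) (shift (j + 1) ω))) := by gcongr
        _ = _ := by ring
    rw [← Finset.sum_mul] at h1
    have h2 : ∑ j ∈ Finset.range N, kk K (j + 1) ≤ 1 := by
      have := sum_kk_le_one K ((Finset.range N).map ⟨fun j => j + 1, add_left_injective 1⟩)
      rw [Finset.sum_map] at this
      simpa using this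
    have h3 : 0 ≤ (N : ℝ) * Real.exp (SS lam h N ω) := by positivity
    have h4 := psi_le_exp_SS lam h N ω
    have h5 : (∑ j ∈ Finset.range N, kk K (j + 1)) * (N * Real.exp (SS lam h N ω)) ≤
        1 * (N * Real.exp (SS lam h N ω)) := mul_le_mul_of_nonneg_right h2 h3
    linarith

lemma WW_le (N : ℕ) (ω : ℕ → ℝ) :
    WW K lam h N ω ≤ (1 + (N + 1) ^ 2) * Real.exp (SS lam h N ω) := by
  unfold WW
  have h1 : ∑ j ∈ Finset.range (N + 1), psi lam h j ω * RR K lam h (N - j) (shift j ω) ≤
      ∑ j ∈ Finset.range (N + 1), (N + 1) * Real.exp (SS lam h N ω) := by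
    refine Finset.sum_le_sum fun j hj => ?_
    rw [Finset.mem_range] at hj
    have h2 := RR_le K lam h (N - j) (shift j ω)
    have h3 := psi_le_exp_SS lam h j ω
    have h4 := RR_nonneg K lam h (N - j) (shift j ω)
    have h5 : SS lam h N ω = SS lam h j ω + SS lam h (N - j) (shift j ω) := by
      rw [← SS_add]; congr 1; omega
    rw [h5, Real.exp_add]
    have h6 : ((N - j : ℕ) : ℝ) + 1 ≤ N + 1 := by
      have : N - j + 1 ≤ N + 1 := by omega
      exact_mod_cast this
    calc psi lam h j ω * RR K lam h (N - j) (shift j ω)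
        ≤ Real.exp (SS lam h j ω) * ((((N - j : ℕ) : ℝ) + 1) *
          Real.exp (SS lam h (N - j) (shift j ω))) :=
          mul_le_mul h3 h2 h4 (Real.exp_pos _).le
      _ ≤ Real.exp (SS lam h j ω) * ((N + 1) *
          Real.exp (SS lam h (N - j) (shift j ω))) := by gcongr
      _ = _ := by ring
  rw [Finset.sum_const, Finset.card_range, nsmul_eq_mul] at h1
  have h4 := psi_le_exp_SS lam h N ω
  push_cast at h1
  nlinarith

/-- normalised logarithm of the two-sided free partition function -/
noncomputable def LL (N : ℕ) (ω : ℕ → ℝ) : ℝ := Real.log (2 * WW K lam h N ω)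

@[fun_prop]
lemma measurable_LL (N : ℕ) : Measurable (LL K lam h N) := by
  unfold LL
  have := measurable_WW K lam h N
  fun_prop

lemma one_le_two_WW (N : ℕ) (ω : ℕ → ℝ) : 1 ≤ 2 * WW K lam h N ω := by
  linarith [half_le_WW K lam h N ω]

lemma LL_nonneg (N : ℕ) (ω : ℕ → ℝ) : 0 ≤ LL K lam h N ω :=
  Real.log_nonneg (one_le_two_WW K lam h N ω)

lemma LL_add_le (m n : ℕ) (ω : ℕ → ℝ) :
    LL K lam h (m + n) ω ≤ LL K lam h m ω + LL K lam h n (shift m ω) := by
  unfold LL
  have h1 := one_le_two_WW K lam h m ω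
  have h2 := one_le_two_WW K lam h n (shift m ω)
  have h3 := one_le_two_WW K lam h (m + n) ω
  rw [← Real.log_mul (by linarith) (by linarith)]
  refine Real.log_le_log (by linarith) ?_
  have := WW_submul K lam h m n ω
  nlinarith

lemma LL_le (N : ℕ) (ω : ℕ → ℝ) :
    LL K lam h N ω ≤ Real.log (2 * (1 + (N + 1) ^ 2)) + SS lam h N ω := by
  unfold LL
  have h1 := one_le_two_WW K lam h N ω
  have h2 := WW_le K lam h N ω
  calc Real.log (2 * WW K lam h N ω)
      ≤ Real.log ((2 * (1 + (N + 1) ^ 2)) * Real.exp (SS lam h N ω)) := by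
        refine Real.log_le_log (by linarith) ?_
        linarith
    _ = _ := by
        rw [Real.log_mul (by positivity) (Real.exp_pos _).ne', Real.log_exp]

end Basic

section Exp

variable (ν : Measure ℝ) [IsProbabilityMeasure ν]

omit [IsProbabilityMeasure ν] in
lemma integrable_exp_abs (hM : ∀ t : ℝ, Integrable (fun x => Real.exp (t * x)) ν) (t : ℝ) :
    Integrable (fun x => Real.exp (t * |x|)) ν := by
  refine Integrable.mono' ((hM t).add (hM (-t)))
    (by apply Measurable.aestronglyMeasurable; fun_prop) (ae_of_all _ fun x => ?_)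
  rw [Real.norm_eq_abs, abs_of_pos (Real.exp_pos _)]
  simp only [Pi.add_apply]
  rcases abs_cases x with ⟨hx, _⟩ | ⟨hx, _⟩
  · rw [hx]; linarith [Real.exp_pos (-t * x)]
  · rw [hx]
    have : t * -x = -t * x := by ring
    rw [this]; linarith [Real.exp_pos (t * x)]

omit [IsProbabilityMeasure ν] in
lemma integrable_abs (hM : ∀ t : ℝ, Integrable (fun x => Real.exp (t * x)) ν) :
    Integrable (fun x : ℝ => |x|) ν := by
  refine Integrable.mono' (integrable_exp_abs ν hM 1)
    (by apply Measurable.aestronglyMeasurable; fun_prop) (ae_of_all _ fun x => ?_)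
  rw [Real.norm_eq_abs, abs_abs, one_mul]
  linarith [Real.add_one_le_exp |x|]

lemma charge_coord_integrable (f : ℝ → ℝ) (hf : Integrable f ν) (i : ℕ) :
    Integrable (fun ω : ℕ → ℝ => f (ω i)) (chargeLaw ν) :=
  (measurePreserving_eval_infinitePi (fun _ : ℕ => ν) i).integrable_comp_of_integrable hf

lemma charge_coord_integral (f : ℝ → ℝ) (hf : AEStronglyMeasurable f ν) (i : ℕ) :
    ∫ ω, f (ω i) ∂(chargeLaw ν) = ∫ x, f x ∂ν := by
  have h1 := (measurePreserving_eval_infinitePi (fun _ : ℕ => ν) i).map_eq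
  conv_rhs => rw [← h1]
  rw [integral_map (measurable_pi_apply i).aemeasurable (by rw [h1]; exact hf)]
  rfl

variable (lam h : ℝ)

lemma integrable_SS (hM : ∀ t : ℝ, Integrable (fun x => Real.exp (t * x)) ν) (n : ℕ) :
    Integrable (SS lam h n) (chargeLaw ν) := by
  unfold SS
  refine integrable_finsetSum _ fun i _ => ?_
  refine charge_coord_integrable ν (fun x => 2 * |lam| * |x + h|) ?_ i
  refine Integrable.const_mul ?_ _
  refine Integrable.mono' ((integrable_abs ν hM).add (integrable_const |h|))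
    (by apply Measurable.aestronglyMeasurable; fun_prop) (ae_of_all _ fun x => ?_)
  rw [Real.norm_eq_abs, abs_abs]
  exact abs_add_le x h

end Exp

end Pool.Agent.Helper97.Copolymer
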