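import Pool.Agent.Helper97.Copolymer.Defs
import Pool.Agent.Helper97.Merge

open MeasureTheory ProbabilityTheory Filter Topology Set

namespace Pool.Agent.Helper97.Copolymer

open Pool.Agent.Helper97

/-- The free energy `f(λ,h) = lim N⁻¹ 𝔼 log Z_{N,ω}`. -/
noncomputable def freeEnergy (K : PMF ℕ) (ν : Measure ℝ) (lam h : ℝ) : ℝ :=
  limUnder atTop (fun N : ℕ => (N : ℝ)⁻¹ * logMean K ν lam h N)

/-- The exponent `μ(λ,h)`. -/
noncomputable def muExponent (K : PMF ℕ) (ν : Measure ℝ) (lam h : ℝ) : ℝ :=
  - limUnder atTop (fun N : ℕ => (N : ℝ)⁻¹ * Real.log (invMean K ν lam h N))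

section Cons

variable {X : Type*} [MeasurableSpace X]

/-- prepend an entry -/
def cons (p : X × (ℕ → X)) : ℕ → X := fun i => if i = 0 then p.1 else p.2 (i - 1)

omit [MeasurableSpace X] in
@[simp] lemma cons_zero (p : X × (ℕ → X)) : cons p 0 = p.1 := by simp [cons]

omit [MeasurableSpace X] in
@[simp] lemma cons_succ (p : X × (ℕ → X)) (i : ℕ) : cons p (i + 1) = p.2 i := by simp [cons]

@[fun_prop]
lemma measurable_cons : Measurable (cons : X × (ℕ → X) → (ℕ → X)) := by
  refine measurable_pi_lambda _ fun i => ?_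
  cases i with
  | zero => simp only [cons_zero]; fun_prop
  | succ i => simp only [cons_succ]; fun_prop

lemma map_cons (ν : Measure X) [IsProbabilityMeasure ν] :
    Measure.map cons (ν.prod (Measure.infinitePi (fun _ : ℕ => ν))) =
      Measure.infinitePi (fun _ : ℕ => ν) := by
  conv_rhs => rw [← map_merge ν 1]
  have hν : Measure.map (fun ω : ℕ → X => ω 0) (Measure.infinitePi (fun _ : ℕ => ν)) = ν :=
    Measure.infinitePi_map_eval _ 0
  have h2 : (merge 1 : (ℕ → X) × (ℕ → X) → (ℕ → X)) =
      cons ∘ (Prod.map (fun ω : ℕ → X => ω 0) id) := by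
    funext p i
    cases i with
    | zero => simp [merge]
    | succ i => simp [merge]
  rw [h2, ← Measure.map_map measurable_cons (by fun_prop),
    ← Measure.map_prod_map _ _ (by fun_prop) measurable_id, hν]
  simp

end Cons

section Delta

lemma epoch_zero (s : ℕ → ℕ × Bool) : epoch s 0 = 0 := by simp [epoch]

lemma epoch_cons_succ (x : ℕ × Bool) (s : ℕ → ℕ × Bool) (i : ℕ) :
    epoch (cons (x, s)) (i + 1) = x.1 + epoch s i := by
  unfold epoch
  rw [Finset.sum_range_succ']
  simp [add_comm]

lemma Delta_cons_le (x : ℕ × Bool) (s : ℕ → ℕ × Bool) (m : ℕ) (hm : 0 < m) (h : m ≤ x.1) :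
    Delta (cons (x, s)) m = if x.2 = true then 1 else 0 := by
  unfold Delta
  have : (∃ j, epoch (cons (x, s)) j < m ∧ m ≤ epoch (cons (x, s)) (j + 1) ∧
      (cons (x, s) j).2 = true) ↔ x.2 = true := by
    constructor
    · rintro ⟨j, h1, h2, h3⟩
      cases j with
      | zero => simpa using h3
      | succ j => rw [epoch_cons_succ] at h1; omega
    · intro hx
      refine ⟨0, ?_, ?_, ?_⟩
      · rw [epoch_zero]; exact hm
      · rw [epoch_cons_succ, epoch_zero]; simpa using h
      · simpa using hx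
  simp [this]

lemma Delta_cons_gt (x : ℕ × Bool) (s : ℕ → ℕ × Bool) (m : ℕ) (hm : 0 < m) :
    Delta (cons (x, s)) (x.1 + m) = Delta s m := by
  unfold Delta
  have : (∃ j, epoch (cons (x, s)) j < x.1 + m ∧ x.1 + m ≤ epoch (cons (x, s)) (j + 1) ∧
      (cons (x, s) j).2 = true) ↔ (∃ j, epoch s j < m ∧ m ≤ epoch s (j + 1) ∧
      (s j).2 = true) := by
    constructor
    · rintro ⟨j, h1, h2, h3⟩
      cases j with
      | zero =>
        rw [epoch_cons_succ, epoch_zero] at h2
        omega
      | succ j =>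
        rw [epoch_cons_succ] at h1 h2
        exact ⟨j, by omega, by omega, by simpa using h3⟩
    · rintro ⟨j, h1, h2, h3⟩
      refine ⟨j + 1, ?_, ?_, ?_⟩
      · rw [epoch_cons_succ]; omega
      · rw [epoch_cons_succ]; omega
      · simpa using h3
  classical
  exact if_congr this rfl rfl

@[fun_prop]
lemma measurable_epoch (j : ℕ) : Measurable (fun s : ℕ → ℕ × Bool => epoch s j) := by
  unfold epoch; fun_prop

@[fun_prop]
lemma measurable_Delta (n : ℕ) : Measurable (fun s : ℕ → ℕ × Bool => Delta s n) := by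
  unfold Delta
  refine Measurable.ite ?_ measurable_const measurable_const
  have : {s : ℕ → ℕ × Bool | ∃ j, epoch s j < n ∧ n ≤ epoch s (j + 1) ∧ (s j).2 = true} =
      ⋃ j, ({s | epoch s j < n} ∩ {s | n ≤ epoch s (j + 1)} ∩ {s | (s j).2 = true}) := by
    ext s; simp [and_assoc]
  rw [this]
  refine MeasurableSet.iUnion fun j => ?_
  refine ((measurableSet_lt (measurable_epoch j) measurable_const).inter
    (measurableSet_le measurable_const (measurable_epoch (j + 1)))).inter ?_
  exact measurableSet_eq_fun (by fun_prop) measurable_const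

lemma Delta_nonneg (s : ℕ → ℕ × Bool) (n : ℕ) : 0 ≤ Delta s n := by
  unfold Delta; split_ifs <;> norm_num

lemma Delta_le_one (s : ℕ → ℕ × Bool) (n : ℕ) : Delta s n ≤ 1 := by
  unfold Delta; split_ifs <;> norm_num

end Delta

section Rec

variable (K : PMF ℕ) (lam h : ℝ)

/-- the energy of one long excursion below the interface -/
noncomputable def xs (n : ℕ) (ω : ℕ → ℝ) : ℝ := -2 * lam * ∑ i ∈ Finset.range n, (ω i + h)

/-- averaged weight of one excursion -/
noncomputable def psi (n : ℕ) (ω : ℕ → ℝ) : ℝ := (1 + Real.exp (xs lam h n ω)) / 2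

/-- gap probabilities -/
noncomputable def kk (n : ℕ) : ℝ := (K n).toReal

/-- tail of the gap law -/
noncomputable def Kbar (n : ℕ) : ℝ := 1 - ∑ j ∈ Finset.range (n + 1), kk K j

/-- the energy functional -/
noncomputable def energy (N : ℕ) (ω : ℕ → ℝ) (s : ℕ → ℕ × Bool) : ℝ :=
  -2 * lam * ∑ n ∈ Finset.range N, Delta s (n + 1) * (ω n + h)

@[fun_prop]
lemma measurable_energy (N : ℕ) (ω : ℕ → ℝ) :
    Measurable (fun s => energy lam h N ω s) := by
  unfold energy; fun_prop

lemma energy_abs_le (N : ℕ) (ω : ℕ → ℝ) (s : ℕ → ℕ × Bool) :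
    |energy lam h N ω s| ≤ 2 * |lam| * ∑ n ∈ Finset.range N, |ω n + h| := by
  unfold energy
  rw [abs_mul, abs_mul]
  have : |(-2 : ℝ)| = 2 := by norm_num
  rw [this]
  refine mul_le_mul_of_nonneg_left ?_ (by positivity)
  refine (Finset.abs_sum_le_sum_abs _ _).trans (Finset.sum_le_sum fun n _ => ?_)
  rw [abs_mul, abs_of_nonneg (Delta_nonneg s (n + 1))]
  exact mul_le_of_le_one_left (abs_nonneg _) (Delta_le_one s (n + 1))

lemma energy_cons_ge (N : ℕ) (ω : ℕ → ℝ) (x : ℕ × Bool) (s : ℕ → ℕ × Bool) (hx : N ≤ x.1) :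
    energy lam h N ω (cons (x, s)) = (if x.2 = true then 1 else 0) * xs lam h N ω := by
  unfold energy xs
  have : ∀ n ∈ Finset.range N, Delta (cons (x, s)) (n + 1) * (ω n + h) =
      (if x.2 = true then 1 else 0) * (ω n + h) := by
    intro n hn
    rw [Finset.mem_range] at hn
    rw [Delta_cons_le x s (n + 1) (by omega) (by omega)]
  rw [Finset.sum_congr rfl this, ← Finset.mul_sum]
  ring

lemma energy_cons_le (M : ℕ) (ω : ℕ → ℝ) (x : ℕ × Bool) (s : ℕ → ℕ × Bool) :
    energy lam h (x.1 + M) ω (cons (x, s)) =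
      (if x.2 = true then 1 else 0) * xs lam h x.1 ω + energy lam h M (shift x.1 ω) s := by
  unfold energy
  rw [Finset.sum_range_add, mul_add]
  congr 1
  · exact energy_cons_ge lam h x.1 ω x s le_rfl
  · congr 1
    refine Finset.sum_congr rfl fun n _ => ?_
    rw [add_assoc, Delta_cons_gt x s (n + 1) (by omega)]
    rfl

instance : IsProbabilityMeasure (pathLaw K) := by unfold pathLaw; infer_instance

instance (ν : Measure ℝ) [IsProbabilityMeasure ν] : IsProbabilityMeasure (chargeLaw ν) := by
  unfold chargeLaw; infer_instance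

lemma partitionFn_eq (N : ℕ) (ω : ℕ → ℝ) :
    partitionFn K lam h N ω = ∫ s, Real.exp (energy lam h N ω s) ∂(pathLaw K) := rfl

lemma integrable_exp_energy (N : ℕ) (ω : ℕ → ℝ) :
    Integrable (fun s => Real.exp (energy lam h N ω s)) (pathLaw K) := by
  refine Integrable.of_bound (by apply Measurable.aestronglyMeasurable; fun_prop)
    (Real.exp (2 * |lam| * ∑ n ∈ Finset.range N, |ω n + h|)) (ae_of_all _ fun s => ?_)
  rw [Real.norm_eq_abs, abs_of_pos (Real.exp_pos _)]
  exact Real.exp_le_exp.2 ((le_abs_self _).trans (energy_abs_le lam h N ω s))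

lemma integral_bool (f : Bool → ℝ) :
    ∫ b, f b ∂((PMF.uniformOfFintype Bool).toMeasure) = (f true + f false) / 2 := by
  rw [PMF.integral_eq_sum]
  simp [PMF.uniformOfFintype_apply]
  ring

lemma partitionFn_split (N : ℕ) (ω : ℕ → ℝ) :
    partitionFn K lam h N ω = ∑' j : ℕ, kk K j *
      (((∫ s, Real.exp (energy lam h N ω (cons ((j, true), s))) ∂(pathLaw K)) +
        (∫ s, Real.exp (energy lam h N ω (cons ((j, false), s))) ∂(pathLaw K))) / 2) := by
  rw [partitionFn_eq]
  have hmc := map_cons (K.toMeasure.prod (PMF.uniformOfFintype Bool).toMeasure)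
  have hi : Integrable (fun s => Real.exp (energy lam h N ω s)) (pathLaw K) :=
    integrable_exp_energy K lam h N ω
  have hmp : MeasurePreserving cons
      ((K.toMeasure.prod (PMF.uniformOfFintype Bool).toMeasure).prod (pathLaw K)) (pathLaw K) :=
    ⟨measurable_cons, hmc⟩
  have hi2 : Integrable (fun p : (ℕ × Bool) × (ℕ → ℕ × Bool) =>
      Real.exp (energy lam h N ω (cons p)))
      ((K.toMeasure.prod (PMF.uniformOfFintype Bool).toMeasure).prod (pathLaw K)) :=
    hmp.integrable_comp_of_integrable hi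
  have e1 : ∫ s, Real.exp (energy lam h N ω s) ∂(pathLaw K) =
      ∫ p, Real.exp (energy lam h N ω (cons p))
        ∂((K.toMeasure.prod (PMF.uniformOfFintype Bool).toMeasure).prod (pathLaw K)) := by
    conv_lhs => rw [← hmp.map_eq]
    rw [integral_map measurable_cons.aemeasurable
      (by apply Measurable.aestronglyMeasurable; fun_prop)]
  rw [e1, integral_prod _ hi2]
  have hi3 := hi2.integral_prod_left
  rw [integral_prod _ hi3]
  have hi4 := hi3.integral_prod_left
  rw [PMF.integral_eq_tsum _ _ hi4]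
  refine tsum_congr fun j => ?_
  rw [integral_bool]
  rfl

lemma kk_nonneg (n : ℕ) : 0 ≤ kk K n := ENNReal.toReal_nonneg

lemma summable_kk : Summable (kk K) := by
  have := K.tsum_coe
  exact ENNReal.summable_toReal (by rw [this]; exact ENNReal.one_ne_top)

lemma tsum_kk : ∑' n, kk K n = 1 := by
  unfold kk
  rw [← ENNReal.tsum_toReal_eq (fun n => K.apply_ne_top n), K.tsum_coe]; rfl

lemma sum_kk_le_one (s : Finset ℕ) : ∑ j ∈ s, kk K j ≤ 1 := by
  rw [← tsum_kk K]
  exact (summable_kk K).sum_le_tsum s (fun i _ => kk_nonneg K i)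

lemma Kbar_nonneg (n : ℕ) : 0 ≤ Kbar K n := by
  unfold Kbar; linarith [sum_kk_le_one K (Finset.range (n + 1))]

lemma Kbar_le_one (n : ℕ) : Kbar K n ≤ 1 := by
  unfold Kbar
  have : 0 ≤ ∑ j ∈ Finset.range (n + 1), kk K j := Finset.sum_nonneg fun i _ => kk_nonneg K i
  linarith

lemma Kbar_anti {m n : ℕ} (hmn : m ≤ n) : Kbar K n ≤ Kbar K m := by
  unfold Kbar
  have : ∑ j ∈ Finset.range (m + 1), kk K j ≤ ∑ j ∈ Finset.range (n + 1), kk K j :=
    Finset.sum_le_sum_of_subset_of_nonneg (Finset.range_mono (by omega))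
      (fun i _ _ => kk_nonneg K i)
  linarith

lemma kk_le_Kbar {n m : ℕ} (hnm : n < m) : kk K m ≤ Kbar K n := by
  have h1 : kk K m + ∑ j ∈ Finset.range (n + 1), kk K j ≤ 1 := by
    rw [← Finset.sum_insert (s := Finset.range (n + 1)) (a := m)
      (by rw [Finset.mem_range]; omega)]
    exact sum_kk_le_one K _
  unfold Kbar; linarith

/-- The recursion: `b` is the weight of the last, incomplete excursion. -/
noncomputable def GG (b : ℕ → ℝ) : ℕ → (ℕ → ℝ) → ℝ
  | N, ω => b N * psi lam h N ω +
      ∑ j : Fin N, kk K (j + 1) * psi lam h (j + 1) ω * GG b (N - (j + 1)) (shift (j + 1) ω)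
termination_by N => N
decreasing_by have := j.2; omega

lemma GG_eq (b : ℕ → ℝ) (N : ℕ) (ω : ℕ → ℝ) :
    GG K lam h b N ω = b N * psi lam h N ω +
      ∑ j ∈ Finset.range N, kk K (j + 1) * psi lam h (j + 1) ω *
        GG K lam h b (N - (j + 1)) (shift (j + 1) ω) := by
  rw [GG, Finset.sum_range]

theorem partitionFn_eq_GG (hK0 : K 0 = 0) (N : ℕ) (ω : ℕ → ℝ) :
    partitionFn K lam h N ω = GG K lam h (Kbar K) N ω := by
  induction N using Nat.strong_induction_on generalizing ω with
  | _ N ih =>
    rw [partitionFn_split, GG_eq]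
    have hval1 : ∀ j, N ≤ j → (((∫ s, Real.exp (energy lam h N ω (cons ((j, true), s)))
        ∂(pathLaw K)) + (∫ s, Real.exp (energy lam h N ω (cons ((j, false), s)))
        ∂(pathLaw K))) / 2) = psi lam h N ω := by
      intro j hj
      have e1 : ∀ s, energy lam h N ω (cons ((j, true), s)) = xs lam h N ω := by
        intro s; rw [energy_cons_ge lam h N ω (j, true) s hj]; simp
      have e2 : ∀ s, energy lam h N ω (cons ((j, false), s)) = 0 := by
        intro s; rw [energy_cons_ge lam h N ω (j, false) s hj]; simp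
      simp_rw [e1, e2]
      simp [psi]
      ring
    have hval2 : ∀ j, j ≤ N → (((∫ s, Real.exp (energy lam h N ω (cons ((j, true), s)))
        ∂(pathLaw K)) + (∫ s, Real.exp (energy lam h N ω (cons ((j, false), s)))
        ∂(pathLaw K))) / 2) =
        psi lam h j ω * partitionFn K lam h (N - j) (shift j ω) := by
      intro j hj
      obtain ⟨M, rfl⟩ := Nat.exists_eq_add_of_le hj
      have e1 : ∀ s, energy lam h (j + M) ω (cons ((j, true), s)) =
          xs lam h j ω + energy lam h M (shift j ω) s := by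
        intro s; rw [energy_cons_le lam h M ω (j, true) s]; simp
      have e2 : ∀ s, energy lam h (j + M) ω (cons ((j, false), s)) =
          energy lam h M (shift j ω) s := by
        intro s; rw [energy_cons_le lam h M ω (j, false) s]; simp
      simp_rw [e1, e2, Real.exp_add, integral_const_mul]
      rw [Nat.add_sub_cancel_left, partitionFn_eq]
      simp [psi]
      ring
    set v : ℕ → ℝ := fun j => (((∫ s, Real.exp (energy lam h N ω (cons ((j, true), s)))
        ∂(pathLaw K)) + (∫ s, Real.exp (energy lam h N ω (cons ((j, false), s)))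
        ∂(pathLaw K))) / 2) with hv
    have hsum : Summable (fun j => kk K j * v j) := by
      rw [← summable_nat_add_iff (N + 1)]
      have : ∀ j, kk K (j + (N + 1)) * v (j + (N + 1)) = kk K (j + (N + 1)) * psi lam h N ω := by
        intro j; rw [hv]; simp only; rw [hval1 (j + (N + 1)) (by omega)]
      simp_rw [this]
      exact ((summable_nat_add_iff (N + 1)).2 (summable_kk K)).mul_right _
    rw [← hsum.sum_add_tsum_nat_add (N + 1)]
    have htail : ∑' j, kk K (j + (N + 1)) * v (j + (N + 1)) = Kbar K N * psi lam h N ω := by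
      have : ∀ j, kk K (j + (N + 1)) * v (j + (N + 1)) = kk K (j + (N + 1)) * psi lam h N ω := by
        intro j; rw [hv]; simp only; rw [hval1 (j + (N + 1)) (by omega)]
      simp_rw [this]
      rw [tsum_mul_right]
      congr 1
      have := (summable_kk K).sum_add_tsum_nat_add (N + 1)
      rw [tsum_kk] at this
      unfold Kbar; linarith
    rw [htail, Finset.sum_range_succ', add_comm]
    have hk0 : kk K 0 = 0 := by simp [kk, hK0]
    rw [hk0, zero_mul, add_zero]
    congr 1
    refine Finset.sum_congr rfl fun j hj => ?_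
    rw [Finset.mem_range] at hj
    rw [hv]; simp only
    rw [hval2 (j + 1) (by omega), ih (N - (j + 1)) (by omega)]
    ring

end Rec

end Pool.Agent.Helper97.Copolymer
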