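import Pool.Agent.Helper97.Copolymer.Mu

open MeasureTheory ProbabilityTheory Filter Topology Set

namespace Pool.Agent.Helper97.Copolymer

open Pool.Agent.Helper97

variable (K : PMF ℕ) (ν : Measure ℝ) [IsProbabilityMeasure ν] (lam h : ℝ)

open Classical in
/-- indicator that `n` is the first `k ≥ 1` with `WW k ω ≥ H` -/
noncomputable def II (H : ℝ) (n : ℕ) (ω : ℕ → ℝ) : ℝ :=
  if H ≤ WW K lam h n ω ∧ ∀ k, 1 ≤ k → k < n → WW K lam h k ω < H then 1 else 0

open Classical in
/-- indicator that there is no `1 ≤ k ≤ n` with `WW k ω ≥ H` -/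
noncomputable def Bad (H : ℝ) (n : ℕ) (ω : ℕ → ℝ) : ℝ :=
  if ∀ k, 1 ≤ k → k ≤ n → WW K lam h k ω < H then 1 else 0

lemma II_nonneg (H : ℝ) (n : ℕ) (ω : ℕ → ℝ) : 0 ≤ II K lam h H n ω := by
  unfold II; split_ifs <;> norm_num

lemma II_le_one (H : ℝ) (n : ℕ) (ω : ℕ → ℝ) : II K lam h H n ω ≤ 1 := by
  unfold II; split_ifs <;> norm_num

lemma Bad_nonneg (H : ℝ) (n : ℕ) (ω : ℕ → ℝ) : 0 ≤ Bad K lam h H n ω := by
  unfold Bad; split_ifs <;> norm_num

lemma Bad_le_one (H : ℝ) (n : ℕ) (ω : ℕ → ℝ) : Bad K lam h H n ω ≤ 1 := by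
  unfold Bad; split_ifs <;> norm_num

@[fun_prop]
lemma measurable_II (H : ℝ) (n : ℕ) : Measurable (II K lam h H n) := by
  unfold II
  refine Measurable.ite ?_ measurable_const measurable_const
  have : {ω : ℕ → ℝ | H ≤ WW K lam h n ω ∧ ∀ k, 1 ≤ k → k < n → WW K lam h k ω < H} =
      {ω | H ≤ WW K lam h n ω} ∩ ⋂ k, ⋂ (_ : 1 ≤ k), ⋂ (_ : k < n), {ω | WW K lam h k ω < H} := by
    ext ω; simp
  rw [this]
  refine (measurableSet_le measurable_const (measurable_WW K lam h n)).inter ?_
  exact MeasurableSet.iInter fun k => MeasurableSet.iInter fun _ => MeasurableSet.iInter fun _ =>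
    measurableSet_lt (measurable_WW K lam h k) measurable_const

@[fun_prop]
lemma measurable_Bad (H : ℝ) (n : ℕ) : Measurable (Bad K lam h H n) := by
  unfold Bad
  refine Measurable.ite ?_ measurable_const measurable_const
  have : {ω : ℕ → ℝ | ∀ k, 1 ≤ k → k ≤ n → WW K lam h k ω < H} =
      ⋂ k, ⋂ (_ : 1 ≤ k), ⋂ (_ : k ≤ n), {ω | WW K lam h k ω < H} := by
    ext ω; simp
  rw [this]
  exact MeasurableSet.iInter fun k => MeasurableSet.iInter fun _ => MeasurableSet.iInter fun _ =>
    measurableSet_lt (measurable_WW K lam h k) measurable_const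

lemma depLT_II (H : ℝ) (n : ℕ) : DepLT n (II K lam h H n) := by
  intro ω ω' hω
  unfold II
  have h1 : ∀ k, k ≤ n → WW K lam h k ω = WW K lam h k ω' :=
    fun k hk => depLT_mono hk (depLT_WW K lam h k) ω ω' hω
  have h2 : (H ≤ WW K lam h n ω ∧ ∀ k, 1 ≤ k → k < n → WW K lam h k ω < H) ↔
      (H ≤ WW K lam h n ω' ∧ ∀ k, 1 ≤ k → k < n → WW K lam h k ω' < H) := by
    rw [h1 n le_rfl]
    refine and_congr Iff.rfl
      (forall_congr' fun k => forall_congr' fun _ => forall_congr' fun hk => ?_)
    rw [h1 k hk.le]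
  by_cases h3 : (H ≤ WW K lam h n ω ∧ ∀ k, 1 ≤ k → k < n → WW K lam h k ω < H)
  · rw [if_pos h3, if_pos (h2.1 h3)]
  · rw [if_neg h3, if_neg (fun h4 => h3 (h2.2 h4))]

lemma depLT_Bad (H : ℝ) (n : ℕ) : DepLT n (Bad K lam h H n) := by
  intro ω ω' hω
  unfold Bad
  have h1 : ∀ k, k ≤ n → WW K lam h k ω = WW K lam h k ω' :=
    fun k hk => depLT_mono hk (depLT_WW K lam h k) ω ω' hω
  have h2 : (∀ k, 1 ≤ k → k ≤ n → WW K lam h k ω < H) ↔
      (∀ k, 1 ≤ k → k ≤ n → WW K lam h k ω' < H) := by
    refine (forall_congr' fun k => forall_congr' fun _ => forall_congr' fun hk => ?_)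
    rw [h1 k hk]
  by_cases h3 : (∀ k, 1 ≤ k → k ≤ n → WW K lam h k ω < H)
  · rw [if_pos h3, if_pos (h2.1 h3)]
  · rw [if_neg h3, if_neg (fun h4 => h3 (h2.2 h4))]

lemma sum_II_add_Bad (H : ℝ) (n : ℕ) (ω : ℕ → ℝ) :
    ∑ j ∈ Finset.range n, II K lam h H (j + 1) ω + Bad K lam h H n ω = 1 := by
  induction n with
  | zero =>
    unfold Bad
    rw [if_pos (by intro k h1 h2; omega)]
    simp
  | succ n ih =>
    rw [Finset.sum_range_succ]
    have : II K lam h H (n + 1) ω + Bad K lam h H (n + 1) ω = Bad K lam h H n ω := by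
      unfold II Bad
      by_cases h1 : ∀ k, 1 ≤ k → k ≤ n → WW K lam h k ω < H
      · rw [if_pos h1]
        by_cases h2 : H ≤ WW K lam h (n + 1) ω
        · rw [if_pos ⟨h2, fun k hk1 hk2 => h1 k hk1 (by omega)⟩, if_neg]
          · norm_num
          · intro h3
            exact absurd (h3 (n + 1) (by omega) le_rfl) (not_lt.2 h2)
        · rw [if_neg (fun h3 => h2 h3.1), if_pos]
          · norm_num
          · intro k hk1 hk2
            rcases Nat.lt_or_ge k (n + 1) with hk3 | hk3
            · exact h1 k hk1 (by omega)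
            · have : k = n + 1 := by omega
              rw [this]; exact not_le.1 h2
      · rw [if_neg h1, if_neg, if_neg]
        · norm_num
        · intro h3; exact h1 fun k hk1 hk2 => h3 k hk1 (by omega)
        · intro h3; exact h1 fun k hk1 hk2 => h3.2 k hk1 (by omega)
    linarith

/-- the deterministic restart inequality -/
lemma LL_restart (H : ℝ) (hH : 2 ≤ H) (N : ℕ) (ω : ℕ → ℝ) :
    LL K lam h N ω ≤ Real.log (2 * H) + ∑ j ∈ Finset.range N, II K lam h H (j + 1) ω *
      (LL K lam h 1 (shift j ω) + LL K lam h (N - (j + 1)) (shift (j + 1) ω)) := by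
  have hnn : ∀ j ∈ Finset.range N, 0 ≤ II K lam h H (j + 1) ω *
      (LL K lam h 1 (shift j ω) + LL K lam h (N - (j + 1)) (shift (j + 1) ω)) :=
    fun j _ => mul_nonneg (II_nonneg K lam h H _ _)
      (add_nonneg (LL_nonneg K lam h _ _) (LL_nonneg K lam h _ _))
  have hle : ∀ k, WW K lam h k ω ≤ H → LL K lam h k ω ≤ Real.log (2 * H) := by
    intro k hk
    unfold LL
    exact Real.log_le_log (by linarith [one_le_two_WW K lam h k ω]) (by linarith)
  by_cases hex : ∃ k, (1 ≤ k ∧ k ≤ N) ∧ H ≤ WW K lam h k ω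
  · classical
    have hspec := Nat.find_spec hex
    have hmin := fun m (hm : m < Nat.find hex) => Nat.find_min hex hm
    set k := Nat.find hex with hk
    obtain ⟨⟨hk1, hkN⟩, hkH⟩ := hspec
    have hI : II K lam h H (k - 1 + 1) ω = 1 := by
      have e : k - 1 + 1 = k := by omega
      rw [e]
      unfold II
      rw [if_pos]
      refine ⟨hkH, fun m hm1 hm2 => ?_⟩
      by_contra hcon
      push Not at hcon
      exact hmin m hm2 ⟨⟨hm1, by omega⟩, hcon⟩
    have h1 : II K lam h H (k - 1 + 1) ω * (LL K lam h 1 (shift (k - 1) ω) +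
        LL K lam h (N - (k - 1 + 1)) (shift (k - 1 + 1) ω)) ≤
        ∑ j ∈ Finset.range N, II K lam h H (j + 1) ω *
        (LL K lam h 1 (shift j ω) + LL K lam h (N - (j + 1)) (shift (j + 1) ω)) :=
      Finset.single_le_sum (f := fun j => II K lam h H (j + 1) ω *
        (LL K lam h 1 (shift j ω) + LL K lam h (N - (j + 1)) (shift (j + 1) ω))) hnn
        (Finset.mem_range.2 (by omega))
    rw [hI, one_mul] at h1
    have e : k - 1 + 1 = k := by omega
    rw [e] at h1
    have h2 := LL_add_le K lam h k (N - k) ω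
    have h3 := LL_add_le K lam h (k - 1) 1 ω
    have e2 : k + (N - k) = N := by omega
    rw [e2] at h2
    rw [e] at h3
    have h4 : LL K lam h (k - 1) ω ≤ Real.log (2 * H) := by
      apply hle
      rcases Nat.eq_zero_or_pos (k - 1) with h0 | h0
      · rw [h0, WW_zero]; exact hH
      · by_contra hcon
        push Not at hcon
        exact hmin (k - 1) (by omega) ⟨⟨h0, by omega⟩, hcon.le⟩
    linarith
  · push Not at hex
    have h1 : LL K lam h N ω ≤ Real.log (2 * H) := by
      apply hle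
      rcases Nat.eq_zero_or_pos N with h0 | h0
      · rw [h0, WW_zero]; exact hH
      · exact (hex N ⟨h0, le_rfl⟩).le
    linarith [Finset.sum_nonneg hnn]

/-- bound for all one-step overshoots in `[0,l)` -/
noncomputable def OV (lam h : ℝ) (l : ℕ) (ω : ℕ → ℝ) : ℝ :=
  (Real.log 10 + 2 * |lam| * |h| + 2 * |lam| * Real.log l) +
    2 * |lam| / l * ∑ i ∈ Finset.range l, Real.exp (1 * |ω i|)

lemma LL_one_le (l : ℕ) (hl : 1 ≤ l) (j : ℕ) (hj : j < l) (ω : ℕ → ℝ) :
    LL K lam h 1 (shift j ω) ≤ OV lam h l ω := by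
  have h1 := LL_le K lam h 1 (shift j ω)
  have h2 : SS lam h 1 (shift j ω) ≤ 2 * |lam| * (|ω j| + |h|) := by
    unfold SS
    rw [Finset.sum_range_one]
    refine mul_le_mul_of_nonneg_left ?_ (by positivity)
    exact abs_add_le _ _
  have hl' : (0 : ℝ) < l := by exact_mod_cast hl
  have h3 : |ω j| ≤ Real.log l + (∑ i ∈ Finset.range l, Real.exp (1 * |ω i|)) / l := by
    have h4 : Real.exp (1 * |ω j|) ≤ ∑ i ∈ Finset.range l, Real.exp (1 * |ω i|) :=
      Finset.single_le_sum (f := fun i => Real.exp (1 * |ω i|)) (fun _ _ => (Real.exp_pos _).le)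
        (Finset.mem_range.2 hj)
    have h5 : |ω j| - Real.log l ≤ Real.exp (|ω j| - Real.log l) := by
      linarith [Real.add_one_le_exp (|ω j| - Real.log l)]
    rw [Real.exp_sub, Real.exp_log hl'] at h5
    rw [one_mul] at h4
    have h6 : Real.exp |ω j| / l ≤ (∑ i ∈ Finset.range l, Real.exp (1 * |ω i|)) / l := by
      gcongr
    linarith
  have e : Real.log (2 * (1 + ((1 : ℕ) + 1 : ℝ) ^ 2)) = Real.log 10 := by norm_num
  rw [e] at h1
  unfold OV
  have h7 : 2 * |lam| * |ω j| ≤ 2 * |lam| *
      (Real.log l + (∑ i ∈ Finset.range l, Real.exp (1 * |ω i|)) / l) :=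
    mul_le_mul_of_nonneg_left h3 (by positivity)
  have h8 : 2 * |lam| / l * ∑ i ∈ Finset.range l, Real.exp (1 * |ω i|) =
      2 * |lam| * ((∑ i ∈ Finset.range l, Real.exp (1 * |ω i|)) / l) := by ring
  rw [h8]
  linarith

variable (hM : ∀ t : ℝ, Integrable (fun x => Real.exp (t * x)) ν)
include hM

lemma integrable_OV (l : ℕ) : Integrable (OV lam h l) (chargeLaw ν) := by
  unfold OV
  refine (integrable_const _).add (Integrable.const_mul (integrable_finsetSum _ fun i _ => ?_) _)
  exact charge_coord_integrable ν _ (integrable_exp_abs ν hM 1) i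

lemma integral_OV (l : ℕ) (hl : 1 ≤ l) : ∫ ω, OV lam h l ω ∂(chargeLaw ν) =
    (Real.log 10 + 2 * |lam| * |h| + 2 * |lam| * Real.log l) +
      2 * |lam| * ∫ x, Real.exp (1 * |x|) ∂ν := by
  unfold OV
  have hi : ∀ i, Integrable (fun ω : ℕ → ℝ => Real.exp (1 * |ω i|)) (chargeLaw ν) :=
    fun i => charge_coord_integrable ν _ (integrable_exp_abs ν hM 1) i
  rw [integral_add (integrable_const _)
    (Integrable.const_mul (integrable_finsetSum _ fun i _ => hi i) _),
    integral_const_mul, integral_finsetSum _ (fun i _ => hi i)]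
  have : ∀ i, ∫ ω : ℕ → ℝ, Real.exp (1 * |ω i|) ∂(chargeLaw ν) = ∫ x, Real.exp (1 * |x|) ∂ν :=
    fun i => charge_coord_integral ν (fun x => Real.exp (1 * |x|))
      (by apply Measurable.aestronglyMeasurable; fun_prop) i
  simp_rw [this]
  have hl' : (0 : ℝ) < l := by exact_mod_cast hl
  simp
  field_simp

omit hM in
lemma integrable_II (H : ℝ) (n : ℕ) : Integrable (II K lam h H n) (chargeLaw ν) := by
  refine Integrable.of_bound (measurable_II K lam h H n).aestronglyMeasurable 1
    (ae_of_all _ fun ω => ?_)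
  rw [Real.norm_eq_abs, abs_of_nonneg (II_nonneg K lam h H n ω)]
  exact II_le_one K lam h H n ω

omit hM in
lemma integrable_Bad (H : ℝ) (n : ℕ) : Integrable (Bad K lam h H n) (chargeLaw ν) := by
  refine Integrable.of_bound (measurable_Bad K lam h H n).aestronglyMeasurable 1
    (ae_of_all _ fun ω => ?_)
  rw [Real.norm_eq_abs, abs_of_nonneg (Bad_nonneg K lam h H n ω)]
  exact Bad_le_one K lam h H n ω

omit [IsProbabilityMeasure ν] hM in
/-- probability that no stretch `[0,k]`, `1 ≤ k ≤ n`, has a large partition function -/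
noncomputable def beta (H : ℝ) (n : ℕ) : ℝ := ∫ ω, Bad K lam h H n ω ∂(chargeLaw ν)

omit [IsProbabilityMeasure ν] hM in
lemma beta_nonneg (H : ℝ) (n : ℕ) : 0 ≤ beta K ν lam h H n :=
  integral_nonneg fun ω => Bad_nonneg K lam h H n ω

omit hM in
lemma sum_II_eq (H : ℝ) (n : ℕ) :
    ∑ j ∈ Finset.range n, ∫ ω, II K lam h H (j + 1) ω ∂(chargeLaw ν) =
      1 - beta K ν lam h H n := by
  unfold beta
  rw [← integral_finsetSum _ (fun j _ => integrable_II K ν lam h H (j + 1))]
  have h1 : ∫ ω, (∑ j ∈ Finset.range n, II K lam h H (j + 1) ω + Bad K lam h H n ω)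
      ∂(chargeLaw ν) = 1 := by
    simp_rw [sum_II_add_Bad]
    simp
  rw [integral_add (integrable_finsetSum _ (fun j _ => integrable_II K ν lam h H (j + 1)))
    (integrable_Bad K ν lam h H n)] at h1
  linarith

/-- the bound appearing in the restart argument -/
noncomputable def QQ (ν : Measure ℝ) (lam h : ℝ) (H : ℝ) (l : ℕ) : ℝ := Real.log (2 * H) +
    ((Real.log 10 + 2 * |lam| * |h| + 2 * |lam| * Real.log l) +
      2 * |lam| * ∫ x, Real.exp (1 * |x|) ∂ν)

lemma AA_restart (H : ℝ) (hH : 2 ≤ H) (l : ℕ) (hl : 1 ≤ l) (N : ℕ) (hN : N ≤ l) :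
    AA K ν lam h N ≤ QQ ν lam h H l +
      ∑ j ∈ Finset.range N, (∫ ω, II K lam h H (j + 1) ω ∂(chargeLaw ν)) *
        AA K ν lam h (N - (j + 1)) := by
  have hpt : ∀ ω, LL K lam h N ω ≤ (Real.log (2 * H) + OV lam h l ω) +
      ∑ j ∈ Finset.range N, II K lam h H (j + 1) ω *
        LL K lam h (N - (j + 1)) (shift (j + 1) ω) := by
    intro ω
    have h1 := LL_restart K lam h H hH N ω
    have h2 : ∑ j ∈ Finset.range N, II K lam h H (j + 1) ω *
        (LL K lam h 1 (shift j ω) + LL K lam h (N - (j + 1)) (shift (j + 1) ω)) ≤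
        ∑ j ∈ Finset.range N, II K lam h H (j + 1) ω * OV lam h l ω +
        ∑ j ∈ Finset.range N, II K lam h H (j + 1) ω *
        LL K lam h (N - (j + 1)) (shift (j + 1) ω) := by
      rw [← Finset.sum_add_distrib]
      refine Finset.sum_le_sum fun j hj => ?_
      rw [Finset.mem_range] at hj
      rw [mul_add]
      have := LL_one_le K lam h l hl j (by omega) ω
      have h3 := II_nonneg K lam h H (j + 1) ω
      gcongr
    rw [← Finset.sum_mul] at h2
    have h3 : ∑ j ∈ Finset.range N, II K lam h H (j + 1) ω ≤ 1 := by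
      have := sum_II_add_Bad K lam h H N ω
      linarith [Bad_nonneg K lam h H N ω]
    have h4 : 0 ≤ OV lam h l ω := by
      have := LL_one_le K lam h l hl 0 (by omega) ω
      exact (LL_nonneg K lam h _ _).trans this
    nlinarith
  have hIi : ∀ j, Integrable (fun ω => II K lam h H (j + 1) ω *
      LL K lam h (N - (j + 1)) (shift (j + 1) ω)) (chargeLaw ν) := fun j =>
    integrable_mul_shift' ν (j + 1) _ _ (depLT_II K lam h H (j + 1)) (by fun_prop)
      (measurable_LL K lam h _) (integrable_II K ν lam h H (j + 1))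
      (integrable_LL K ν lam h hM _)
  have hi1 := integrable_OV ν lam h hM l
  have hi2 := (integrable_const (μ := chargeLaw ν) (Real.log (2 * H))).add hi1
  have hi3 := integrable_finsetSum (Finset.range N) (fun j _ => hIi j)
  calc AA K ν lam h N ≤ ∫ ω, ((Real.log (2 * H) + OV lam h l ω) +
      ∑ j ∈ Finset.range N, II K lam h H (j + 1) ω *
        LL K lam h (N - (j + 1)) (shift (j + 1) ω)) ∂(chargeLaw ν) :=
        integral_mono (integrable_LL K ν lam h hM N) (hi2.add hi3) hpt
    _ = _ := by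
        rw [integral_add (f := fun ω => Real.log (2 * H) + OV lam h l ω) hi2 hi3,
          integral_add (integrable_const _) hi1, integral_OV ν lam h hM l hl,
          integral_finsetSum _ (fun j _ => hIi j)]
        unfold QQ
        congr 1
        · simp
        · refine Finset.sum_congr rfl fun j _ => ?_
          exact integral_mul_shift' ν (j + 1) _ _ (depLT_II K lam h H (j + 1)) (by fun_prop)
            (measurable_LL K lam h _)

omit [IsProbabilityMeasure ν] hM in
lemma QQ_nonneg (H : ℝ) (hH : 2 ≤ H) (l : ℕ) : 0 ≤ QQ ν lam h H l := by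
  unfold QQ
  have h1 : 0 ≤ Real.log (2 * H) := Real.log_nonneg (by linarith)
  have h2 : 0 ≤ Real.log 10 := Real.log_nonneg (by norm_num)
  have h3 : 0 ≤ Real.log l := Real.log_natCast_nonneg l
  have h4 : 0 ≤ ∫ x, Real.exp (1 * |x|) ∂ν := integral_nonneg fun x => (Real.exp_pos _).le
  positivity

theorem beta_mul_AA_le (H : ℝ) (hH : 2 ≤ H) (l : ℕ) (hl : 1 ≤ l) :
    beta K ν lam h H l * AA K ν lam h l ≤ QQ ν lam h H l := by
  have hQ := QQ_nonneg ν lam h H hH l
  rcases (beta_nonneg K ν lam h H l).eq_or_lt with h0 | h0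
  · rw [← h0, zero_mul]; exact hQ
  · have key : ∀ N, N ≤ l → AA K ν lam h N ≤ QQ ν lam h H l / beta K ν lam h H l := by
      intro N
      induction N using Nat.strong_induction_on with
      | _ N ih =>
        intro hN
        have h1 := AA_restart K ν lam h hM H hH l hl N hN
        have hII : ∀ j, 0 ≤ ∫ ω, II K lam h H (j + 1) ω ∂(chargeLaw ν) :=
          fun j => integral_nonneg fun ω => II_nonneg K lam h H _ ω
        have h2 : ∑ j ∈ Finset.range N, (∫ ω, II K lam h H (j + 1) ω ∂(chargeLaw ν)) *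
            AA K ν lam h (N - (j + 1)) ≤
            ∑ j ∈ Finset.range N, (∫ ω, II K lam h H (j + 1) ω ∂(chargeLaw ν)) *
            (QQ ν lam h H l / beta K ν lam h H l) := by
          refine Finset.sum_le_sum fun j hj => ?_
          rw [Finset.mem_range] at hj
          exact mul_le_mul_of_nonneg_left (ih (N - (j + 1)) (by omega) (by omega)) (hII j)
        rw [← Finset.sum_mul] at h2
        have h3 : ∑ j ∈ Finset.range N, ∫ ω, II K lam h H (j + 1) ω ∂(chargeLaw ν) ≤
            1 - beta K ν lam h H l := by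
          rw [← sum_II_eq]
          exact Finset.sum_le_sum_of_subset_of_nonneg (Finset.range_mono hN)
            (fun j _ _ => hII j)
        have h4 : 0 ≤ QQ ν lam h H l / beta K ν lam h H l := by positivity
        have h5 : QQ ν lam h H l + (1 - beta K ν lam h H l) *
            (QQ ν lam h H l / beta K ν lam h H l) = QQ ν lam h H l / beta K ν lam h H l := by
          field_simp
          ring
        nlinarith
    have := key l le_rfl
    rw [le_div_iff₀ h0] at this
    linarith

/-- product of block indicators -/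
noncomputable def BB (H : ℝ) (l : ℕ) : ℕ → (ℕ → ℝ) → ℝ
  | 0, _ => 1
  | m + 1, ω => Bad K lam h H l ω * BB H l m (shift l ω)

omit hM in
@[fun_prop]
lemma measurable_BB (H : ℝ) (l m : ℕ) : Measurable (BB K lam h H l m) := by
  induction m with
  | zero => exact measurable_const
  | succ m ih =>
    have : BB K lam h H l (m + 1) = fun ω => Bad K lam h H l ω * BB K lam h H l m (shift l ω) := by
      funext ω; rfl
    rw [this]
    exact (measurable_Bad K lam h H l).mul (ih.comp (measurable_shift (X := ℝ) l))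

omit hM in
lemma integral_BB (H : ℝ) (l m : ℕ) :
    ∫ ω, BB K lam h H l m ω ∂(chargeLaw ν) = beta K ν lam h H l ^ m := by
  induction m with
  | zero => simp [BB]
  | succ m ih =>
    have : ∀ ω, BB K lam h H l (m + 1) ω = Bad K lam h H l ω * BB K lam h H l m (shift l ω) :=
      fun ω => rfl
    simp_rw [this]
    rw [integral_mul_shift' ν l _ _ (depLT_Bad K lam h H l) (by fun_prop)
      (measurable_BB K lam h H l m), ih, pow_succ]
    unfold beta
    ring

omit hM in
lemma BB_nonneg (H : ℝ) (l m : ℕ) (ω : ℕ → ℝ) : 0 ≤ BB K lam h H l m ω := by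
  induction m generalizing ω with
  | zero => simp [BB]
  | succ m ih => exact mul_nonneg (Bad_nonneg K lam h H l ω) (ih _)

omit hM in
lemma BB_le_one (H : ℝ) (l m : ℕ) (ω : ℕ → ℝ) : BB K lam h H l m ω ≤ 1 := by
  induction m generalizing ω with
  | zero => simp [BB]
  | succ m ih => exact mul_le_one₀ (Bad_le_one K lam h H l ω) (BB_nonneg K lam h H l m _) (ih _)

omit hM in
lemma BB_eq_one_or (H : ℝ) (l m : ℕ) (ω : ℕ → ℝ) : BB K lam h H l m ω = 1 ∨
    ∃ j < m, ∃ k, 1 ≤ k ∧ k ≤ l ∧ H ≤ WW K lam h k (shift (j * l) ω) := by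
  induction m generalizing ω with
  | zero => left; simp [BB]
  | succ m ih =>
    by_cases h1 : ∀ k, 1 ≤ k → k ≤ l → WW K lam h k ω < H
    · rcases ih (shift l ω) with h2 | ⟨j, hj, k, hk1, hk2, hk3⟩
      · left
        show Bad K lam h H l ω * BB K lam h H l m (shift l ω) = 1
        rw [h2]
        unfold Bad
        rw [if_pos h1]; norm_num
      · right
        rw [shift_shift] at hk3
        refine ⟨j + 1, by omega, k, hk1, hk2, ?_⟩
        have : (j + 1) * l = l + j * l := by ring
        rw [this]; exact hk3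
    · push Not at h1
      obtain ⟨k, hk1, hk2, hk3⟩ := h1
      right
      refine ⟨0, by omega, k, hk1, hk2, ?_⟩
      rw [zero_mul, shift_zero]; exact hk3

variable {K} {c : ℝ} {p n0 : ℕ} (hP : PolyLower K c p n0)

include hP

omit hM in
/-- deterministic upper bound for the inverse partition function -/
lemma VV_bound (H D : ℝ) (hH : 0 < H) (hD : 1 ≤ D) (k l m : ℕ) (hk : 1 ≤ k) (ω : ℕ → ℝ) :
    VV K lam h (n0 + m * l) ω ≤ 2 / gg c p (n0 + m * l) *
      (BB K lam h H l m (shift n0 ω) +
        ∑ j ∈ Finset.range (n0 + m * l + 1), ∑ i ∈ Finset.range (n0 + m * l + 1),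
          D⁻¹ * Real.exp (xs lam h i (shift j ω) / k)) +
      8 * (D ^ k) ^ 3 * ((n0 + m * l : ℕ) + 2) / (gg c p (n0 + m * l) ^ 3 * H) := by
  set L := n0 + m * l with hL
  have hg := gg_pos hP.cpos p L
  have hD0 : 0 < D := by linarith
  have hS : 0 ≤ ∑ j ∈ Finset.range (L + 1), ∑ i ∈ Finset.range (L + 1),
          D⁻¹ * Real.exp (xs lam h i (shift j ω) / k) :=
    Finset.sum_nonneg fun j _ => Finset.sum_nonneg fun i _ => by positivity
  have hB := BB_nonneg K lam h H l m (shift n0 ω)
  have hlast : 0 ≤ 8 * (D ^ k) ^ 3 * ((L : ℕ) + 2) / (gg c p L ^ 3 * H) := by positivity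
  have hV := VV_le lam h hP L ω
  have h2g : 0 < 2 / gg c p L := by positivity
  rcases BB_eq_one_or K lam h H l m (shift n0 ω) with h1 | ⟨j, hj, n, hn1, hn2, hn3⟩
  · rw [h1]
    nlinarith
  · by_cases hbad : ∃ i j', i + j' ≤ L ∧ D ^ k < psi lam h i (shift j' ω)
    · obtain ⟨i, j', hij, hlt⟩ := hbad
      have hge : 1 ≤ D⁻¹ * Real.exp (xs lam h i (shift j' ω) / k) := by
        have h3 : D ^ k ≤ Real.exp (xs lam h i (shift j' ω)) := by
          unfold psi at hlt
          have : 1 ≤ D ^ k := one_le_pow₀ hD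
          linarith
        have h4 : D ≤ Real.exp (xs lam h i (shift j' ω) / k) := by
          have hk' : (0 : ℝ) < k := by exact_mod_cast hk
          have h5 : Real.exp (xs lam h i (shift j' ω)) =
              Real.exp (xs lam h i (shift j' ω) / k) ^ k := by
            rw [← Real.exp_nat_mul]; congr 1; field_simp
          rw [h5] at h3
          exact le_of_pow_le_pow_left₀ (by omega) (Real.exp_pos _).le h3
        rw [inv_mul_eq_div, one_le_div hD0]
        exact h4
      have h5 : D⁻¹ * Real.exp (xs lam h i (shift j' ω) / k) ≤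
          ∑ j ∈ Finset.range (L + 1), ∑ i ∈ Finset.range (L + 1),
          D⁻¹ * Real.exp (xs lam h i (shift j ω) / k) := by
        refine le_trans ?_ (Finset.single_le_sum (f := fun j => ∑ i ∈ Finset.range (L + 1),
          D⁻¹ * Real.exp (xs lam h i (shift j ω) / k))
          (fun j _ => Finset.sum_nonneg fun i _ => by positivity)
          (Finset.mem_range.2 (by omega : j' < L + 1)))
        exact Finset.single_le_sum (f := fun i => D⁻¹ * Real.exp (xs lam h i (shift j' ω) / k))
          (fun j _ => by positivity) (Finset.mem_range.2 (by omega : i < L + 1))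
      nlinarith
    · push Not at hbad
      rw [shift_shift] at hn3
      have hle : n0 + j * l + n ≤ L := by
        rw [hL]
        have : (j + 1) * l ≤ m * l := Nat.mul_le_mul_right l hj
        nlinarith
      have h3 := good_lower lam h hP L (n0 + j * l) n (by omega) hle ω (D ^ k) (by positivity)
        hbad
      have h4 : gg c p L ^ 3 * H ≤ 4 * (D ^ k) ^ 2 * (L + 2) * ZZ K lam h L ω := by
        refine le_trans ?_ h3
        gcongr
      have hZ := ZZ_pos lam h hP L ω
      have h5 : VV K lam h L ω ≤ 8 * (D ^ k) ^ 3 * ((L : ℕ) + 2) / (gg c p L ^ 3 * H) := by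
        rw [VV_eq_psi, div_le_div_iff₀ hZ (by positivity)]
        have h6 : psi lam h L ω ≤ D ^ k := by
          have := hbad L 0 (by omega)
          rwa [shift_zero] at this
        have h7 := psi_pos lam h L ω
        calc 2 * psi lam h L ω * (gg c p L ^ 3 * H)
            ≤ 2 * D ^ k * (4 * (D ^ k) ^ 2 * (L + 2) * ZZ K lam h L ω) := by
              gcongr
          _ = _ := by ring
      have h8 : 0 ≤ 2 / gg c p L * (BB K lam h H l m (shift n0 ω) +
        ∑ j ∈ Finset.range (L + 1), ∑ i ∈ Finset.range (L + 1),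
          D⁻¹ * Real.exp (xs lam h i (shift j ω) / k)) := by positivity
      linarith

omit hP in
lemma integrable_exp_xs (k : ℕ) (hk : 1 ≤ k) (i : ℕ) :
    Integrable (fun ω => Real.exp (xs lam h i ω / k)) (chargeLaw ν) := by
  refine Integrable.mono' (integrable_exp_SS ν lam h hM 1 zero_le_one i)
    (by apply Measurable.aestronglyMeasurable; fun_prop) (ae_of_all _ fun ω => ?_)
  rw [Real.norm_eq_abs, abs_of_pos (Real.exp_pos _), one_mul]
  apply Real.exp_le_exp.2
  have h1 := abs_xs_le_SS lam h i ω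
  have hk' : (1 : ℝ) ≤ k := by exact_mod_cast hk
  calc xs lam h i ω / k ≤ |xs lam h i ω| / k := by gcongr; exact le_abs_self _
    _ ≤ |xs lam h i ω| := div_le_self (abs_nonneg _) hk'
    _ ≤ _ := h1

omit hP hM in
lemma integral_exp_xs_le (k : ℕ)
    (hkk : ∫ x, Real.exp (-2 * lam * (x + h) / k) ∂ν ≤ 1) (i : ℕ) :
    ∫ ω, Real.exp (xs lam h i ω / k) ∂(chargeLaw ν) ≤ 1 := by
  induction i with
  | zero => simp [xs]
  | succ n ih =>
    have e : ∀ ω, Real.exp (xs lam h (n + 1) ω / k) =
        Real.exp (xs lam h 1 ω / k) * Real.exp (xs lam h n (shift 1 ω) / k) := by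
      intro ω
      rw [add_comm n 1, xs_add, add_div, Real.exp_add]
    simp_rw [e]
    rw [integral_mul_shift' ν 1 (fun ω => Real.exp (xs lam h 1 ω / k))
      (fun ω => Real.exp (xs lam h n ω / k)) _ (by fun_prop) (by fun_prop)]
    · have h1 : ∫ ω, Real.exp (xs lam h 1 ω / k) ∂(chargeLaw ν) ≤ 1 := by
        have e2 : ∀ ω : ℕ → ℝ, Real.exp (xs lam h 1 ω / k) =
            (fun x : ℝ => Real.exp (-2 * lam * (x + h) / k)) (ω 0) := by
          intro ω; simp only [xs, Finset.sum_range_one]
        simp_rw [e2]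
        rw [charge_coord_integral ν (fun x : ℝ => Real.exp (-2 * lam * (x + h) / k))
          (by apply Measurable.aestronglyMeasurable; fun_prop) 0]
        exact hkk
      have h2 : 0 ≤ ∫ ω, Real.exp (xs lam h 1 ω / k) ∂(chargeLaw ν) :=
        integral_nonneg fun ω => (Real.exp_pos _).le
      have h3 : 0 ≤ ∫ ω, Real.exp (xs lam h n ω / k) ∂(chargeLaw ν) :=
        integral_nonneg fun ω => (Real.exp_pos _).le
      exact mul_le_one₀ h1 h3 ih
    · intro ω ω' hω
      simp only
      rw [depLT_xs lam h 1 ω ω' hω]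

theorem uu_bound (H D : ℝ) (hH : 0 < H) (hD : 1 ≤ D) (k l m : ℕ) (hk : 1 ≤ k)
    (hkk : ∫ x, Real.exp (-2 * lam * (x + h) / k) ∂ν ≤ 1) :
    uu K ν lam h (n0 + m * l) ≤ 2 / gg c p (n0 + m * l) *
      (beta K ν lam h H l ^ m + ((n0 + m * l : ℕ) + 1) ^ 2 * D⁻¹) +
      8 * (D ^ k) ^ 3 * ((n0 + m * l : ℕ) + 2) / (gg c p (n0 + m * l) ^ 3 * H) := by
  set L := n0 + m * l with hL
  have hD0 : 0 < D := by linarith
  have hg := gg_pos hP.cpos p L
  have i1 : Integrable (fun ω => BB K lam h H l m (shift n0 ω)) (chargeLaw ν) := by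
    refine Integrable.of_bound (by apply Measurable.aestronglyMeasurable; fun_prop) 1
      (ae_of_all _ fun ω => ?_)
    rw [Real.norm_eq_abs, abs_of_nonneg (BB_nonneg K lam h H l m _)]
    exact BB_le_one K lam h H l m _
  have i2 : ∀ i j, Integrable (fun ω => D⁻¹ * Real.exp (xs lam h i (shift j ω) / k))
      (chargeLaw ν) := fun i j =>
    (integrable_shift' ν j _ (integrable_exp_xs ν lam h hM k hk i)).const_mul _
  have i3 := integrable_finsetSum (Finset.range (L + 1)) (fun j _ =>
    integrable_finsetSum (Finset.range (L + 1)) (fun i _ => i2 i j))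
  calc uu K ν lam h L ≤ ∫ ω, (2 / gg c p L * (BB K lam h H l m (shift n0 ω) +
        ∑ j ∈ Finset.range (L + 1), ∑ i ∈ Finset.range (L + 1),
          D⁻¹ * Real.exp (xs lam h i (shift j ω) / k)) +
      8 * (D ^ k) ^ 3 * ((L : ℕ) + 2) / (gg c p L ^ 3 * H)) ∂(chargeLaw ν) :=
        integral_mono (integrable_VV ν lam h hP L)
          (((i1.add i3).const_mul _).add (integrable_const _))
          (fun ω => VV_bound lam h hP H D hH hD k l m hk ω)
    _ = 2 / gg c p L * (beta K ν lam h H l ^ m +
        ∑ j ∈ Finset.range (L + 1), ∑ i ∈ Finset.range (L + 1),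
          D⁻¹ * ∫ ω, Real.exp (xs lam h i ω / k) ∂(chargeLaw ν)) +
      8 * (D ^ k) ^ 3 * ((L : ℕ) + 2) / (gg c p L ^ 3 * H) := by
        rw [integral_add (f := fun ω => 2 / gg c p L * (BB K lam h H l m (shift n0 ω) +
            ∑ j ∈ Finset.range (L + 1), ∑ i ∈ Finset.range (L + 1),
            D⁻¹ * Real.exp (xs lam h i (shift j ω) / k)))
          ((i1.add i3).const_mul _) (integrable_const _), integral_const_mul,
          integral_add i1 i3, integral_finsetSum _ (fun j _ =>
          integrable_finsetSum (Finset.range (L + 1)) (fun i _ => i2 i j)),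
          integral_shift' ν n0 (BB K lam h H l m) (measurable_BB K lam h H l m), integral_BB]
        congr 1
        · congr 2
          refine Finset.sum_congr rfl fun j _ => ?_
          rw [integral_finsetSum _ (fun i _ => i2 i j)]
          refine Finset.sum_congr rfl fun i _ => ?_
          rw [integral_const_mul, integral_shift' ν j (fun ω => Real.exp (xs lam h i ω / k))
            (by fun_prop)]
        · simp
    _ ≤ _ := by
        have h1 : ∑ j ∈ Finset.range (L + 1), ∑ i ∈ Finset.range (L + 1),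
          D⁻¹ * ∫ ω, Real.exp (xs lam h i ω / k) ∂(chargeLaw ν) ≤
          ∑ j ∈ Finset.range (L + 1), ∑ i ∈ Finset.range (L + 1), D⁻¹ := by
          refine Finset.sum_le_sum fun j _ => Finset.sum_le_sum fun i _ => ?_
          exact mul_le_of_le_one_right (by positivity)
            (integral_exp_xs_le ν lam h k hkk i)
        have h2 : ∑ j ∈ Finset.range (L + 1), ∑ i ∈ Finset.range (L + 1), D⁻¹ =
            ((L : ℕ) + 1) ^ 2 * D⁻¹ := by
          simp only [Finset.sum_const, Finset.card_range, nsmul_eq_mul]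
          push_cast; ring
        rw [h2] at h1
        gcongr

end Pool.Agent.Helper97.Copolymer
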